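import Pool.Agent.S4.R.Bd

/-! # The channels outside of the main part do not contribute -/

namespace Pool.Agent.S4

open Pool.Agent.H63.VC hiding ext
open Pool.Agent.H63.VC3 Pool.Agent.H63.VC7 Pool.Agent.H63.VC8 Pool.Agent.H63.VC11
open Pool.Agent.H63.VC12 Complex Filter Topology

variable {n N g m : ℕ}

/-- The sum over the channels of a twist region, between two chains. -/
noncomputable def zip4 (n : ℕ) (q : ℂ) (N L L' : ℕ) (a : ℤ) (l : List (Bool × ℤ)) (x : Bool × ℤ)
    (l' : List (Bool × ℤ)) (M : ℕ) : ℂ :=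
  ∑ Y ∈ Finset.range (N + 1), vwc n q N M x.1 x.2 Y *
    (mfc n q N L a l x.1 Y * mfc n q N L' a l' x.1 Y)

private theorem R_Hyb_sixn (n : ℕ) (q : ℂ) (N k l : ℕ) : sixn n q N k l = sixn n q N l k := by
  unfold sixn
  refine Finset.sum_congr rfl fun t _ => ?_
  congr 1
  refine Finset.prod_congr rfl fun i _ => ?_
  rw [mul_comm (br q ((n : ℤ) + k + i - 1) * br q ((k : ℤ) - i))]

private theorem R_Hyb_ker (n : ℕ) (q : ℂ) (N : ℕ) (a : ℤ) (P P' : Bool) (X Y : ℕ) :
    ker n q N a P P' X Y = ker n q N a P' P Y X := by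
  cases P <;> cases P'
  · exact R_Hyb_sixn n q N X Y
  · rfl
  · rfl
  · rfl

theorem zip4_move (q : ℂ) (L L' : ℕ) (a : ℤ) (l : List (Bool × ℤ)) (x y : Bool × ℤ)
    (l' : List (Bool × ℤ)) :
    zip4 n q N L L' a l x (y :: l') L = zip4 n q N L L' a (x :: l) y l' L' := by
  unfold zip4
  simp only [mfc]
  simp only [Finset.mul_sum, Finset.sum_mul]
  rw [Finset.sum_comm]
  refine Finset.sum_congr rfl fun Z _ => Finset.sum_congr rfl fun Y _ => ?_
  rw [R_Hyb_ker n q N a x.1 y.1 Y Z]
  ring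

private theorem R_Hyb_dim (hn : 2 ≤ n) (hg : 1 ≤ g) (hgn : g < n) (hN : n ≤ N) {Y : ℕ}
    (h1 : N + g + 1 < n + Y) (h2 : Y ≤ N) :
    Tendsto (fun q => dimA n q Y / dimS n N q) (𝓝[≠] (q0 (N + g))) (𝓝 0) := by
  have h0 : q0 (N + g) ≠ 0 := exp_ne_zero _
  have hd : DifferentiableAt ℂ (fun q => br q ((N + g : ℕ) : ℤ) *
      (NodeL18_R n (N + g) q Y / NodeL18_D n N (N + g) q)) (q0 (N + g)) := by
    refine DifferentiableAt.fun_mul (NodeL18_br_diff _ h0 _) ?_
    refine DifferentiableAt.fun_div ?_ (NodeL18_D_diff n g N hn hg hN) (NodeL18_D_ne n g N hn hg hN)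
    unfold NodeL18_R
    refine DifferentiableAt.fun_mul ?_ ?_
    · exact (NodeL18_br_diff _ h0 _).fun_div (NodeL18_br_diff _ h0 _)
        (NodeL18_br_ne _ _ (by omega) (by omega) (by omega))
    · refine DifferentiableAt.fun_finsetProd fun u hu => ?_
      rw [Finset.mem_range] at hu
      exact ((NodeL18_rho_diff _ _ h0 _).fun_div (NodeL18_br_diff _ h0 _)
        (NodeL18_br_ne _ _ (by omega) (by omega) (by omega))).fun_pow 2
  have ht := hd.continuousAt.tendsto.mono_left (nhdsWithin_le_nhds (s := {q0 (N + g)}ᶜ))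
  have hz : br (q0 (N + g)) ((N + g : ℕ) : ℤ) = 0 := NodeL18_br_root (N + g) (by omega)
  rw [hz, zero_mul] at ht
  refine ht.congr' ?_
  have hev : ∀ᶠ q in 𝓝[≠] (q0 (N + g)), ∀ i : ℕ, 1 ≤ i → i ≤ N + n → br q i ≠ 0 :=
    NodeL18_ev g N n hg hN
  filter_upwards [hev] with q hq
  have hb : br q ((N + g : ℕ) : ℤ) ≠ 0 := hq (N + g) (by omega) (by omega)
  rw [NodeL18_dimA n (N + g) Y hn (by omega) (by omega) q (fun i h1 h2 => hq i h1 (by omega)),
    NodeL18_dimS n N (N + g) (by omega) (by omega) q, sq, mul_assoc,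
    mul_div_mul_left _ _ hb, mul_div_assoc]

private theorem R_Hyb_vw (hn : 2 ≤ n) (hg : 1 ≤ g) (hgn : g < n) (hN : n ≤ N) (b : ℤ) {Y : ℕ}
    (h1 : N + g + 1 < n + Y) (h2 : Y ≤ N) :
    Tendsto (fun q => vw n q N false b Y) (𝓝[≠] (q0 (N + g))) (𝓝 0) := by
  have h0 : q0 (N + g) ≠ 0 := exp_ne_zero _
  have hc : ContinuousAt (fun q : ℂ => twA q n Y ^ b) (q0 (N + g)) := by
    unfold twA
    refine ContinuousAt.zpow₀ ?_ b (Or.inl ?_)
    · exact continuousAt_const.mul (continuousAt_id.zpow₀ _ (Or.inl h0))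
    · exact mul_ne_zero (pow_ne_zero _ (by norm_num)) (zpow_ne_zero _ h0)
  have ht := (R_Hyb_dim hn hg hgn hN h1 h2).mul
    (hc.tendsto.mono_left (nhdsWithin_le_nhds (s := {q0 (N + g)}ᶜ)))
  rw [zero_mul] at ht
  exact ht

/-- The extra channels of one twist region. -/
theorem zip4_one (hn : 2 ≤ n) (hg : 1 ≤ g) (hgn : g < n) (hN : n ≤ N) {L : ℕ}
    (hL : L + n = N + g + 1) {a : ℤ} (ha : IsA n N a) (l l' : List (Bool × ℤ)) (b : ℤ)
    (hl : OkL 0 l) (hl' : OkL 0 l') :
    Tendsto (fun q => zip4 n q N L N a l (false, b) l' N - zip4 n q N L N a l (false, b) l' L)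
      (𝓝[≠] (q0 (N + g))) (𝓝 0) := by
  have e : ∀ q, zip4 n q N L N a l (false, b) l' N - zip4 n q N L N a l (false, b) l' L =
      ∑ Y ∈ Finset.range (N + 1), (vwc n q N N false b Y - vwc n q N L false b Y) *
        (mfc n q N L a l false Y * mfc n q N N a l' false Y) := by
    intro q
    unfold zip4
    rw [← Finset.sum_sub_distrib]
    refine Finset.sum_congr rfl fun Y _ => ?_
    ring
  have ht : ∀ Y ∈ Finset.range (N + 1), Tendsto (fun q =>
      (vwc n q N N false b Y - vwc n q N L false b Y) *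
        (mfc n q N L a l false Y * mfc n q N N a l' false Y)) (𝓝[≠] (q0 (N + g))) (𝓝 0) := by
    intro Y hY
    have hY' : Y ≤ N := by
      have := Finset.mem_range.1 hY
      omega
    by_cases hLY : L < Y
    · have e1 : ∀ q, vwc n q N N false b Y - vwc n q N L false b Y = vw n q N false b Y := by
        intro q
        unfold vwc
        rw [if_neg (by omega), if_pos ⟨rfl, hLY⟩, sub_zero]
      simp only [e1]
      have h1 := (Asymptotics.isLittleO_one_iff ℂ).2
        (R_Hyb_vw hn hg hgn hN b (Y := Y) (by omega) hY')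
      have h2 := mfc_bdd hn hg hgn hN (Or.inr hL) ha l hl hY'
      have h3 := mfc_bdd hn hg hgn hN (Or.inl rfl) ha l' hl' hY'
      have h4 := h1.mul_isBigO (h2.mul h3)
      simp only [mul_one] at h4
      exact (Asymptotics.isLittleO_one_iff ℂ).1 h4
    · have e1 : ∀ q, vwc n q N N false b Y - vwc n q N L false b Y = 0 := by
        intro q
        unfold vwc
        rw [if_neg (by omega), if_neg (fun h => hLY h.2), sub_self]
      simp only [e1, zero_mul]
      exact tendsto_const_nhds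
  have hs := tendsto_finsetSum (Finset.range (N + 1)) ht
  simp only [Finset.sum_const_zero] at hs
  exact hs.congr fun q => (e q).symm

private theorem R_Hyb_sum (s : Finset ℕ) (m : ℕ) (F : (Fin (m + 1) → ℕ) → ℂ) :
    ∑ X ∈ Fintype.piFinset (fun _ : Fin (m + 1) => s), F X =
      ∑ Y ∈ s, ∑ Z ∈ Fintype.piFinset (fun _ : Fin m => s),
        F (Fin.cons (α := fun _ => ℕ) Y Z) := by
  rw [← Finset.sum_product' s (Fintype.piFinset (fun _ : Fin m => s))
    (fun Y Z => F (Fin.cons (α := fun _ => ℕ) Y Z))]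
  refine Finset.sum_equiv (Fin.consEquiv (fun _ : Fin (m + 1) => ℕ)).symm (fun X => ?_)
    (fun X _ => ?_)
  · simp only [Fintype.mem_piFinset, Finset.mem_product, Fin.forall_fin_succ]
    exact Iff.rfl
  · show F X = F (Fin.cons (α := fun _ => ℕ) (X 0) (Fin.tail X))
    rw [Fin.cons_self_tail]

private theorem R_Hyb_gen {q : ℂ} {a : ℤ} (L : ℕ) : ∀ (m : ℕ) (P : Fin (m + 1) → Bool)
    (b : Fin (m + 1) → ℤ) (P' : Bool) (X0 : ℕ),
    ∑ X ∈ Fintype.piFinset (fun _ : Fin (m + 1) => Finset.range (N + 1)),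
      ker n q N a P' (P 0) X0 (X 0) * ((∏ i, vwc n q N L (P i) (b i) (X i)) *
        ∏ j : Fin m, ker n q N a (P j.castSucc) (P j.succ) (X j.castSucc) (X j.succ)) =
      mfc n q N L a (List.ofFn fun i => (P i, b i)) P' X0
  | 0, P, b, P', X0 => by
    rw [R_Hyb_sum]
    simp [mfc]
  | m + 1, P, b, P', X0 => by
    rw [R_Hyb_sum, List.ofFn_succ, mfc]
    refine Finset.sum_congr rfl fun Y _ => ?_
    have h := R_Hyb_gen (q := q) (a := a) L m (fun i => P i.succ)
      (fun i => b i.succ) (P 0) Y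
    rw [← h, Finset.mul_sum, Finset.mul_sum]
    refine Finset.sum_congr rfl fun Z _ => ?_
    rw [Fin.prod_univ_succ, Fin.prod_univ_succ (n := m) (fun j => ker n q N a (P j.castSucc)
      (P j.succ) (Fin.cons (α := fun _ => ℕ) Y Z j.castSucc) (Fin.cons (α := fun _ => ℕ) Y Z j.succ))]
    simp only [Fin.cons_zero, Fin.cons_succ, Fin.castSucc_zero, Fin.castSucc_succ]
    ring

private theorem R_Hyb_ker_zero {q : ℂ} {a : ℤ} (P : Bool) (Y : ℕ) :
    ker n q N a false P 0 Y = 1 := by
  cases P with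
  | true => exact six_zero a Y
  | false =>
    show sixn n q N 0 Y = 1
    unfold sixn
    rw [Finset.sum_range_succ', Finset.sum_eq_zero]
    · simp
    · intro t _
      rw [Finset.prod_eq_zero (Finset.mem_range.2 (Nat.succ_pos t)), mul_zero]
      have : br q (((0 : ℕ) : ℤ) - ((0 : ℕ) : ℤ)) = 0 := by
        simp [br]
      rw [this]
      simp

private theorem R_Hyb_mixc (q : ℂ) (L L' : ℕ) (a : ℤ) (P : Fin (m + 1) → Bool)
    (b : Fin (m + 1) → ℤ) : mixc n q N L' a P b =
      zip4 n q N L L' a [] (P 0, b 0) (List.ofFn fun i : Fin m => (P i.succ, b i.succ)) L' := by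
  have h1 : mixc n q N L' a P b = mfc n q N L' a (List.ofFn fun i => (P i, b i)) false 0 := by
    rw [← R_Hyb_gen, mixc]
    refine Finset.sum_congr rfl fun X _ => ?_
    rw [R_Hyb_ker_zero, one_mul]
  rw [h1, List.ofFn_succ, mfc, zip4]
  refine Finset.sum_congr rfl fun Y _ => ?_
  rw [R_Hyb_ker_zero, one_mul]
  simp only [mfc, one_mul]

private theorem R_Hyb_mix (q : ℂ) (a : ℤ) (P : Fin (m + 1) → Bool)
    (b : Fin (m + 1) → ℤ) : mix n q N a P b = mixc n q N N a P b := by
  unfold mix mixc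
  refine Finset.sum_congr rfl fun X hX => ?_
  congr 1
  refine Finset.prod_congr rfl fun i _ => ?_
  have h := Finset.mem_range.1 (Fintype.mem_piFinset.1 hX i)
  unfold vwc
  rw [if_neg (by omega)]

/-- One twist region. -/
private theorem R_Hyb_one (hn : 2 ≤ n) (hg : 1 ≤ g) (hgn : g < n) (hN : n ≤ N) {L : ℕ}
    (hL : L + n = N + g + 1) {a : ℤ} (ha : IsA n N a) (l l' : List (Bool × ℤ)) (x : Bool × ℤ)
    (h1 : OkL (hs l) (x :: l')) (h2 : OkL (hs [x]) l) :
    Tendsto (fun q => zip4 n q N L N a l x l' N - zip4 n q N L N a l x l' L)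
      (𝓝[≠] (q0 (N + g))) (𝓝 0) := by
  obtain ⟨p, b⟩ := x
  cases p with
  | false =>
    simp only [OkL] at h1
    exact zip4_one hn hg hgn hN hL ha l l' b h2 h1.2
  | true =>
    have e : ∀ q, zip4 n q N L N a l (true, b) l' N - zip4 n q N L N a l (true, b) l' L = 0 := by
      intro q
      unfold zip4 vwc
      simp
    simp only [e]
    exact tendsto_const_nhds

private theorem R_Hyb_ind (hn : 2 ≤ n) (hg : 1 ≤ g) (hgn : g < n) (hN : n ≤ N) {L : ℕ}
    (hL : L + n = N + g + 1) {a : ℤ} (ha : IsA n N a) : ∀ (l' l : List (Bool × ℤ)) (x : Bool × ℤ),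
    OkL (hs l) (x :: l') → OkL (hs [x]) l → (x.1 = true → ∀ c l1, l ≠ (true, c) :: l1) →
    Tendsto (fun q => zip4 n q N L N a l x l' N - zip4 n q N L L a l x l' L)
      (𝓝[≠] (q0 (N + g))) (𝓝 0)
  | [], l, x, h1, h2, _ => by
    have h := R_Hyb_one hn hg hgn hN hL ha l [] x h1 h2
    exact h.congr fun q => by
      unfold zip4
      simp only [mfc]
  | y :: l'', l, x, h1, h2, h3 => by
    have h := R_Hyb_one hn hg hgn hN hL ha l (y :: l'') x h1 h2
    have i1 : OkL (hs (x :: l)) (y :: l'') := by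
      obtain ⟨p, b⟩ := x
      cases p with
      | false =>
        simp only [OkL] at h1
        exact h1.2
      | true =>
        simp only [OkL] at h1
        exact h1.2.2
    have i2 : OkL (hs [y]) (x :: l) := by
      obtain ⟨p, b⟩ := x
      cases p with
      | false =>
        simp only [OkL] at h1
        have hy : hs (y :: l'') = hs [y] := by
          obtain ⟨p', c⟩ := y
          cases p' <;> rfl
        rw [hy] at h1
        simp only [OkL]
        refine ⟨?_, h2⟩
        have := h1.1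
        have e : b - hs [y] - hs l = b - hs l - hs [y] := by ring
        rw [e]
        exact this
      | true =>
        simp only [OkL] at h1 ⊢
        exact ⟨h1.1, h3 rfl, h2⟩
    have i3 : y.1 = true → ∀ c l1, x :: l ≠ (true, c) :: l1 := by
      intro hy c l1 hc
      obtain ⟨p', d⟩ := y
      simp only at hy
      subst hy
      obtain ⟨p, b⟩ := x
      cases p with
      | false => simp at hc
      | true =>
        simp only [OkL] at h1
        exact h1.2.1 d l'' rfl
    have ih := R_Hyb_ind hn hg hgn hN hL ha l'' (x :: l) y i1 i2 i3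
    have hs := h.add ih
    rw [add_zero] at hs
    refine hs.congr fun q => ?_
    rw [zip4_move q L N a l x y l'', zip4_move q L L a l x y l'']
    ring

theorem hybrid (hn : 2 ≤ n) (hg : 1 ≤ g) (hgn : g < n) (hN : n ≤ N) {L : ℕ}
    (hL : L + n = N + g + 1) {a : ℤ} (ha : IsA n N a) (P : Fin (m + 1) → Bool)
    (b : Fin (m + 1) → ℤ) (hP : OkL 0 (List.ofFn fun i => (P i, b i))) :
    Tendsto (fun q => mix n q N a P b - mixc n q N L a P b) (𝓝[≠] (q0 (N + g))) (𝓝 0) := by
  rw [List.ofFn_succ] at hP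
  have h := R_Hyb_ind hn hg hgn hN hL ha (List.ofFn fun i : Fin m => (P i.succ, b i.succ)) []
    (P 0, b 0) hP trivial (fun _ c l1 hc => by simp at hc)
  refine h.congr fun q => ?_
  rw [R_Hyb_mix, R_Hyb_mixc q L N a P b, R_Hyb_mixc q L L a P b]

end Pool.Agent.S4
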