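import Pool.Agent.S4.Root
import Pool.Agent.H63.VC8.EdgeLim8

/-! # The weights of the edges at the roots of unity -/

namespace Pool.Agent.S4

open Pool.Agent.H63.VC hiding ext
open Pool.Agent.H63.VC3 Pool.Agent.H63.VC7 Pool.Agent.H63.VC8 Pool.Agent.H63.VC11
open Pool.Agent.H63.VC12 Complex Filter Topology

/-- The admissible values of the parameter for `M = N + g`, `h = min g (n - g)`. -/
def IsH (n N g h : ℕ) (a : ℤ) : Prop :=
  (h = g ∧ 2 * g ≤ n ∧ a = (N : ℤ) + n) ∨ (h + g = n ∧ n < 2 * g ∧ a = -(N : ℤ))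

theorem E4_false (n g N t : ℕ) (hn : 2 ≤ n) (hg : 1 ≤ g) (hgn : g < n) (hN : n ≤ N) {h : ℕ}
    {a : ℤ} (ha : IsH n N g h a) (ht : t + n ≤ N + g + 1) :
    Tendsto (fun q => E4 n N a q false t) (𝓝[≠] (q0 (N + g)))
      (𝓝 ((Dg n g (N + g) : ℂ) / ((N + g : ℕ) : ℂ) ^ 4 *
        (w4 n h false (N + g) (N + g + 1 - n - t) : ℂ))) := by
  have h1 := edge_lim n g N t hn hg hgn hN ht
  have e1 : (fun q => E4 n N a q false t) = fun q => E8 n N q t := by
    funext q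
    simp only [E4, E8, Bool.false_eq_true, if_false]
  have e2 : Cc n g (N + g) (yk n (N + g) (N + g + 1 - n - t)) =
      (w4 n h false (N + g) (N + g + 1 - n - t) : ℂ) := by
    rw [Cc_yk n g (N + g) _ hg (by omega) (by omega) hn]
    generalize N + g + 1 - n - t = k
    unfold w4
    simp only [Bool.false_eq_true, if_false]
    rcases ha with ⟨h1, h2, -⟩ | ⟨h1, h2, -⟩
    · have a1 : k + (g - 1) = k + h - 1 := by omega
      have a2 : k + (n - g - 1) = k + (n - h) - 1 := by omega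
      have a3 : k + (n - 2) = k + n - 2 := by omega
      rw [a1, a2, a3]
      push_cast
      ring
    · have a1 : k + (g - 1) = k + (n - h) - 1 := by omega
      have a2 : k + (n - g - 1) = k + h - 1 := by omega
      have a3 : k + (n - 2) = k + n - 2 := by omega
      rw [a1, a2, a3]
      push_cast
      ring
  rw [e1, ← e2]
  exact h1

/-- The value of the denominator at the root of unity. -/
private theorem R_Edge_prod (M n d t : ℕ) (hn : 2 ≤ n) (a : ℤ)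
    (ha : ∀ i : ℕ, br (q0 M) (a + i) = -(I * (sg M (d + 1 + i) : ℝ))) :
    (∏ i ∈ Finset.range t, (br (q0 M) ((i : ℤ) + 1) * br (q0 M) ((n : ℤ) + i - 1) *
      br (q0 M) (a + i) ^ 2)) * ((S M (n - 2) : ℝ) * (S M d : ℝ) ^ 2 : ℂ) =
    (S M t : ℝ) * (S M (n - 2 + t) : ℝ) * (S M (d + t) : ℝ) ^ 2 := by
  induction t with
  | zero => simp [S_zero]
  | succ t ih =>
    have h1 : br (q0 M) ((t : ℤ) + 1) = I * (sg M (t + 1) : ℝ) :=
      EdgeLim8_nat M (t + 1) _ (by push_cast; ring)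
    have h2 : br (q0 M) ((n : ℤ) + t - 1) = I * (sg M (n - 2 + t + 1) : ℝ) :=
      EdgeLim8_nat M (n - 2 + t + 1) _ (by omega)
    have h3 : br (q0 M) (a + t) = -(I * (sg M (d + t + 1) : ℝ)) := by
      rw [ha t, show d + 1 + t = d + t + 1 by omega]
    have hI : I ^ 4 = 1 := by
      rw [show (4 : ℕ) = 2 * 2 from rfl, pow_mul, I_sq]
      norm_num
    rw [Finset.prod_range_succ, h1, h2, h3, show n - 2 + (t + 1) = n - 2 + t + 1 from rfl,
      show d + (t + 1) = d + t + 1 from rfl, S_succ _ t, S_succ _ (n - 2 + t), S_succ _ (d + t)]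
    push_cast at ih ⊢
    linear_combination (I ^ 4 * (sg M (t + 1) : ℂ) * (sg M (n - 2 + t + 1) : ℂ) *
      (sg M (d + t + 1) : ℂ) ^ 2) * ih +
      ((S M t : ℂ) * (S M (n - 2 + t) : ℂ) * (S M (d + t) : ℂ) ^ 2) *
      ((sg M (t + 1) : ℂ) * (sg M (n - 2 + t + 1) : ℂ) * (sg M (d + t + 1) : ℂ) ^ 2) * hI

private theorem R_Edge_br (n g N : ℕ) (hg : 1 ≤ g) (hgn : g < n) {h : ℕ}
    {a : ℤ} (ha : IsH n N g h a) (i : ℕ) :
    br (q0 (N + g)) (a + i) = -(I * (sg (N + g) (n - h - 1 + 1 + i) : ℝ)) := by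
  have hM : 0 < N + g := by omega
  have hb : br (q0 (N + g)) ((n - h - 1 + 1 + i : ℕ) : ℤ) =
      I * (sg (N + g) (n - h - 1 + 1 + i) : ℝ) := EdgeLim8_nat (N + g) _ _ rfl
  rcases ha with ⟨h1, h2, h3⟩ | ⟨h1, h2, h3⟩
  · have e : a + i = ((N + g : ℕ) : ℤ) + ((n - h - 1 + 1 + i : ℕ) : ℤ) := by
      subst h1
      omega
    rw [e, ← hb]
    exact EdgeLim8_shift (N + g) hM _
  · have e : ((n - h - 1 + 1 + i : ℕ) : ℤ) = ((N + g : ℕ) : ℤ) + (a + i) := by
      omega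
    have h4 := EdgeLim8_shift (N + g) hM (a + i)
    rw [← e] at h4
    have h5 : br (q0 (N + g)) ((n - h - 1 + 1 + i : ℕ) : ℤ) = -br (q0 (N + g)) (a + i) := h4
    rw [← hb, h5, neg_neg]

theorem E4_true (n g N t : ℕ) (hn : 2 ≤ n) (hg : 1 ≤ g) (hgn : g < n) (hN : n ≤ N) {h : ℕ}
    {a : ℤ} (ha : IsH n N g h a) (ht : t + n ≤ N + g + 1) :
    Tendsto (fun q => E4 n N a q true t) (𝓝[≠] (q0 (N + g)))
      (𝓝 ((-1) ^ t * (S (N + g) (n - 2) : ℂ) * (S (N + g) (n - h - 1) : ℂ) ^ 2 /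
        ((N + g : ℕ) : ℂ) ^ 4 * (w4 n h true (N + g) (N + g + 1 - n - t) : ℂ))) := by
  have hx : q0 (N + g) ≠ 0 := exp_ne_zero _
  have hh : 1 ≤ h ∧ h < n := by
    rcases ha with ⟨h1, h2, -⟩ | ⟨h1, h2, -⟩ <;> omega
  have hP := R_Edge_prod (N + g) n (n - h - 1) t hn a (R_Edge_br n g N hg hgn ha)
  set P : ℂ → ℂ := fun q => ∏ i ∈ Finset.range t, (br q ((i : ℤ) + 1) *
    br q ((n : ℤ) + i - 1) * br q (a + i) ^ 2) with hPdef
  have hPc : ContinuousAt P (q0 (N + g)) := by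
    refine tendsto_finsetProd _ fun i _ => ?_
    exact ((RootLim_br_cont _ hx _).mul (RootLim_br_cont _ hx _)).mul
      ((RootLim_br_cont _ hx _).pow 2)
  have hS : ∀ j, j < N + g → (S (N + g) j : ℂ) ≠ 0 := fun j hj => by
    exact_mod_cast (S_pos hj).ne'
  have hSM : ∀ j l, j + l = N + g - 1 → (S (N + g) j : ℂ) * (S (N + g) l : ℂ) =
      ((N + g : ℕ) : ℂ) := by
    intro j l hjl
    have h := S_mul (M := N + g) (k := j) (by omega)
    rw [show N + g - 1 - j = l by omega] at h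
    exact_mod_cast h
  have hM0 : ((N + g : ℕ) : ℂ) ≠ 0 := by exact_mod_cast (by omega : N + g ≠ 0)
  have h2 : P (q0 (N + g)) * ((S (N + g) (n - 2) : ℂ) * (S (N + g) (n - h - 1) : ℂ) ^ 2) =
      (S (N + g) t : ℂ) * (S (N + g) (n - 2 + t) : ℂ) * (S (N + g) (n - h - 1 + t) : ℂ) ^ 2 := by
    exact hP
  have hPx : P (q0 (N + g)) ≠ 0 := by
    intro h0
    rw [h0, zero_mul] at h2
    exact mul_ne_zero (mul_ne_zero (hS t (by omega)) (hS (n - 2 + t) (by omega)))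
      (pow_ne_zero 2 (hS (n - h - 1 + t) (by omega))) h2.symm
  have h3 : Tendsto (fun q => (-1) ^ t / P q) (𝓝[≠] (q0 (N + g)))
      (𝓝 ((-1) ^ t / P (q0 (N + g)))) :=
    (tendsto_const_nhds.div hPc.tendsto hPx).mono_left nhdsWithin_le_nhds
  have e1 : (-1) ^ t / P (q0 (N + g)) =
      (-1) ^ t * (S (N + g) (n - 2) : ℂ) * (S (N + g) (n - h - 1) : ℂ) ^ 2 /
        ((N + g : ℕ) : ℂ) ^ 4 * (w4 n h true (N + g) (N + g + 1 - n - t) : ℂ) := by
    unfold w4
    simp only [if_true]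
    have b1 := hSM (N + g + 1 - n - t) (n - 2 + t) (by omega)
    have b2 := hSM (N + g + 1 - n - t + n - 2) t (by omega)
    have b3 := hSM (N + g + 1 - n - t + h - 1) (n - h - 1 + t) (by omega)
    rw [div_eq_iff hPx, div_mul_eq_mul_div, div_mul_eq_mul_div, eq_div_iff (pow_ne_zero 4 hM0)]
    push_cast at h2 b1 b2 b3 ⊢
    have h6 : ((N : ℂ) + g) ^ 4 =
        ((S (N + g) (N + g + 1 - n - t) : ℂ) * (S (N + g) (n - 2 + t) : ℂ)) *
        ((S (N + g) (N + g + 1 - n - t + n - 2) : ℂ) * (S (N + g) t : ℂ)) *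
        ((S (N + g) (N + g + 1 - n - t + h - 1) : ℂ) * (S (N + g) (n - h - 1 + t) : ℂ)) *
        ((S (N + g) (N + g + 1 - n - t + h - 1) : ℂ) * (S (N + g) (n - h - 1 + t) : ℂ)) := by
      rw [b1, b2, b3]
      ring
    rw [h6]
    linear_combination (-((-1) ^ t * (S (N + g) (N + g + 1 - n - t) : ℂ) *
      (S (N + g) (N + g + 1 - n - t + n - 2) : ℂ) *
      (S (N + g) (N + g + 1 - n - t + h - 1) : ℂ) ^ 2)) * h2
  rw [← e1]
  refine h3.congr' (Eventually.of_forall fun q => ?_)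
  simp only [E4, if_true, hPdef]

end Pool.Agent.S4
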