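import Pool.Agent.H63.VC.Tri
import Pool.Agent.H63.VC12.Bas12
import Pool.Agent.H63.VC3.AbelPlana

/-! # Sums of an antisymmetric function over a lattice -/

namespace Pool.Agent.S4

open Pool.Agent.H63.VC hiding ext
open Pool.Agent.H63.VC3 Pool.Agent.H63.VC7 Pool.Agent.H63.VC8 Pool.Agent.H63.VC11
open Pool.Agent.H63.VC12 Complex Filter Topology

/-- Reindexing of a sum by an involution. -/
private theorem node_reindex {ι : Type*} (s : Finset ι) (σ : ι → ι)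
    (hσ : ∀ i ∈ s, σ i ∈ s) (hσσ : ∀ i ∈ s, σ (σ i) = i) (F : ι → ℂ) :
    ∑ i ∈ s, F (σ i) = ∑ i ∈ s, F i :=
  Finset.sum_nbij' σ σ hσ hσ hσσ hσσ (fun _ _ => rfl)

/-- An antisymmetric sum vanishes. -/
private theorem node_zero {ι : Type*} (s : Finset ι) (σ : ι → ι)
    (hσ : ∀ i ∈ s, σ i ∈ s) (hσσ : ∀ i ∈ s, σ (σ i) = i) (F : ι → ℂ)
    (hF : ∀ i ∈ s, F (σ i) = -F i) : ∑ i ∈ s, F i = 0 := by
  have h := node_reindex s σ hσ hσσ F
  rw [Finset.sum_congr rfl hF, Finset.sum_neg_distrib] at h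
  exact self_eq_neg.mp h.symm

/-- The derivative of a sum of values of an antisymmetric function. -/
theorem node_abs {ι : Type*} (M : ℕ) (hM : 0 < M) (s : Finset ι) (σ : ι → ι)
    (hσ : ∀ i ∈ s, σ i ∈ s) (hσσ : ∀ i ∈ s, σ (σ i) = i) (x : ι → ℂ)
    (hx : ∀ i ∈ s, x (σ i) = M - x i) (f : ℂ × ℂ → ℂ)
    (hf : ∀ i ∈ s, DifferentiableAt ℂ f (0, x i))
    (hodd : ∀ᶠ e in 𝓝 (0 : ℂ), ∀ z, f (e, M / (1 + e) - z) = -f (e, z)) (G : ι → ℂ → ℂ)
    (G' : ι → ℂ) (hG : ∀ i ∈ s, HasDerivAt (G i) (G' i) 0) (hG0 : ∀ i ∈ s, G i 0 = 1)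
    (hGG : ∀ i ∈ s, G' (σ i) = G' i) :
    ∑ i ∈ s, G i 0 * f (0, x i) = 0 ∧
      HasDerivAt (fun e => ∑ i ∈ s, G i e * f (e, x i))
        (M / 2 * ∑ i ∈ s, deriv (fun z => f (0, z)) (x i)) 0 := by
  -- antisymmetry at `e = 0`
  have h0 : ∀ z, f (0, M - z) = -f (0, z) := by
    intro z
    have := hodd.self_of_nhds z
    simpa using this
  have hfs : ∀ i ∈ s, f (0, x (σ i)) = -f (0, x i) := fun i hi => by rw [hx i hi, h0]
  have hz : ∑ i ∈ s, f (0, x i) = 0 :=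
    node_zero s σ hσ hσσ (fun i => f (0, x i)) hfs
  have hz' : ∑ i ∈ s, G' i * f (0, x i) = 0 :=
    node_zero s σ hσ hσσ (fun i => G' i * f (0, x i)) (fun i hi => by
      simp only [hGG i hi, hfs i hi, mul_neg])
  refine ⟨?_, ?_⟩
  · exact (Finset.sum_congr rfl (fun i hi => by rw [hG0 i hi, one_mul])).trans hz
  -- the partial derivatives
  set d1 : ι → ℂ := fun i => fderiv ℂ f (0, x i) (1, 0) with hd1
  set d2 : ι → ℂ := fun i => fderiv ℂ f (0, x i) (0, 1) with hd2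
  have hp1 : ∀ i ∈ s, HasDerivAt (fun e => f (e, x i)) (d1 i) 0 := by
    intro i hi
    have hc : HasDerivAt (fun e : ℂ => (e, x i)) ((1 : ℂ), (0 : ℂ)) 0 :=
      (hasDerivAt_id (0 : ℂ)).prodMk (hasDerivAt_const (0 : ℂ) (x i))
    exact (hf i hi).hasFDerivAt.comp_hasDerivAt (0 : ℂ) hc
  have hp2 : ∀ i ∈ s, deriv (fun z => f (0, z)) (x i) = d2 i := by
    intro i hi
    have hc : HasDerivAt (fun z : ℂ => ((0 : ℂ), z)) ((0 : ℂ), (1 : ℂ)) (x i) :=
      (hasDerivAt_const (x i) (0 : ℂ)).prodMk (hasDerivAt_id (x i))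
    exact ((hf i hi).hasFDerivAt.comp_hasDerivAt (x i) hc).deriv
  -- the relation of the partial derivatives
  have hrel : ∀ i ∈ s, d1 (σ i) - M * d2 (σ i) = -d1 i := by
    intro i hi
    have hg : HasDerivAt (fun e : ℂ => (M : ℂ) / (1 + e) - x i) (-(M : ℂ)) 0 := by
      have h1 : HasDerivAt (fun e : ℂ => 1 + e) 1 0 := (hasDerivAt_id (0 : ℂ)).const_add 1
      have h2 := ((hasDerivAt_const (0 : ℂ) (M : ℂ)).div h1 (by simp)).sub_const (x i)
      simpa using h2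
    have hc : HasDerivAt (fun e : ℂ => (e, (M : ℂ) / (1 + e) - x i)) ((1 : ℂ), -(M : ℂ)) 0 :=
      (hasDerivAt_id (0 : ℂ)).prodMk hg
    have hpt : ((0 : ℂ), (M : ℂ) / (1 + 0) - x i) = (0, x (σ i)) := by
      rw [hx i hi]; simp
    have hfd : HasFDerivAt f (fderiv ℂ f (0, x (σ i))) ((0 : ℂ), (M : ℂ) / (1 + 0) - x i) := by
      rw [hpt]
      exact (hf (σ i) (hσ i hi)).hasFDerivAt
    have hl : HasDerivAt (fun e : ℂ => f (e, (M : ℂ) / (1 + e) - x i))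
        (fderiv ℂ f (0, x (σ i)) (1, -(M : ℂ))) 0 :=
      HasFDerivAt.comp_hasDerivAt (0 : ℂ) hfd hc
    have hr : HasDerivAt (fun e : ℂ => f (e, (M : ℂ) / (1 + e) - x i)) (-d1 i) 0 := by
      refine (hp1 i hi).neg.congr_of_eventuallyEq ?_
      filter_upwards [hodd] with e he
      exact he (x i)
    have h3 := hl.unique hr
    have h4 : ((1 : ℂ), -(M : ℂ)) = (1, 0) + (-(M : ℂ)) • ((0 : ℂ), (1 : ℂ)) := by
      ext <;> simp
    rw [h4, map_add, map_smul, smul_eq_mul] at h3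
    rw [← h3]
    simp only [hd1, hd2]
    ring
  have hsum : 2 * ∑ i ∈ s, d1 i = M * ∑ i ∈ s, d2 i := by
    have h5 := Finset.sum_congr rfl hrel
    rw [Finset.sum_sub_distrib, ← Finset.mul_sum, Finset.sum_neg_distrib,
      node_reindex s σ hσ hσσ d1, node_reindex s σ hσ hσσ d2] at h5
    linear_combination h5
  have hder : HasDerivAt (fun e => ∑ i ∈ s, G i e * f (e, x i))
      (∑ i ∈ s, (G' i * f (0, x i) + G i 0 * d1 i)) 0 := by
    refine HasDerivAt.fun_sum (fun i hi => ?_)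
    exact (hG i hi).mul (hp1 i hi)
  convert hder using 1
  rw [Finset.sum_add_distrib, hz', zero_add, Finset.sum_congr rfl (fun i hi => by
      rw [hG0 i hi, one_mul] : ∀ i ∈ s, G i 0 * d1 i = d1 i),
    Finset.sum_congr rfl hp2]
  linear_combination (-1 / 2 : ℂ) * hsum

end Pool.Agent.S4
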