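import Pool.Agent.H63.VC8.NodeL08
import Pool.Agent.S4.R.Edge
import Pool.Agent.S4.R.Node

/-! # The factors of the nodes of antiparallel strands at the roots of unity -/

namespace Pool.Agent.S4

open Pool.Agent.H63.VC hiding ext
open Pool.Agent.H63.VC3 Pool.Agent.H63.VC7 Pool.Agent.H63.VC8 Pool.Agent.H63.VC11
open Pool.Agent.H63.VC12 Complex Filter Topology

variable {m : ℕ}

/-- The amplitude of a term, as a function of two variables. -/
noncomputable def R_NodeA_T (b : ℤ) (n h M s : ℕ) (A : Finset (Fin m)) (t : Fin m → ℕ)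
    (w : ℂ × ℂ) : ℂ :=
  2 * sin (2 * Real.pi * (w.2 * (1 + w.1) / (M : ℂ))) *
    exp (b * (Real.pi * I * (1 + w.1) / (M : ℂ) * w.2 ^ 2 - Real.pi * I * w.2)) *
    (∏ u ∈ Finset.range (n - 2),
      (-4 * sin (Real.pi * ((w.2 + ((u : ℂ) + 1 - bt n)) * (1 + w.1) / (M : ℂ))) ^ 2)) *
    (∏ i ∈ Finset.range (n - 2 * h),
      (2 * sin (Real.pi * ((w.2 + ((h : ℂ) + i - bt n)) * (1 + w.1) / (M : ℂ))))) ^ s *
    ∏ j ∈ A, ∏ i ∈ Finset.range (t j),
      (-4 * (sin (Real.pi * ((w.2 + (i + bt n)) * (1 + w.1) / (M : ℂ))) *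
        sin (Real.pi * ((w.2 - (i + bt n)) * (1 + w.1) / (M : ℂ)))))

theorem R_NodeA_T_diff (b : ℤ) (n h M s : ℕ) (A : Finset (Fin m)) (t : Fin m → ℕ) :
    Differentiable ℂ (R_NodeA_T b n h M s A t) := by
  unfold R_NodeA_T
  fun_prop

/-! ### The reflection -/

theorem R_NodeA_reflect (b : ℤ) (n h M s : ℕ) (hM : 0 < M) (hh : 2 * h ≤ n)
    (A : Finset (Fin m)) (t : Fin m → ℕ) (e z : ℂ) (he : 1 + e ≠ 0) :
    R_NodeA_T b n h M s A t (e, (M : ℂ) / (1 + e) - z) = -R_NodeA_T b n h M s A t (e, z) := by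
  have h0 := NodeL08_M M hM
  have h1 : sin (2 * Real.pi * (((M : ℂ) / (1 + e) - z) * (1 + e) / (M : ℂ))) =
      -sin (2 * Real.pi * (z * (1 + e) / (M : ℂ))) := by
    rw [show 2 * (Real.pi : ℂ) * (((M : ℂ) / (1 + e) - z) * (1 + e) / (M : ℂ)) =
      2 * Real.pi - 2 * Real.pi * (z * (1 + e) / (M : ℂ)) by field_simp, Complex.sin_two_pi_sub]
  have h2 : (b : ℂ) * (Real.pi * I * (1 + e) / (M : ℂ) * ((M : ℂ) / (1 + e) - z) ^ 2 -
      Real.pi * I * ((M : ℂ) / (1 + e) - z)) =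
      b * (Real.pi * I * (1 + e) / (M : ℂ) * z ^ 2 - Real.pi * I * z) := by
    field_simp
    ring
  have h3 : ∀ y : ℂ, sin (Real.pi * (((M : ℂ) / (1 + e) - z + y) * (1 + e) / (M : ℂ))) =
      sin (Real.pi * ((z - y) * (1 + e) / (M : ℂ))) := by
    intro y
    rw [← Complex.sin_pi_sub]
    congr 1
    field_simp
    ring
  have h4 : ∀ y : ℂ, sin (Real.pi * (((M : ℂ) / (1 + e) - z - y) * (1 + e) / (M : ℂ))) =
      sin (Real.pi * ((z + y) * (1 + e) / (M : ℂ))) := by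
    intro y
    rw [← Complex.sin_pi_sub]
    congr 1
    field_simp
    ring
  have h5 : (∏ u ∈ Finset.range (n - 2),
      (-4 * sin (Real.pi * (((M : ℂ) / (1 + e) - z + ((u : ℂ) + 1 - bt n)) * (1 + e) /
        (M : ℂ))) ^ 2)) =
      ∏ u ∈ Finset.range (n - 2),
      (-4 * sin (Real.pi * ((z + ((u : ℂ) + 1 - bt n)) * (1 + e) / (M : ℂ))) ^ 2) := by
    rw [← Finset.prod_range_reflect]
    refine Finset.prod_congr rfl fun u hu => ?_
    have hu' := Finset.mem_range.1 hu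
    rw [h3]
    have h5 : ((n - 2 - 1 - u : ℕ) : ℂ) = (n : ℂ) - 3 - u := by
      rw [show n - 2 - 1 - u = n - (3 + u) by omega, Nat.cast_sub (by omega)]
      push_cast
      ring
    have h6 : z - (((n - 2 - 1 - u : ℕ) : ℂ) + 1 - bt n) = z + ((u : ℂ) + 1 - bt n) := by
      rw [h5, NodeL08_bt]
      ring
    rw [h6]
  have h6 : (∏ i ∈ Finset.range (n - 2 * h),
      (2 * sin (Real.pi * (((M : ℂ) / (1 + e) - z + ((h : ℂ) + i - bt n)) * (1 + e) /
        (M : ℂ))))) =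
      ∏ i ∈ Finset.range (n - 2 * h),
      (2 * sin (Real.pi * ((z + ((h : ℂ) + i - bt n)) * (1 + e) / (M : ℂ)))) := by
    rw [← Finset.prod_range_reflect]
    refine Finset.prod_congr rfl fun u hu => ?_
    have hu' := Finset.mem_range.1 hu
    rw [h3]
    have h5 : ((n - 2 * h - 1 - u : ℕ) : ℂ) = (n : ℂ) - 2 * h - 1 - u := by
      rw [show n - 2 * h - 1 - u = n - (2 * h + 1 + u) by omega, Nat.cast_sub (by omega)]
      push_cast
      ring
    have h6 : z - ((h : ℂ) + ((n - 2 * h - 1 - u : ℕ) : ℂ) - bt n) =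
        z + ((h : ℂ) + (u : ℂ) - bt n) := by
      rw [h5, NodeL08_bt]
      ring
    rw [h6]
  have h7 : (∏ j ∈ A, ∏ i ∈ Finset.range (t j),
      (-4 * (sin (Real.pi * (((M : ℂ) / (1 + e) - z + (i + bt n)) * (1 + e) / (M : ℂ))) *
        sin (Real.pi * (((M : ℂ) / (1 + e) - z - (i + bt n)) * (1 + e) / (M : ℂ)))))) =
      ∏ j ∈ A, ∏ i ∈ Finset.range (t j),
      (-4 * (sin (Real.pi * ((z + (i + bt n)) * (1 + e) / (M : ℂ))) *
        sin (Real.pi * ((z - (i + bt n)) * (1 + e) / (M : ℂ))))) := by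
    refine Finset.prod_congr rfl fun j _ => Finset.prod_congr rfl fun i _ => ?_
    rw [h3, h4]
    ring
  simp only [R_NodeA_T]
  rw [h1, h2, h5, h6, h7]
  ring

/-! ### The value at `e = 0` -/

/-- The amplitude at `e = 0`. -/
theorem R_NodeA_T0 (b : ℤ) (n h M s : ℕ) (hM : 0 < M) (hn : 2 ≤ n) (hh : 2 * h ≤ n)
    (A : Finset (Fin m)) (t : Fin m → ℕ) (ht : ∀ j ∈ A, t j + n ≤ M + 1) (z : ℂ) :
    R_NodeA_T b n h M s A t (0, z) =
      -((-1) ^ n * exp (-(b * (Real.pi * I * M / 4))) * (∏ j ∈ A, (-1) ^ (t j) * (M : ℂ)) *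
        NT4 ((b : ℝ) / 2) n h M false s A (fun j => M + 1 - n - t j) (z / M - 1 / 2)) := by
  have h0 := NodeL08_M M hM
  obtain ⟨v, hv⟩ : ∃ v, v = z / (M : ℂ) - 1 / 2 := ⟨_, rfl⟩
  have hz : z = M * (v + 1 / 2) := by
    rw [hv]
    field_simp
    ring
  rw [← hv]
  have h1 : sin (2 * Real.pi * (z * (1 + 0) / (M : ℂ))) = -sin (2 * Real.pi * v) := by
    rw [hz, show 2 * (Real.pi : ℂ) * (M * (v + 1 / 2) * (1 + 0) / (M : ℂ)) =
      2 * Real.pi * v + Real.pi by field_simp; ring, Complex.sin_add_pi]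
  have h2 : exp ((b : ℂ) * (Real.pi * I * (1 + 0) / (M : ℂ) * z ^ 2 - Real.pi * I * z)) =
      exp (-(b * (Real.pi * I * M / 4))) *
        exp (2 * Real.pi * I * (((b : ℝ) / 2 : ℝ) : ℂ) * M * v ^ 2) := by
    rw [← Complex.exp_add, hz]
    congr 1
    push_cast
    field_simp
    ring
  have h3 : ∀ y : ℂ, sin (Real.pi * ((z + y) * (1 + 0) / (M : ℂ))) =
      cos (Real.pi * (v + y / M)) := by
    intro y
    rw [← Complex.sin_add_pi_div_two, hz]
    congr 1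
    field_simp
    ring
  have h4 : ∀ y : ℂ, sin (Real.pi * ((z - y) * (1 + 0) / (M : ℂ))) =
      cos (Real.pi * (v - y / M)) := by
    intro y
    rw [← Complex.sin_add_pi_div_two, hz]
    congr 1
    field_simp
    ring
  have h5 : (∏ u ∈ Finset.range (n - 2),
      (-4 * sin (Real.pi * ((z + ((u : ℂ) + 1 - bt n)) * (1 + 0) / (M : ℂ))) ^ 2)) =
      (-1) ^ n * Wd M (n - 2) v ^ 2 := by
    have h8 : ∀ u ∈ Finset.range (n - 2),
        (-4 * sin (Real.pi * ((z + ((u : ℂ) + 1 - bt n)) * (1 + 0) / (M : ℂ))) ^ 2) =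
        (-1) * (2 * cos (Real.pi * (v + ((u : ℂ) + 1 / 2 - ((n - 2 : ℕ) : ℂ) / 2) / M))) ^ 2 := by
      intro u _
      rw [h3]
      have e1 : ((u : ℂ) + 1 - bt n) = (u : ℂ) + 1 / 2 - ((n - 2 : ℕ) : ℂ) / 2 := by
        rw [NodeL08_bt, Nat.cast_sub hn]
        push_cast
        ring
      rw [e1]
      ring
    rw [Finset.prod_congr rfl h8, Finset.prod_mul_distrib, Finset.prod_const,
      Finset.card_range, Wd, Finset.prod_pow]
    congr 1
    obtain ⟨k, rfl⟩ : ∃ k, n = k + 2 := ⟨n - 2, by omega⟩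
    rw [Nat.add_sub_cancel, pow_add]
    norm_num
  have h6 : (∏ i ∈ Finset.range (n - 2 * h),
      (2 * sin (Real.pi * ((z + ((h : ℂ) + i - bt n)) * (1 + 0) / (M : ℂ))))) =
      Wd M (n - 2 * h) v := by
    rw [Wd]
    refine Finset.prod_congr rfl fun i _ => ?_
    rw [h3]
    have e1 : ((h : ℂ) + i - bt n) = (i : ℂ) + 1 / 2 - ((n - 2 * h : ℕ) : ℂ) / 2 := by
      rw [NodeL08_bt, Nat.cast_sub hh]
      push_cast
      ring
    rw [e1]
  have h7 : ∀ j ∈ A, (∏ i ∈ Finset.range (t j),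
      (-4 * (sin (Real.pi * ((z + (i + bt n)) * (1 + 0) / (M : ℂ))) *
        sin (Real.pi * ((z - (i + bt n)) * (1 + 0) / (M : ℂ)))))) =
      ((-1) ^ (t j) * (M : ℂ)) * q4 M (dd n h false) (M + 1 - n - (M + 1 - n - t j)) v := by
    intro j hj
    have e1 : M + 1 - n - (M + 1 - n - t j) = t j := by
      have := ht j hj
      omega
    have e2 : ((dd n h false : ℕ) : ℂ) = (n : ℂ) - 2 := by
      rw [dd, if_neg (by simp), Nat.cast_sub hn]
      push_cast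
      ring
    have h8 : ∀ i ∈ Finset.range (t j),
        (-4 * (sin (Real.pi * ((z + (i + bt n)) * (1 + 0) / (M : ℂ))) *
        sin (Real.pi * ((z - (i + bt n)) * (1 + 0) / (M : ℂ))))) =
        (-1) * (4 * (cos (Real.pi * (v + ((i : ℂ) + ((n : ℂ) - 2 + 1) / 2) / M)) *
          cos (Real.pi * (v - ((i : ℂ) + ((n : ℂ) - 2 + 1) / 2) / M)))) := by
      intro i _
      rw [h3, h4, NodeL08_bt]
      have e3 : (i : ℂ) + ((n : ℂ) - 1) / 2 = (i : ℂ) + ((n : ℂ) - 2 + 1) / 2 := by ring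
      rw [e3]
      ring
    rw [e1, q4, e2, Finset.prod_congr rfl h8, Finset.prod_mul_distrib, Finset.prod_const,
      Finset.card_range, mul_assoc ((-1 : ℂ) ^ (t j)), ← mul_assoc (M : ℂ),
      mul_one_div_cancel h0, one_mul]
  rw [R_NodeA_T, NT4, pre, if_neg (by simp)]
  simp only
  rw [h1, h2, h5, h6, Finset.prod_congr rfl h7, Finset.prod_mul_distrib]
  ring

theorem R_NodeA_NT_diff (r : ℝ) (n h M : ℕ) (s : ℕ) (A : Finset (Fin m)) (k : Fin m → ℕ) :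
    Differentiable ℂ (NT4 r n h M false s A k) := by
  unfold NT4 pre Wd q4
  simp only [Bool.false_eq_true, if_false]
  fun_prop

theorem R_NodeA_deriv (b : ℤ) (n h M s : ℕ) (hM : 0 < M) (hn : 2 ≤ n) (hh : 2 * h ≤ n)
    (A : Finset (Fin m)) (t : Fin m → ℕ) (ht : ∀ j ∈ A, t j + n ≤ M + 1) (z : ℂ) :
    deriv (fun z => R_NodeA_T b n h M s A t (0, z)) z =
      -((-1) ^ n * exp (-(b * (Real.pi * I * M / 4))) * (∏ j ∈ A, (-1) ^ (t j) * (M : ℂ)) *
        (deriv (NT4 ((b : ℝ) / 2) n h M false s A (fun j => M + 1 - n - t j)) (z / M - 1 / 2) *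
          (1 / M))) := by
  have e : (fun z => R_NodeA_T b n h M s A t (0, z)) = fun z =>
      -((-1) ^ n * exp (-(b * (Real.pi * I * M / 4))) * (∏ j ∈ A, (-1) ^ (t j) * (M : ℂ)) *
        NT4 ((b : ℝ) / 2) n h M false s A (fun j => M + 1 - n - t j) (z / M - 1 / 2)) :=
    funext fun z => R_NodeA_T0 b n h M s hM hn hh A t ht z
  rw [e]
  have h1 : HasDerivAt (fun z : ℂ => z / (M : ℂ) - 1 / 2) (1 / M) z :=
    ((hasDerivAt_id z).div_const (M : ℂ)).sub_const (1 / 2)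
  have h2 := (R_NodeA_NT_diff ((b : ℝ) / 2) n h M s A (fun j => M + 1 - n - t j)
    (z / M - 1 / 2)).hasDerivAt
  have h3 := HasDerivAt.comp z h2 h1
  exact ((h3.const_mul ((-1) ^ n * exp (-(b * (Real.pi * I * M / 4))) *
    (∏ j ∈ A, (-1) ^ (t j) * (M : ℂ)))).neg).deriv

/-! ### The correction factors -/

/-- The correction factor of one step. -/
noncomputable def R_NodeA_r (τ α β e : ℂ) : ℂ :=
  (sin (Real.pi * (τ * e + α * (1 + e))) * sin (Real.pi * (β * (1 + e)))) /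
    (sin (Real.pi * (-τ * e + β * (1 + e))) * sin (Real.pi * (α * (1 + e))))

/-- Its logarithmic derivative. -/
noncomputable def R_NodeA_d (τ α β : ℂ) : ℂ :=
  Real.pi * τ * (cos (Real.pi * α) / sin (Real.pi * α) + cos (Real.pi * β) / sin (Real.pi * β))

theorem R_NodeA_r_zero (τ α β : ℂ) (hα : sin (Real.pi * α) ≠ 0) (hβ : sin (Real.pi * β) ≠ 0) :
    R_NodeA_r τ α β 0 = 1 := by
  rw [R_NodeA_r]
  simp only [mul_zero, zero_add, add_zero, mul_one]
  field_simp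

theorem R_NodeA_r_deriv (τ α β : ℂ) (hα : sin (Real.pi * α) ≠ 0) (hβ : sin (Real.pi * β) ≠ 0) :
    HasDerivAt (R_NodeA_r τ α β) (R_NodeA_d τ α β) 0 := by
  have hs : ∀ ρ y : ℂ, HasDerivAt (fun e : ℂ => sin (Real.pi * (ρ * e + y * (1 + e))))
      (cos (Real.pi * y) * (Real.pi * (ρ + y))) 0 := by
    intro ρ y
    have h1 : HasDerivAt (fun e : ℂ => (Real.pi : ℂ) * (ρ * e + y * (1 + e)))
        (Real.pi * (ρ * 1 + y * 1)) 0 :=
      (((hasDerivAt_id (0 : ℂ)).const_mul ρ).add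
        (((hasDerivAt_id (0 : ℂ)).const_add 1).const_mul y)).const_mul (Real.pi : ℂ)
    have h2 := h1.csin
    refine h2.congr_deriv ?_
    simp
  have hs' : ∀ y : ℂ, HasDerivAt (fun e : ℂ => sin (Real.pi * (y * (1 + e))))
      (cos (Real.pi * y) * (Real.pi * y)) 0 := by
    intro y
    have h1 := hs 0 y
    simpa using h1
  have h1 := ((hs τ α).mul (hs' β)).div ((hs (-τ) β).mul (hs' α)) (by
    simp only [Pi.mul_apply, mul_zero, zero_add, add_zero, mul_one]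
    exact mul_ne_zero hβ hα)
  refine h1.congr_deriv ?_
  simp only [Pi.mul_apply, mul_zero, zero_add, add_zero, mul_one]
  rw [R_NodeA_d]
  field_simp
  ring

/-- The product of the correction factors. -/
noncomputable def R_NodeA_G (n h M : ℕ) (τ : ℂ) (l : ℕ) (e : ℂ) : ℂ :=
  ∏ i ∈ Finset.range l, R_NodeA_r τ (((n : ℂ) - h + i) / M) (((h : ℂ) + i) / M) e

/-- Its derivative. -/
noncomputable def R_NodeA_G' (n h M : ℕ) (τ : ℂ) (l : ℕ) : ℂ :=
  ∑ i ∈ Finset.range l, R_NodeA_d τ (((n : ℂ) - h + i) / M) (((h : ℂ) + i) / M)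

theorem R_NodeA_sin_ne (M k : ℕ) (h1 : 1 ≤ k) (h2 : k < M) (z : ℂ) (hz : z = (k : ℂ) / M) :
    sin (Real.pi * z) ≠ 0 := by
  subst hz
  have h := sg_pos h1 h2
  rw [sg] at h
  have h3 : Real.sin (Real.pi * k / M) ≠ 0 := by
    intro h0
    rw [h0] at h
    simp at h
  have h4 : ((Real.sin (Real.pi * k / M) : ℝ) : ℂ) ≠ 0 := by exact_mod_cast h3
  rw [Complex.ofReal_sin] at h4
  push_cast at h4
  rwa [mul_div_assoc] at h4

theorem R_NodeA_G_zero (n h M : ℕ) (τ : ℂ) (h1 : 1 ≤ h) (h2 : 2 * h ≤ n) (l : ℕ)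
    (hl : l + n ≤ M + 1) : R_NodeA_G n h M τ l 0 = 1 := by
  rw [R_NodeA_G]
  refine Finset.prod_eq_one fun i hi => ?_
  have hi' := Finset.mem_range.1 hi
  refine R_NodeA_r_zero _ _ _ ?_ ?_
  · refine R_NodeA_sin_ne M (n - h + i) (by omega) (by omega) _ ?_
    rw [Nat.cast_add, Nat.cast_sub (by omega)]
  · refine R_NodeA_sin_ne M (h + i) (by omega) (by omega) _ ?_
    rw [Nat.cast_add]

theorem R_NodeA_G_deriv (n h M : ℕ) (τ : ℂ) (h1 : 1 ≤ h) (h2 : 2 * h ≤ n) (l : ℕ)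
    (hl : l + n ≤ M + 1) : HasDerivAt (R_NodeA_G n h M τ l) (R_NodeA_G' n h M τ l) 0 := by
  induction l with
  | zero =>
    have e1 : R_NodeA_G n h M τ 0 = fun _ => 1 := by
      funext e
      simp [R_NodeA_G]
    have e2 : R_NodeA_G' n h M τ 0 = 0 := by simp [R_NodeA_G']
    rw [e1, e2]
    exact hasDerivAt_const _ _
  | succ l ih =>
    have e1 : R_NodeA_G n h M τ (l + 1) = fun e => R_NodeA_G n h M τ l e *
        R_NodeA_r τ (((n : ℂ) - h + l) / M) (((h : ℂ) + l) / M) e := by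
      funext e
      rw [R_NodeA_G, Finset.prod_range_succ, ← R_NodeA_G]
    have e2 : R_NodeA_G' n h M τ (l + 1) = R_NodeA_G' n h M τ l +
        R_NodeA_d τ (((n : ℂ) - h + l) / M) (((h : ℂ) + l) / M) := by
      rw [R_NodeA_G', Finset.sum_range_succ, ← R_NodeA_G']
    have s1 : sin (Real.pi * (((n : ℂ) - h + l) / M)) ≠ 0 := by
      refine R_NodeA_sin_ne M (n - h + l) (by omega) (by omega) _ ?_
      rw [Nat.cast_add, Nat.cast_sub (by omega)]
    have s2 : sin (Real.pi * (((h : ℂ) + l) / M)) ≠ 0 := by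
      refine R_NodeA_sin_ne M (h + l) (by omega) (by omega) _ ?_
      rw [Nat.cast_add]
    rw [e1, e2]
    have h3 := (ih (by omega)).mul (R_NodeA_r_deriv τ _ _ s1 s2)
    refine h3.congr_deriv ?_
    rw [R_NodeA_r_zero τ _ _ s1 s2, R_NodeA_G_zero n h M τ h1 h2 l (by omega)]
    ring

theorem R_NodeA_d_symm (τ α β α' β' : ℂ) (h1 : α' = 1 - β) (h2 : β' = 1 - α) :
    R_NodeA_d τ α' β' = -R_NodeA_d τ α β := by
  have hs : ∀ y : ℂ, sin (Real.pi * (1 - y)) = sin (Real.pi * y) := by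
    intro y
    rw [← Complex.sin_pi_sub]
    congr 1
    ring
  have hc : ∀ y : ℂ, cos (Real.pi * (1 - y)) = -cos (Real.pi * y) := by
    intro y
    rw [← Complex.cos_pi_sub]
    congr 1
    ring
  rw [R_NodeA_d, R_NodeA_d, h1, h2, hs, hs, hc, hc]
  ring

theorem R_NodeA_G'_symm (n h M : ℕ) (τ : ℂ) (hM : 0 < M) (l : ℕ) (hl : l + n ≤ M + 1) :
    R_NodeA_G' n h M τ (M + 1 - n - l) = R_NodeA_G' n h M τ l := by
  have h0 := NodeL08_M M hM
  obtain ⟨k, hk⟩ : ∃ k, M + 1 = n + l + k := ⟨M + 1 - n - l, by omega⟩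
  have hk' : M + 1 - n - l = k := by omega
  rw [hk']
  have hMc : (M : ℂ) = n + l + k - 1 := by
    have : ((M + 1 : ℕ) : ℂ) = ((n + l + k : ℕ) : ℂ) := by rw [hk]
    push_cast at this
    linear_combination this
  -- the reflected sum
  have hr : ∀ p q : ℕ, M + 1 = n + p + q →
      ∑ i ∈ Finset.range p, R_NodeA_d τ (((n : ℂ) - h + ((q + i : ℕ) : ℂ)) / M)
        (((h : ℂ) + ((q + i : ℕ) : ℂ)) / M) = -R_NodeA_G' n h M τ p := by
    intro p q hpq
    have hMc : (M : ℂ) = n + p + q - 1 := by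
      have : ((M + 1 : ℕ) : ℂ) = ((n + p + q : ℕ) : ℂ) := by rw [hpq]
      push_cast at this
      linear_combination this
    rw [R_NodeA_G', ← Finset.sum_neg_distrib, ← Finset.sum_range_reflect]
    refine Finset.sum_congr rfl fun i hi => ?_
    have hi' := Finset.mem_range.1 hi
    have e1 : ((q + (p - 1 - i) : ℕ) : ℂ) = q + p - 1 - i := by
      rw [Nat.cast_add, show p - 1 - i = p - (1 + i) by omega, Nat.cast_sub (by omega)]
      push_cast
      ring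
    refine R_NodeA_d_symm _ _ _ _ _ ?_ ?_
    · rw [e1]
      field_simp
      rw [hMc]
      ring
    · rw [e1]
      field_simp
      rw [hMc]
      ring
  have htot : ∀ p q : ℕ, M + 1 = n + p + q → R_NodeA_G' n h M τ (p + q) =
      R_NodeA_G' n h M τ q - R_NodeA_G' n h M τ p := by
    intro p q hpq
    have h1 : R_NodeA_G' n h M τ (p + q) = R_NodeA_G' n h M τ q +
        ∑ i ∈ Finset.range p, R_NodeA_d τ (((n : ℂ) - h + ((q + i : ℕ) : ℂ)) / M)
        (((h : ℂ) + ((q + i : ℕ) : ℂ)) / M) := by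
      rw [R_NodeA_G', add_comm p q, Finset.sum_range_add, ← R_NodeA_G']
    rw [h1, hr p q hpq]
    ring
  have t1 := htot l k hk
  have t2 := htot k l (by omega)
  rw [add_comm k l] at t2
  have t3 := t1.symm.trans t2
  linear_combination (1 / 2 : ℂ) * t3

/-! ### The sum of the amplitudes -/

/-- The sum of the amplitudes. -/
noncomputable def R_NodeA_H (b : ℤ) (n h M s : ℕ) (τ : ℂ) (A : Finset (Fin m)) (t : Fin m → ℕ)
    (e : ℂ) : ℂ :=
  ∑ X ∈ Finset.range (M + 2 - n), R_NodeA_G n h M τ X e ^ s *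
    R_NodeA_T b n h M s A t (e, (X : ℂ) + bt n)

theorem R_NodeA_vl (n M X : ℕ) : ((vl (nn n false) M X : ℝ) : ℂ) =
    ((X : ℂ) + bt n) / M - 1 / 2 := by
  rw [vl, nn, if_neg (by simp)]
  push_cast
  ring

theorem R_NodeA_main (b : ℤ) (n h M s : ℕ) (hn : 2 ≤ n) (hM : n ≤ M) (h1 : 1 ≤ h)
    (hh : 2 * h ≤ n) (τ : ℂ) (A : Finset (Fin m)) (t : Fin m → ℕ)
    (ht : ∀ j ∈ A, t j + n ≤ M + 1) :
    R_NodeA_H b n h M s τ A t 0 = 0 ∧
    HasDerivAt (R_NodeA_H b n h M s τ A t)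
      (-(1 / 2) * ((-1) ^ n * exp (-(b * (Real.pi * I * M / 4))) *
        (∏ j ∈ A, (-1) ^ (t j) * (M : ℂ)) *
        DG4 ((b : ℝ) / 2) n h M false s A (fun j => M + 1 - n - t j))) 0 := by
  have hM0 : 0 < M := by omega
  have h0 := NodeL08_M M hM0
  have key := node_abs M hM0 (Finset.range (M + 2 - n)) (fun j => M + 1 - n - j)
    (fun i hi => by rw [Finset.mem_range] at hi ⊢; omega)
    (fun i hi => by rw [Finset.mem_range] at hi; show M + 1 - n - (M + 1 - n - i) = i; omega)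
    (fun j => (j : ℂ) + bt n)
    (fun i hi => by
      rw [Finset.mem_range] at hi
      show ((M + 1 - n - i : ℕ) : ℂ) + bt n = M - ((i : ℂ) + bt n)
      rw [show M + 1 - n - i = M + 1 - (n + i) by omega, Nat.cast_sub (by omega), NodeL08_bt]
      push_cast
      ring)
    (R_NodeA_T b n h M s A t)
    (fun i _ => R_NodeA_T_diff b n h M s A t _)
    (by
      have : ∀ᶠ e in 𝓝 (0 : ℂ), 1 + e ≠ 0 := by
        have hc : ContinuousAt (fun e : ℂ => 1 + e) 0 := by fun_prop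
        exact hc.eventually_ne (by norm_num)
      filter_upwards [this] with e he z
      exact R_NodeA_reflect b n h M s hM0 hh A t e z he)
    (fun l e => R_NodeA_G n h M τ l e ^ s) (fun l => s * R_NodeA_G' n h M τ l)
    (fun i hi => by
      rw [Finset.mem_range] at hi
      have h3 := (R_NodeA_G_deriv n h M τ h1 hh i (by omega)).pow s
      refine h3.congr_deriv ?_
      rw [R_NodeA_G_zero n h M τ h1 hh i (by omega), one_pow, mul_one])
    (fun i hi => by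
      rw [Finset.mem_range] at hi
      show R_NodeA_G n h M τ i 0 ^ s = 1
      rw [R_NodeA_G_zero n h M τ h1 hh i (by omega), one_pow])
    (fun i hi => by
      rw [Finset.mem_range] at hi
      show (s : ℂ) * R_NodeA_G' n h M τ (M + 1 - n - i) = s * R_NodeA_G' n h M τ i
      rw [R_NodeA_G'_symm n h M τ hM0 i (by omega)])
  obtain ⟨k1, k2⟩ := key
  refine ⟨k1, k2.congr_deriv ?_⟩
  rw [DG4, Finset.mul_sum, Finset.mul_sum, Finset.mul_sum]
  have hr : M + 2 - nn n false = M + 2 - n := by rw [nn, if_neg (by simp)]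
  rw [hr]
  refine Finset.sum_congr rfl fun X _ => ?_
  rw [R_NodeA_deriv b n h M s hM0 hn hh A t ht, R_NodeA_vl n]
  field_simp

/-! ### The terms for a generic `q` -/

theorem R_NodeA_br (M : ℕ) (hM : 0 < M) (e : ℂ) (k : ℤ) (y τ : ℂ) (hτ : τ = 1 ∨ τ = -1)
    (hk : (k : ℂ) = τ * M + y) : br (NodeL08_Q M e) k =
      -(2 * I * sin (Real.pi * (τ * e + y / M * (1 + e)))) := by
  have h := NodeL08_M M hM
  rw [NodeL08_br, hk]
  rcases hτ with rfl | rfl
  · have h1 : (Real.pi : ℂ) * ((1 * (M : ℂ) + y) * (1 + e) / (M : ℂ)) =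
        Real.pi * (1 * e + y / M * (1 + e)) + Real.pi := by
      field_simp
      ring
    rw [h1, Complex.sin_add_pi]
    ring
  · have h1 : (Real.pi : ℂ) * ((-1 * (M : ℂ) + y) * (1 + e) / (M : ℂ)) =
        Real.pi * (-1 * e + y / M * (1 + e)) - Real.pi := by
      field_simp
      ring
    rw [h1, Complex.sin_sub_pi]
    ring

/-- The half twist. -/
theorem R_NodeA_tw (M n : ℕ) (hM : 0 < M) (e : ℂ) (b : ℤ) (X : ℕ) :
    twA (NodeL08_Q M e) n X ^ b =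
      exp (b * (Real.pi * I * (1 + e) / (M : ℂ) * ((X : ℂ) + bt n) ^ 2 -
        Real.pi * I * ((X : ℂ) + bt n))) *
      exp (b * (Real.pi * I * bt n - Real.pi * I * (1 + e) / (M : ℂ) * (bt n : ℂ) ^ 2)) := by
  have h := NodeL08_M M hM
  have h1 : (-1 : ℂ) ^ X = exp (-(X * (Real.pi * I))) := by
    rw [Complex.exp_neg, Complex.exp_nat_mul, Complex.exp_pi_mul_I, ← inv_pow]
    norm_num
  rw [twA, NodeL08_zpow, h1, ← Complex.exp_add, ← Complex.exp_int_mul, ← Complex.exp_add,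
    NodeL08_bt]
  congr 1
  push_cast
  field_simp
  ring

/-- The telescoping product. -/
theorem R_NodeA_tel (q : ℂ) (n h M X : ℕ) (hh : 2 * h ≤ n) (h1 : 1 ≤ h)
    (hX : X + n ≤ M + 1) (hq : ∀ i : ℕ, 1 ≤ i → i < M → br q i ≠ 0) :
    ∏ i ∈ Finset.range X, (br q ((n : ℤ) - h + i) / br q ((h : ℤ) + i)) =
      (∏ i ∈ Finset.range (n - 2 * h), br q ((X : ℤ) + h + i)) /
        ∏ i ∈ Finset.range (n - 2 * h), br q ((h : ℤ) + i) := by
  have e1 : ∏ i ∈ Finset.range X, br q ((h : ℤ) + i) ≠ 0 := by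
    refine Finset.prod_ne_zero_iff.2 fun i hi => ?_
    have hi' := Finset.mem_range.1 hi
    have := hq (h + i) (by omega) (by omega)
    push_cast at this
    exact this
  have e2 : ∏ i ∈ Finset.range (n - 2 * h), br q ((h : ℤ) + i) ≠ 0 := by
    refine Finset.prod_ne_zero_iff.2 fun i hi => ?_
    have hi' := Finset.mem_range.1 hi
    have := hq (h + i) (by omega) (by omega)
    push_cast at this
    exact this
  rw [Finset.prod_div_distrib, div_eq_div_iff e1 e2]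
  have h2 := Finset.prod_range_add (fun i : ℕ => br q ((h : ℤ) + i)) (n - 2 * h) X
  have h3 := Finset.prod_range_add (fun i : ℕ => br q ((h : ℤ) + i)) X (n - 2 * h)
  have h4 : ∏ i ∈ Finset.range X, br q ((n : ℤ) - h + i) =
      ∏ i ∈ Finset.range X, br q ((h : ℤ) + ((n - 2 * h + i : ℕ) : ℤ)) := by
    refine Finset.prod_congr rfl fun i _ => ?_
    congr 1
    omega
  have h5 : ∏ i ∈ Finset.range (n - 2 * h), br q ((X : ℤ) + h + i) =
      ∏ i ∈ Finset.range (n - 2 * h), br q ((h : ℤ) + ((X + i : ℕ) : ℤ)) := by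
    refine Finset.prod_congr rfl fun i _ => ?_
    congr 1
    push_cast
    ring
  rw [h4, h5, mul_comm, ← h2, add_comm, h3, mul_comm]

/-- The factor of an adjacent node of parallel strands. -/
theorem R_NodeA_Ca (n h M X : ℕ) (hM : 0 < M) (hh : 2 * h ≤ n) (h1 : 1 ≤ h)
    (hX : X + n ≤ M + 1) {τ : ℂ} {a : ℤ} (hτ : τ = 1 ∨ τ = -1)
    (hac : (a : ℂ) = τ * (M : ℂ) + ((n : ℂ) - h)) (e : ℂ)
    (hq : ∀ i : ℕ, 1 ≤ i → i < M → br (NodeL08_Q M e) i ≠ 0) :
    Ca n a (NodeL08_Q M e) X = R_NodeA_G n h M τ X e *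
      ((∏ i ∈ Finset.range (n - 2 * h), (2 * sin (Real.pi * ((((X : ℂ) + bt n) +
        ((h : ℂ) + i - bt n)) * (1 + e) / (M : ℂ))))) /
        ∏ i ∈ Finset.range (n - 2 * h), (2 * sin (Real.pi * (((h : ℂ) + i) / M * (1 + e))))) := by
  have hI := Complex.I_ne_zero
  have hτ' : -τ = 1 ∨ -τ = -1 := by
    rcases hτ with rfl | rfl
    · right; rfl
    · left; simp
  have g1 : ∀ (k : ℤ) (y : ℂ), (k : ℂ) = y →
      br (NodeL08_Q M e) k = 2 * I * sin (Real.pi * (y / M * (1 + e))) := by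
    intro k y hk
    rw [NodeL08_br, hk]
    congr 3
    ring
  have h2 : ∀ i ∈ Finset.range X, br (NodeL08_Q M e) (a + i) / br (NodeL08_Q M e) ((n : ℤ) - a + i) =
      R_NodeA_r τ (((n : ℂ) - h + i) / M) (((h : ℂ) + i) / M) e *
        (br (NodeL08_Q M e) ((n : ℤ) - h + i) / br (NodeL08_Q M e) ((h : ℤ) + i)) := by
    intro i hi
    have hi' := Finset.mem_range.1 hi
    have n1 : br (NodeL08_Q M e) ((n : ℤ) - h + i) ≠ 0 := by
      have := hq (n - h + i) (by omega) (by omega)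
      rwa [show ((n - h + i : ℕ) : ℤ) = (n : ℤ) - h + i by omega] at this
    have n2 : br (NodeL08_Q M e) ((h : ℤ) + i) ≠ 0 := by
      have := hq (h + i) (by omega) (by omega)
      rwa [show ((h + i : ℕ) : ℤ) = (h : ℤ) + i by omega] at this
    rw [g1 ((n : ℤ) - h + i) ((n : ℂ) - h + i) (by push_cast; ring)] at n1 ⊢
    rw [g1 ((h : ℤ) + i) ((h : ℂ) + i) (by push_cast; ring)] at n2 ⊢
    rw [R_NodeA_br M hM e (a + i) ((n : ℂ) - h + i) τ hτ (by push_cast; rw [hac]; ring),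
      R_NodeA_br M hM e ((n : ℤ) - a + i) ((h : ℂ) + i) (-τ) hτ' (by push_cast; rw [hac]; ring),
      R_NodeA_r]
    have n3 : sin (Real.pi * (((n : ℂ) - h + i) / M * (1 + e))) ≠ 0 :=
      fun h0 => n1 (by rw [h0, mul_zero])
    have n4 : sin (Real.pi * (((h : ℂ) + i) / M * (1 + e))) ≠ 0 :=
      fun h0 => n2 (by rw [h0, mul_zero])
    generalize sin (Real.pi * (((n : ℂ) - h + i) / M * (1 + e))) = w1 at *
    generalize sin (Real.pi * (((h : ℂ) + i) / M * (1 + e))) = w2 at *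
    generalize sin (Real.pi * (τ * e + ((n : ℂ) - h + i) / M * (1 + e))) = w3 at *
    generalize sin (Real.pi * (-τ * e + ((h : ℂ) + i) / M * (1 + e))) = w4
    by_cases hw : w4 = 0
    · rw [hw]
      simp
    · field_simp
  have h3 : ∏ i ∈ Finset.range (n - 2 * h), br (NodeL08_Q M e) ((X : ℤ) + h + i) =
      I ^ (n - 2 * h) * ∏ i ∈ Finset.range (n - 2 * h), (2 * sin (Real.pi * ((((X : ℂ) + bt n) +
        ((h : ℂ) + i - bt n)) * (1 + e) / (M : ℂ)))) := by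
    have : I ^ (n - 2 * h) = ∏ _i ∈ Finset.range (n - 2 * h), I := by
      rw [Finset.prod_const, Finset.card_range]
    rw [this, ← Finset.prod_mul_distrib]
    refine Finset.prod_congr rfl fun i _ => ?_
    rw [NodeL08_br, show (((X : ℤ) + h + i : ℤ) : ℂ) = ((X : ℂ) + bt n) +
        ((h : ℂ) + i - bt n) by push_cast; ring]
    ring
  have h4 : ∏ i ∈ Finset.range (n - 2 * h), br (NodeL08_Q M e) ((h : ℤ) + i) =
      I ^ (n - 2 * h) * ∏ i ∈ Finset.range (n - 2 * h),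
        (2 * sin (Real.pi * (((h : ℂ) + i) / M * (1 + e)))) := by
    have : I ^ (n - 2 * h) = ∏ _i ∈ Finset.range (n - 2 * h), I := by
      rw [Finset.prod_const, Finset.card_range]
    rw [this, ← Finset.prod_mul_distrib]
    refine Finset.prod_congr rfl fun i _ => ?_
    rw [g1 ((h : ℤ) + i) ((h : ℂ) + i) (by push_cast; ring)]
    ring
  rw [Ca, Finset.prod_congr rfl h2, Finset.prod_mul_distrib, R_NodeA_tel _ n h M X hh h1 hX hq,
    h3, h4, ← R_NodeA_G, mul_div_mul_left _ _ (pow_ne_zero _ hI)]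

/-- The denominators. -/
noncomputable def R_NodeA_D (n h M : ℕ) (e : ℂ) : ℂ :=
  ∏ i ∈ Finset.range (n - 2 * h), (2 * sin (Real.pi * (((h : ℂ) + i) / M * (1 + e))))

/-- A term. -/
theorem R_NodeA_term (b : ℤ) (n h M s X : ℕ) (hM : 0 < M) (hh : 2 * h ≤ n) (h1 : 1 ≤ h)
    (hX : X + n ≤ M + 1) {τ : ℂ} {a : ℤ} (hτ : τ = 1 ∨ τ = -1)
    (hac : (a : ℂ) = τ * (M : ℂ) + ((n : ℂ) - h)) (e : ℂ)
    (hq : ∀ i : ℕ, 1 ≤ i → i < M → br (NodeL08_Q M e) i ≠ 0)
    (A : Finset (Fin m)) (t : Fin m → ℕ) :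
    br (NodeL08_Q M e) ((n : ℤ) + 2 * X - 1) *
      (∏ u ∈ Finset.range (n - 2), br (NodeL08_Q M e) ((X : ℤ) + u + 1) ^ 2) *
      twA (NodeL08_Q M e) n X ^ b * (Ca n a (NodeL08_Q M e) X ^ s *
      ∏ j ∈ A, pa (NodeL08_Q M e) n (t j) X) =
    I * exp (b * (Real.pi * I * bt n - Real.pi * I * (1 + e) / (M : ℂ) * (bt n : ℂ) ^ 2)) *
      (R_NodeA_D n h M e ^ s)⁻¹ *
      (R_NodeA_G n h M τ X e ^ s * R_NodeA_T b n h M s A t (e, (X : ℂ) + bt n)) := by
  have hI := Complex.I_mul_I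
  have g1 : br (NodeL08_Q M e) ((n : ℤ) + 2 * X - 1) =
      I * (2 * sin (2 * Real.pi * (((X : ℂ) + bt n) * (1 + e) / (M : ℂ)))) := by
    rw [NodeL08_br]
    have e1 : (Real.pi : ℂ) * ((((n : ℤ) + 2 * X - 1 : ℤ) : ℂ) * (1 + e) / (M : ℂ)) =
        2 * Real.pi * (((X : ℂ) + bt n) * (1 + e) / (M : ℂ)) := by
      rw [NodeL08_bt]
      push_cast
      ring
    rw [e1]
    ring
  have g2 : ∀ u ∈ Finset.range (n - 2), br (NodeL08_Q M e) ((X : ℤ) + u + 1) ^ 2 =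
      -4 * sin (Real.pi * ((((X : ℂ) + bt n) + ((u : ℂ) + 1 - bt n)) * (1 + e) /
        (M : ℂ))) ^ 2 := by
    intro u _
    rw [NodeL08_br, show (((X : ℤ) + u + 1 : ℤ) : ℂ) = ((X : ℂ) + bt n) +
      ((u : ℂ) + 1 - bt n) by push_cast; ring]
    linear_combination (4 * sin (Real.pi * ((((X : ℂ) + bt n) + ((u : ℂ) + 1 - bt n)) *
      (1 + e) / (M : ℂ))) ^ 2) * hI
  have g3 : ∀ j ∈ A, pa (NodeL08_Q M e) n (t j) X = ∏ i ∈ Finset.range (t j),
      (-4 * (sin (Real.pi * ((((X : ℂ) + bt n) + (i + bt n)) * (1 + e) / (M : ℂ))) *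
        sin (Real.pi * ((((X : ℂ) + bt n) - (i + bt n)) * (1 + e) / (M : ℂ))))) := by
    intro j _
    rw [pa]
    refine Finset.prod_congr rfl fun i _ => ?_
    rw [NodeL08_br, NodeL08_br, show (((n : ℤ) + X + i - 1 : ℤ) : ℂ) = ((X : ℂ) + bt n) +
      (i + bt n) by rw [NodeL08_bt]; push_cast; ring,
      show (((X : ℤ) - i : ℤ) : ℂ) = ((X : ℂ) + bt n) - (i + bt n) by push_cast; ring]
    linear_combination (4 * sin (Real.pi * ((((X : ℂ) + bt n) + (i + bt n)) * (1 + e) /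
      (M : ℂ))) * sin (Real.pi * ((((X : ℂ) + bt n) - (i + bt n)) * (1 + e) / (M : ℂ)))) * hI
  rw [g1, Finset.prod_congr rfl g2, Finset.prod_congr rfl g3, R_NodeA_tw M n hM,
    R_NodeA_Ca n h M X hM hh h1 hX hτ hac e hq, R_NodeA_T, R_NodeA_D, mul_pow, div_pow]
  simp only [div_eq_mul_inv]
  ring

/-- The factor for a generic `q`. -/
theorem R_NodeA_NF (b : ℤ) (n h N M s : ℕ) (hn : 2 ≤ n) (hM : n ≤ M) (hM2 : 2 < M)
    (hh : 2 * h ≤ n) (h1 : 1 ≤ h)
    {τ : ℂ} {a : ℤ} (hτ : τ = 1 ∨ τ = -1) (hac : (a : ℂ) = τ * (M : ℂ) + ((n : ℂ) - h))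
    (A : Finset (Fin m)) (t : Fin m → ℕ) (q : ℂ) (hq0 : q ≠ 0)
    (hq : ∀ i ∈ Finset.Icc 1 (M + 1), br q ((i : ℕ) : ℤ) ≠ 0) :
    NF4 n N (M + 1 - n) a q false b s A t =
      R_NodeA_H b n h M s τ A t (NodeL08_E M q) / br q (M : ℤ) *
      ((I * exp (b * (Real.pi * I * bt n - Real.pi * I * (1 + NodeL08_E M q) / (M : ℂ) *
        (bt n : ℂ) ^ 2)) * (R_NodeA_D n h M (NodeL08_E M q) ^ s)⁻¹) *
        (br q ((n : ℤ) - 1) * (∏ u ∈ Finset.range (n - 2), br q ((u : ℤ) + 1) ^ 2) *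
          (dimS n N q / br q (M : ℤ)))⁻¹) := by
  have hM0 : 0 < M := by omega
  have hQ := NodeL08_QE M hM0 q hq0
  have hqM : br q (M : ℤ) ≠ 0 := hq M (Finset.mem_Icc.2 ⟨by omega, by omega⟩)
  have h2 : ∀ X ∈ Finset.range (M + 1 - n + 1), vw n q N false b X *
      ((if (false : Bool) then (1 : ℂ) else Ca n a q X ^ s) * ∏ j ∈ A, sl4 n a q false (t j) X) =
      (R_NodeA_G n h M τ X (NodeL08_E M q) ^ s *
        R_NodeA_T b n h M s A t (NodeL08_E M q, (X : ℂ) + bt n)) *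
      ((I * exp (b * (Real.pi * I * bt n - Real.pi * I * (1 + NodeL08_E M q) / (M : ℂ) *
        (bt n : ℂ) ^ 2)) * (R_NodeA_D n h M (NodeL08_E M q) ^ s)⁻¹) *
        (br q ((n : ℤ) - 1) * (∏ u ∈ Finset.range (n - 2), br q ((u : ℤ) + 1) ^ 2) *
          dimS n N q)⁻¹) := by
    intro X hX
    have hX' := Finset.mem_range.1 hX
    have k := R_NodeA_term b n h M s X hM0 hh h1 (by omega) hτ hac (NodeL08_E M q)
      (fun i hi1 hi2 => by rw [hQ]; exact hq i (Finset.mem_Icc.2 ⟨hi1, by omega⟩)) A t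
    rw [hQ] at k
    have h3 : ∏ u ∈ Finset.range (n - 2), (br q ((X : ℤ) + u + 1) / br q ((u : ℤ) + 1)) ^ 2 =
        (∏ u ∈ Finset.range (n - 2), br q ((X : ℤ) + u + 1) ^ 2) /
          ∏ u ∈ Finset.range (n - 2), br q ((u : ℤ) + 1) ^ 2 := by
      rw [← Finset.prod_div_distrib]
      exact Finset.prod_congr rfl fun u _ => div_pow _ _ _
    simp only [vw, sl4, Bool.false_eq_true, if_false]
    rw [dimA_eq n hn q X (fun i hi1 hi2 => hq i (Finset.mem_Icc.2 ⟨hi1, by omega⟩)), h3]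
    simp only [div_eq_mul_inv, mul_inv] at k ⊢
    linear_combination ((br q ((n : ℤ) - 1))⁻¹ *
      (∏ u ∈ Finset.range (n - 2), br q ((u : ℤ) + 1) ^ 2)⁻¹ * (dimS n N q)⁻¹) * k
  rw [NF4]
  simp only [Bool.false_eq_true, if_false] at h2 ⊢
  rw [Finset.sum_congr rfl h2, ← Finset.sum_mul, R_NodeA_H,
    show M + 2 - n = M + 1 - n + 1 by omega]
  simp only [div_eq_mul_inv, mul_inv, inv_inv]
  field_simp

theorem R_NodeA_D0 (n h M : ℕ) (hh : 2 * h ≤ n) (h1 : 1 ≤ h) :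
    R_NodeA_D n h M 0 * (S M (h - 1) : ℂ) = (S M (n - h - 1) : ℂ) := by
  have e1 : ∀ k : ℕ, (S M k : ℂ) = ∏ i ∈ Finset.range k, (sg M (i + 1) : ℂ) := by
    intro k
    rw [S, Finset.prod_Ico_eq_prod_range, show k + 1 - 1 = k by omega]
    push_cast
    exact Finset.prod_congr rfl fun u _ => by rw [add_comm 1 u]
  have e2 := Finset.prod_range_add (fun i : ℕ => (sg M (i + 1) : ℂ)) (h - 1) (n - 2 * h)
  rw [e1, e1, show n - h - 1 = h - 1 + (n - 2 * h) by omega, e2, R_NodeA_D, mul_comm]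
  congr 1
  refine Finset.prod_congr rfl fun i _ => ?_
  rw [sg, show h - 1 + i + 1 = h + i by omega]
  push_cast
  congr 2
  ring

/-- The constants. -/
theorem R_NodeA_const (b : ℤ) (n g N h s : ℕ) (hn : 2 ≤ n) (hg : 1 ≤ g) (hgn : g < n)
    (hN : n ≤ N) (hh : 2 * h ≤ n) (h1 : 1 ≤ h) (P D : ℂ) :
    (-(1 / 2) * ((-1) ^ n * exp (-(b * (Real.pi * I * ((N + g : ℕ) : ℂ) / 4))) * P * D)) /
        (-(2 * I * Real.pi)) *
      ((I * exp (b * (Real.pi * I * bt n - Real.pi * I * (1 + 0) / ((N + g : ℕ) : ℂ) *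
        (bt n : ℂ) ^ 2)) * (R_NodeA_D n h (N + g) 0 ^ s)⁻¹) *
        ((I * (sg (N + g) (n - 1) : ℂ)) *
        (∏ u ∈ Finset.range (n - 2), (I * (sg (N + g) (u + 1) : ℂ)) ^ 2) *
        (I * (-1) ^ (n + g) * (S (N + g) (n - g - 1) : ℂ) * (S (N + g) (g - 1) : ℂ) /
        (S (N + g) (n - 1) : ℂ)))⁻¹) =
    cst n g (N + g) false b *
        ((S (N + g) (h - 1) : ℂ) / (S (N + g) (n - h - 1) : ℂ)) ^ s * P * D := by
  have h0 := NodeL08_M (N + g) (by omega)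
  have e1 : (S (N + g) (h - 1) : ℂ) ≠ 0 := by
    exact_mod_cast (S_pos (by omega : h - 1 < N + g)).ne'
  have e2 : (S (N + g) (n - h - 1) : ℂ) ≠ 0 := by
    exact_mod_cast (S_pos (by omega : n - h - 1 < N + g)).ne'
  have hD := R_NodeA_D0 n h (N + g) hh h1
  have hD' : (R_NodeA_D n h (N + g) 0 ^ s)⁻¹ =
      ((S (N + g) (h - 1) : ℂ) / (S (N + g) (n - h - 1) : ℂ)) ^ s := by
    rw [← inv_pow, ← hD]
    congr 1
    have : R_NodeA_D n h (N + g) 0 ≠ 0 := by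
      intro h3
      rw [h3, zero_mul] at hD
      exact e2 hD.symm
    field_simp
  have hexp : exp (-((b : ℂ) * (Real.pi * I * ((N + g : ℕ) : ℂ) / 4))) *
      exp (b * (Real.pi * I * bt n - Real.pi * I * (1 + 0) / ((N + g : ℕ) : ℂ) *
        (bt n : ℂ) ^ 2)) =
      exp (b * (Real.pi * I * (bt (nn n false) - ((N + g : ℕ) : ℂ) / 4 -
        (bt (nn n false) : ℂ) ^ 2 / ((N + g : ℕ) : ℂ)))) := by
    rw [← Complex.exp_add, nn, if_neg (by simp)]
    congr 1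
    ring
  have key := NodeL08_const n g N hn hg hgn hN
    (exp (-((b : ℂ) * (Real.pi * I * ((N + g : ℕ) : ℂ) / 4))) *
      exp (b * (Real.pi * I * bt n - Real.pi * I * (1 + 0) / ((N + g : ℕ) : ℂ) *
        (bt n : ℂ) ^ 2)))
    (((S (N + g) (h - 1) : ℂ) / (S (N + g) (n - h - 1) : ℂ)) ^ s * P) D
  rw [hD', cst, ← hexp, show nn n false = n by rw [nn, if_neg (by simp)]]
  linear_combination key

theorem nodeA_lim (b : ℤ) (n g N : ℕ) (hn : 2 ≤ n) (hg : 1 ≤ g) (hgn : g < n) (hN : n ≤ N)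
    {h : ℕ} {a : ℤ} (ha : IsH n N g h a) (s : ℕ) (A : Finset (Fin m)) (t : Fin m → ℕ)
    (ht : ∀ j ∈ A, t j + n ≤ N + g + 1) :
    Tendsto (fun q => NF4 n N (N + g + 1 - n) a q false b s A t) (𝓝[≠] (q0 (N + g)))
      (𝓝 (cst n g (N + g) false b *
        ((S (N + g) (h - 1) : ℂ) / (S (N + g) (n - h - 1) : ℂ)) ^ s *
        (∏ j ∈ A, ((-1) ^ (t j) * ((N + g : ℕ) : ℂ))) *
        DG4 ((b : ℝ) / 2) n h (N + g) false s A (fun j => N + g + 1 - n - t j))) := by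
  have hM0 : 0 < N + g := by omega
  have hM := NodeL08_M (N + g) hM0
  have hpi : (Real.pi : ℂ) ≠ 0 := by exact_mod_cast Real.pi_ne_zero
  have hh : 2 * h ≤ n := by
    rcases ha with ⟨h1, h2, -⟩ | ⟨h1, h2, -⟩ <;> omega
  have hh1 : 1 ≤ h := by
    rcases ha with ⟨h1, h2, -⟩ | ⟨h1, h2, -⟩ <;> omega
  obtain ⟨τ, hτ, hac⟩ : ∃ τ : ℂ, (τ = 1 ∨ τ = -1) ∧
      (a : ℂ) = τ * ((N + g : ℕ) : ℂ) + ((n : ℂ) - h) := by
    rcases ha with ⟨h1, h2, rfl⟩ | ⟨h1, h2, rfl⟩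
    · refine ⟨1, Or.inl rfl, ?_⟩
      rw [h1]
      push_cast
      ring
    · refine ⟨-1, Or.inr rfl, ?_⟩
      rw [← h1]
      push_cast
      ring
  have hq0e : q0 (N + g) = exp (Real.pi * I / ((N + g : ℕ) : ℂ)) := rfl
  rw [hq0e]
  set ξ : ℂ := exp (Real.pi * I / ((N + g : ℕ) : ℂ)) with hξ
  have hξ0 : ξ ≠ 0 := Complex.exp_ne_zero _
  have hq0 : ∀ᶠ q in 𝓝[≠] ξ, q ≠ 0 :=
    (eventually_ne_nhds hξ0).filter_mono nhdsWithin_le_nhds
  obtain ⟨m1, m2⟩ := R_NodeA_main b n h (N + g) s hn (by omega) hh1 hh τ A t ht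
  -- the numerator
  have h1 := hasDerivAt_iff_tendsto_slope.1 m2
  have h2 : HasDerivAt (fun e : ℂ => -(2 * I * sin (Real.pi * e))) (-(2 * I * Real.pi)) 0 := by
    have := (((hasDerivAt_id (0 : ℂ)).const_mul (Real.pi : ℂ)).csin.const_mul (2 * I)).neg
    refine this.congr_deriv ?_
    simp
  have h3 := hasDerivAt_iff_tendsto_slope.1 h2
  have h4 := h1.div h3 (by simp [hpi, Complex.I_ne_zero])
  have h5 := h4.comp (NodeL08_Et (N + g) hM0)
  have h6 : Tendsto (fun q => R_NodeA_H b n h (N + g) s τ A t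
      (NodeL08_E (N + g) q) / br q ((N + g : ℕ) : ℤ)) (𝓝[≠] ξ)
      (𝓝 ((-(1 / 2) * ((-1) ^ n * exp (-(b * (Real.pi * I * ((N + g : ℕ) : ℂ) / 4))) *
        (∏ j ∈ A, (-1) ^ (t j) * ((N + g : ℕ) : ℂ)) *
        DG4 ((b : ℝ) / 2) n h (N + g) false s A (fun j => N + g + 1 - n - t j))) /
        (-(2 * I * Real.pi)))) := by
    refine h5.congr' ?_
    have h7 : ∀ᶠ q in 𝓝[≠] ξ, NodeL08_E (N + g) q ∈ ({0}ᶜ : Set ℂ) :=
      (NodeL08_Et (N + g) hM0).eventually self_mem_nhdsWithin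
    filter_upwards [hq0, h7] with q hq hE
    have he' : NodeL08_E (N + g) q ≠ 0 := hE
    have hB := NodeL08_B (N + g) hM0 (NodeL08_E (N + g) q)
    rw [NodeL08_QE (N + g) hM0 q hq] at hB
    simp only [Function.comp, Pi.div_apply, slope, vsub_eq_sub, smul_eq_mul, sub_zero,
      m1, mul_zero, Complex.sin_zero, neg_zero]
    rw [mul_div_mul_left _ _ (inv_ne_zero he'), hB]
  -- the prefactor
  have g1 : Tendsto (fun q => br q ((n : ℤ) - 1)) (𝓝[≠] ξ)
      (𝓝 (I * (sg (N + g) (n - 1) : ℂ))) := by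
    have h8 : br ξ ((n : ℤ) - 1) = I * (sg (N + g) (n - 1) : ℂ) := by
      rw [show (n : ℤ) - 1 = ((n - 1 : ℕ) : ℤ) by omega, hξ, NodeL08_br_at]
    have := NodeL08_br_cont ξ hξ0 ((n : ℤ) - 1)
    rwa [h8] at this
  have g2 : Tendsto (fun q => ∏ u ∈ Finset.range (n - 2), br q ((u : ℤ) + 1) ^ 2) (𝓝[≠] ξ)
      (𝓝 (∏ u ∈ Finset.range (n - 2), (I * (sg (N + g) (u + 1) : ℂ)) ^ 2)) := by
    refine tendsto_finsetProd _ fun u _ => ?_
    have := (NodeL08_br_cont ξ hξ0 ((u : ℤ) + 1)).pow 2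
    have h8 : br ξ ((u : ℤ) + 1) = I * (sg (N + g) (u + 1) : ℂ) := by
      have := NodeL08_br_at (N + g) (u + 1)
      rw [hξ, ← this]
      push_cast
      rfl
    rwa [h8] at this
  have g3 := dimS_lim n g N hn hg hgn hN
  have g3' : Tendsto (fun q => dimS n N q / br q ((N + g : ℕ) : ℤ)) (𝓝[≠] ξ)
      (𝓝 (I * (-1) ^ (n + g) * (S (N + g) (n - g - 1) : ℂ) * (S (N + g) (g - 1) : ℂ) /
        (S (N + g) (n - 1) : ℂ))) := by
    have h8 : ((N + g : ℕ) : ℤ) = (N : ℤ) + g := by push_cast; rfl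
    rw [h8]
    exact g3
  have hEt : Tendsto (NodeL08_E (N + g)) (𝓝[≠] ξ) (𝓝 0) :=
    (NodeL08_Et (N + g) hM0).mono_right nhdsWithin_le_nhds
  have e6 : (S (N + g) (n - h - 1) : ℂ) ≠ 0 := by
    exact_mod_cast (S_pos (by omega : n - h - 1 < N + g)).ne'
  have hD0 : R_NodeA_D n h (N + g) 0 ≠ 0 := by
    intro h3
    have hD := R_NodeA_D0 n h (N + g) hh hh1
    rw [h3, zero_mul] at hD
    exact e6 hD.symm
  have g0 : Tendsto (fun q => I * exp (b * (Real.pi * I * bt n -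
      Real.pi * I * (1 + NodeL08_E (N + g) q) / ((N + g : ℕ) : ℂ) * (bt n : ℂ) ^ 2)) *
      (R_NodeA_D n h (N + g) (NodeL08_E (N + g) q) ^ s)⁻¹) (𝓝[≠] ξ)
      (𝓝 (I * exp (b * (Real.pi * I * bt n - Real.pi * I * (1 + 0) / ((N + g : ℕ) : ℂ) *
        (bt n : ℂ) ^ 2)) * (R_NodeA_D n h (N + g) 0 ^ s)⁻¹)) := by
    have hc : ContinuousAt (fun e : ℂ => I * exp (b * (Real.pi * I * bt n -
      Real.pi * I * (1 + e) / ((N + g : ℕ) : ℂ) * (bt n : ℂ) ^ 2))) 0 := by fun_prop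
    have hd : ContinuousAt (R_NodeA_D n h (N + g)) 0 := by
      unfold R_NodeA_D
      fun_prop
    exact ((hc.mul ((hd.pow s).inv₀ (pow_ne_zero s hD0))).tendsto).comp hEt
  have e1 : (S (N + g) (n - 1) : ℂ) ≠ 0 := by
    exact_mod_cast (S_pos (by omega : n - 1 < N + g)).ne'
  have e2 : (S (N + g) (n - g - 1) : ℂ) ≠ 0 := by
    exact_mod_cast (S_pos (by omega : n - g - 1 < N + g)).ne'
  have e3 : (S (N + g) (g - 1) : ℂ) ≠ 0 := by
    exact_mod_cast (S_pos (by omega : g - 1 < N + g)).ne'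
  have e4 : (sg (N + g) (n - 1) : ℂ) ≠ 0 := by
    exact_mod_cast (sg_pos (by omega : 1 ≤ n - 1) (by omega : n - 1 < N + g)).ne'
  have e5 : (∏ u ∈ Finset.range (n - 2), (I * (sg (N + g) (u + 1) : ℂ)) ^ 2) ≠ 0 := by
    refine Finset.prod_ne_zero_iff.2 fun u hu => ?_
    have hu' := Finset.mem_range.1 hu
    refine pow_ne_zero _ (mul_ne_zero Complex.I_ne_zero ?_)
    exact_mod_cast (sg_pos (by omega : 1 ≤ u + 1) (by omega : u + 1 < N + g)).ne'
  have g4 := ((g1.mul g2).mul g3').inv₀ (by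
    refine mul_ne_zero (mul_ne_zero (mul_ne_zero Complex.I_ne_zero e4) e5) ?_
    refine div_ne_zero ?_ e1
    exact mul_ne_zero (mul_ne_zero (mul_ne_zero Complex.I_ne_zero
      (pow_ne_zero _ (by norm_num))) e2) e3)
  have g5 := h6.mul (g0.mul g4)
  rw [R_NodeA_const b n g N h s hn hg hgn hN hh hh1] at g5
  refine g5.congr' ?_
  have hne : ∀ᶠ q in 𝓝[≠] ξ, ∀ i ∈ Finset.Icc 1 (N + g + 1), br q ((i : ℕ) : ℤ) ≠ 0 := by
    rw [Filter.eventually_all_finset]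
    intro i hi
    rw [Finset.mem_Icc] at hi
    exact NodeL08_br_ne' (N + g) hM0 i hi.1 (by omega)
  filter_upwards [hq0, hne] with q hq hq1
  exact (R_NodeA_NF b n h N (N + g) s hn (by omega) (by omega) hh hh1 hτ hac A t q hq hq1).symm

end Pool.Agent.S4
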