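import Pool.Agent.H63.VC8.NodeL08
import Pool.Agent.S4.R.Edge
import Pool.Agent.S4.R.Node

/-! # The factors of the nodes of parallel strands at the roots of unity -/

namespace Pool.Agent.S4

open Pool.Agent.H63.VC hiding ext
open Pool.Agent.H63.VC3 Pool.Agent.H63.VC7 Pool.Agent.H63.VC8 Pool.Agent.H63.VC11
open Pool.Agent.H63.VC12 Complex Filter Topology

variable {m : ℕ}

/-- The amplitude of a term, as a function of two variables. -/
noncomputable def R_NodeS_T (b : ℤ) (n g M : ℕ) (c τ : ℂ) (A : Finset (Fin m)) (t : Fin m → ℕ)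
    (w : ℂ × ℂ) : ℂ :=
  2 * sin (2 * Real.pi * (w.2 * (1 + w.1) / (M : ℂ))) *
    exp (b * (Real.pi * I * (1 + w.1) / (M : ℂ) * w.2 ^ 2 - Real.pi * I * w.2)) *
    (∏ i ∈ Finset.range (n - 2),
      (-((2 * sin (Real.pi * (w.1 + ((i : ℂ) + 3 / 2 - g + w.2) * (1 + w.1) / (M : ℂ)))) *
        (2 * sin (Real.pi * (w.1 + ((i : ℂ) + 3 / 2 - g - w.2) * (1 + w.1) / (M : ℂ))))))) *
    ∏ j ∈ A, ∏ i ∈ Finset.range (t j),
      (-((2 * sin (Real.pi * (τ * w.1 + (c + i + w.2) * (1 + w.1) / (M : ℂ)))) *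
        (2 * sin (Real.pi * (τ * w.1 + (c + i - w.2) * (1 + w.1) / (M : ℂ))))))

theorem R_NodeS_T_diff (b : ℤ) (n g M : ℕ) (c τ : ℂ) (A : Finset (Fin m)) (t : Fin m → ℕ) :
    Differentiable ℂ (R_NodeS_T b n g M c τ A t) := by
  unfold R_NodeS_T
  fun_prop

theorem R_NodeS_br (M : ℕ) (hM : 0 < M) (e : ℂ) (k : ℤ) (y τ : ℂ) (hτ : τ = 1 ∨ τ = -1)
    (hk : (k : ℂ) = τ * M + y) : br (NodeL08_Q M e) k =
      -(I * (2 * sin (Real.pi * (τ * e + y * (1 + e) / (M : ℂ))))) := by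
  have h := NodeL08_M M hM
  rw [NodeL08_br, hk]
  rcases hτ with rfl | rfl
  · have h1 : (Real.pi : ℂ) * ((1 * (M : ℂ) + y) * (1 + e) / (M : ℂ)) =
        Real.pi * (1 * e + y * (1 + e) / (M : ℂ)) + Real.pi := by
      field_simp
      ring
    rw [h1, Complex.sin_add_pi]
    ring
  · have h1 : (Real.pi : ℂ) * ((-1 * (M : ℂ) + y) * (1 + e) / (M : ℂ)) =
        Real.pi * (-1 * e + y * (1 + e) / (M : ℂ)) - Real.pi := by
      field_simp
      ring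
    rw [h1, Complex.sin_sub_pi]
    ring

/-- The half twist. -/
theorem R_NodeS_tw (M : ℕ) (hM : 0 < M) (e : ℂ) (b : ℤ) (X : ℕ) :
    twS (NodeL08_Q M e) X ^ b =
      exp (b * (Real.pi * I * (1 + e) / (M : ℂ) * ((X : ℂ) + 1 / 2) ^ 2 -
        Real.pi * I * ((X : ℂ) + 1 / 2))) *
      exp (b * (Real.pi * I / 2 - Real.pi * I * (1 + e) / (4 * (M : ℂ)))) := by
  have h := NodeL08_M M hM
  have h1 : (-1 : ℂ) ^ X = exp (-(X * (Real.pi * I))) := by
    rw [Complex.exp_neg, Complex.exp_nat_mul, Complex.exp_pi_mul_I, ← inv_pow]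
    norm_num
  rw [twS, NodeL08_zpow, h1, ← Complex.exp_add, ← Complex.exp_int_mul, ← Complex.exp_add]
  congr 1
  push_cast
  field_simp
  ring

/-- A term. -/
theorem R_NodeS_term (b : ℤ) (n g N : ℕ) (hn : 2 ≤ n) (hg : 1 ≤ g) {c τ : ℂ} {a : ℤ}
    (hτ : τ = 1 ∨ τ = -1) (hac : (a : ℂ) = τ * ((N + g : ℕ) : ℂ) + (c + 1 / 2))
    (A : Finset (Fin m)) (t : Fin m → ℕ) (X : ℕ) (e : ℂ) :
    br (NodeL08_Q (N + g) e) (2 * (X : ℤ) + 1) *
      (∏ i ∈ Finset.range (n - 2), (br (NodeL08_Q (N + g) e) ((N : ℤ) + X + i + 2) *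
        br (NodeL08_Q (N + g) e) ((N : ℤ) - X + i + 1))) * twS (NodeL08_Q (N + g) e) X ^ b *
      ∏ j ∈ A, ps (NodeL08_Q (N + g) e) a (t j) X =
    I * exp (b * (Real.pi * I / 2 - Real.pi * I * (1 + e) / (4 * ((N + g : ℕ) : ℂ)))) *
      R_NodeS_T b n g (N + g) c τ A t (e, (X : ℂ) + 1 / 2) := by
  have hM : 0 < N + g := by omega
  have hI := Complex.I_mul_I
  have h1 : br (NodeL08_Q (N + g) e) (2 * (X : ℤ) + 1) =
      I * (2 * sin (2 * Real.pi * (((X : ℂ) + 1 / 2) * (1 + e) / ((N + g : ℕ) : ℂ)))) := by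
    rw [NodeL08_br]
    have e1 : (Real.pi : ℂ) * (((2 * (X : ℤ) + 1 : ℤ) : ℂ) * (1 + e) / ((N + g : ℕ) : ℂ)) =
        2 * Real.pi * (((X : ℂ) + 1 / 2) * (1 + e) / ((N + g : ℕ) : ℂ)) := by
      push_cast
      ring
    rw [e1]
    ring
  have h2 : ∀ i ∈ Finset.range (n - 2), (br (NodeL08_Q (N + g) e) ((N : ℤ) + X + i + 2) *
        br (NodeL08_Q (N + g) e) ((N : ℤ) - X + i + 1)) =
      (-((2 * sin (Real.pi * (e + ((i : ℂ) + 3 / 2 - g + ((X : ℂ) + 1 / 2)) * (1 + e) /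
        ((N + g : ℕ) : ℂ)))) *
        (2 * sin (Real.pi * (e + ((i : ℂ) + 3 / 2 - g - ((X : ℂ) + 1 / 2)) * (1 + e) /
          ((N + g : ℕ) : ℂ)))))) := by
    intro i _
    rw [R_NodeS_br (N + g) hM e ((N : ℤ) + X + i + 2)
        ((i : ℂ) + 3 / 2 - g + ((X : ℂ) + 1 / 2)) 1 (Or.inl rfl) (by push_cast; ring),
      R_NodeS_br (N + g) hM e ((N : ℤ) - X + i + 1)
        ((i : ℂ) + 3 / 2 - g - ((X : ℂ) + 1 / 2)) 1 (Or.inl rfl) (by push_cast; ring), one_mul]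
    linear_combination ((2 * sin (Real.pi * (e + ((i : ℂ) + 3 / 2 - g + ((X : ℂ) + 1 / 2)) *
      (1 + e) / ((N + g : ℕ) : ℂ)))) * (2 * sin (Real.pi * (e + ((i : ℂ) + 3 / 2 - g -
        ((X : ℂ) + 1 / 2)) * (1 + e) / ((N + g : ℕ) : ℂ))))) * hI
  have h3 : ∀ j ∈ A, ps (NodeL08_Q (N + g) e) a (t j) X = ∏ i ∈ Finset.range (t j),
      (-((2 * sin (Real.pi * (τ * e + (c + i + ((X : ℂ) + 1 / 2)) * (1 + e) /
        ((N + g : ℕ) : ℂ)))) *
        (2 * sin (Real.pi * (τ * e + (c + i - ((X : ℂ) + 1 / 2)) * (1 + e) /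
          ((N + g : ℕ) : ℂ)))))) := by
    intro j _
    rw [ps]
    refine Finset.prod_congr rfl fun i _ => ?_
    rw [R_NodeS_br (N + g) hM e (a + X + i) (c + i + ((X : ℂ) + 1 / 2)) τ hτ
        (by push_cast at hac ⊢; linear_combination hac),
      R_NodeS_br (N + g) hM e (a - X - 1 + i) (c + i - ((X : ℂ) + 1 / 2)) τ hτ
        (by push_cast at hac ⊢; linear_combination hac)]
    linear_combination ((2 * sin (Real.pi * (τ * e + (c + i + ((X : ℂ) + 1 / 2)) *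
      (1 + e) / ((N + g : ℕ) : ℂ)))) * (2 * sin (Real.pi * (τ * e + (c + i -
        ((X : ℂ) + 1 / 2)) * (1 + e) / ((N + g : ℕ) : ℂ))))) * hI
  rw [h1, Finset.prod_congr rfl h2, Finset.prod_congr rfl h3, R_NodeS_tw (N + g) hM, R_NodeS_T]
  ring

/-- The terms beyond `N` vanish. -/
theorem R_NodeS_zero (b : ℤ) (n g N : ℕ) (hg : 1 ≤ g) (hgn : g < n) (c τ : ℂ)
    (A : Finset (Fin m)) (t : Fin m → ℕ) (X : ℕ) (h1 : N < X) (h2 : X < N + g) (e : ℂ) :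
    R_NodeS_T b n g (N + g) c τ A t (e, (X : ℂ) + 1 / 2) = 0 := by
  have h := NodeL08_M (N + g) (by omega)
  obtain ⟨k, rfl⟩ : ∃ k, X = N + 1 + k := ⟨X - N - 1, by omega⟩
  have hk : k ∈ Finset.range (n - 2) := Finset.mem_range.2 (by omega)
  have h0 : ∏ i ∈ Finset.range (n - 2),
      (-((2 * sin (Real.pi * (e + ((i : ℂ) + 3 / 2 - g + (((N + 1 + k : ℕ) : ℂ) + 1 / 2)) *
        (1 + e) / ((N + g : ℕ) : ℂ)))) *
        (2 * sin (Real.pi * (e + ((i : ℂ) + 3 / 2 - g - (((N + 1 + k : ℕ) : ℂ) + 1 / 2)) *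
          (1 + e) / ((N + g : ℕ) : ℂ)))))) = 0 := by
    refine Finset.prod_eq_zero hk ?_
    have e1 : (Real.pi : ℂ) * (e + ((k : ℂ) + 3 / 2 - g - (((N + 1 + k : ℕ) : ℂ) + 1 / 2)) *
          (1 + e) / ((N + g : ℕ) : ℂ)) = -Real.pi := by
      push_cast at h ⊢
      field_simp
      ring
    rw [e1, Complex.sin_neg, Complex.sin_pi]
    simp
  rw [R_NodeS_T]
  simp only
  rw [h0, mul_zero, zero_mul]

/-- The reflection. -/
theorem R_NodeS_reflect (b : ℤ) (n g M : ℕ) (hM : 0 < M) (c τ : ℂ) (A : Finset (Fin m))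
    (t : Fin m → ℕ) (e z : ℂ) (he : 1 + e ≠ 0) :
    R_NodeS_T b n g M c τ A t (e, (M : ℂ) / (1 + e) - z) = -R_NodeS_T b n g M c τ A t (e, z) := by
  have h := NodeL08_M M hM
  have h1 : sin (2 * Real.pi * (((M : ℂ) / (1 + e) - z) * (1 + e) / (M : ℂ))) =
      -sin (2 * Real.pi * (z * (1 + e) / (M : ℂ))) := by
    rw [show 2 * (Real.pi : ℂ) * (((M : ℂ) / (1 + e) - z) * (1 + e) / (M : ℂ)) =
      2 * Real.pi - 2 * Real.pi * (z * (1 + e) / (M : ℂ)) by field_simp, Complex.sin_two_pi_sub]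
  have h2 : (b : ℂ) * (Real.pi * I * (1 + e) / (M : ℂ) * ((M : ℂ) / (1 + e) - z) ^ 2 -
      Real.pi * I * ((M : ℂ) / (1 + e) - z)) =
      b * (Real.pi * I * (1 + e) / (M : ℂ) * z ^ 2 - Real.pi * I * z) := by
    field_simp
    ring
  have h3 : ∀ (ρ y : ℂ), sin (Real.pi * (ρ * e + (y + ((M : ℂ) / (1 + e) - z)) * (1 + e) /
      (M : ℂ))) = -sin (Real.pi * (ρ * e + (y - z) * (1 + e) / (M : ℂ))) := by
    intro ρ y
    rw [← Complex.sin_add_pi]
    congr 1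
    field_simp
    ring
  have h4 : ∀ (ρ y : ℂ), sin (Real.pi * (ρ * e + (y - ((M : ℂ) / (1 + e) - z)) * (1 + e) /
      (M : ℂ))) = -sin (Real.pi * (ρ * e + (y + z) * (1 + e) / (M : ℂ))) := by
    intro ρ y
    rw [← Complex.sin_sub_pi]
    congr 1
    field_simp
    ring
  have h5 : ∀ i ∈ Finset.range (n - 2),
      (-((2 * sin (Real.pi * (e + ((i : ℂ) + 3 / 2 - g + ((M : ℂ) / (1 + e) - z)) * (1 + e) /
        (M : ℂ)))) *
        (2 * sin (Real.pi * (e + ((i : ℂ) + 3 / 2 - g - ((M : ℂ) / (1 + e) - z)) * (1 + e) /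
          (M : ℂ)))))) =
      (-((2 * sin (Real.pi * (e + ((i : ℂ) + 3 / 2 - g + z) * (1 + e) / (M : ℂ)))) *
        (2 * sin (Real.pi * (e + ((i : ℂ) + 3 / 2 - g - z) * (1 + e) / (M : ℂ)))))) := by
    intro i _
    have k1 := h3 1 ((i : ℂ) + 3 / 2 - g)
    have k2 := h4 1 ((i : ℂ) + 3 / 2 - g)
    rw [one_mul] at k1 k2
    rw [k1, k2]
    ring
  have h6 : ∀ j ∈ A, (∏ i ∈ Finset.range (t j),
      (-((2 * sin (Real.pi * (τ * e + (c + i + ((M : ℂ) / (1 + e) - z)) * (1 + e) / (M : ℂ)))) *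
        (2 * sin (Real.pi * (τ * e + (c + i - ((M : ℂ) / (1 + e) - z)) * (1 + e) /
          (M : ℂ))))))) = ∏ i ∈ Finset.range (t j),
      (-((2 * sin (Real.pi * (τ * e + (c + i + z) * (1 + e) / (M : ℂ)))) *
        (2 * sin (Real.pi * (τ * e + (c + i - z) * (1 + e) / (M : ℂ)))))) := by
    intro j _
    refine Finset.prod_congr rfl fun i _ => ?_
    rw [h3, h4]
    ring
  simp only [R_NodeS_T]
  rw [h1, h2, Finset.prod_congr rfl h5, Finset.prod_congr rfl h6]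
  ring

/-! ### The value at `e = 0` -/

theorem R_NodeS_Wd (M p d : ℕ) (hp : 1 ≤ p) (v : ℂ) :
    (∏ i ∈ Finset.range (2 * p + d - 2), (2 * cos (Real.pi * (v + ((i : ℂ) + 3 / 2 - p) / M)))) *
      (∏ i ∈ Finset.range (2 * p + d - 2),
        (2 * cos (Real.pi * (v + ((i : ℂ) + 3 / 2 - (p + d : ℕ)) / M)))) =
    Wd M (2 * p - 2) v * Wd M (2 * (p + d) - 2) v := by
  have e1 : 2 * p + d - 2 = (2 * p - 2) + d := by omega
  have e2 : 2 * (p + d) - 2 = (2 * p + d - 2) + d := by omega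
  have w1 : Wd M (2 * p - 2) v = ∏ i ∈ Finset.range (2 * p - 2),
      (2 * cos (Real.pi * (v + ((i : ℂ) + 3 / 2 - p) / M))) := by
    rw [Wd]
    refine Finset.prod_congr rfl fun i _ => ?_
    rw [Nat.cast_sub (by omega : 2 ≤ 2 * p)]
    push_cast
    congr 5
    ring
  have w2 : Wd M (2 * (p + d) - 2) v = ∏ i ∈ Finset.range (2 * (p + d) - 2),
      (2 * cos (Real.pi * (v + ((i : ℂ) + 3 / 2 - (p + d : ℕ)) / M))) := by
    rw [Wd]
    refine Finset.prod_congr rfl fun i _ => ?_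
    rw [Nat.cast_sub (by omega : 2 ≤ 2 * (p + d))]
    push_cast
    congr 5
    ring
  rw [w1, w2, e2, Finset.prod_range_add _ (2 * p + d - 2) d]
  have s1 : ∏ i ∈ Finset.range (2 * p + d - 2),
      (2 * cos (Real.pi * (v + ((i : ℂ) + 3 / 2 - p) / M))) =
      (∏ i ∈ Finset.range (2 * p - 2), (2 * cos (Real.pi * (v + ((i : ℂ) + 3 / 2 - p) / M)))) *
      ∏ i ∈ Finset.range d, (2 * cos (Real.pi * (v + (((2 * p + d - 2 + i : ℕ) : ℂ) + 3 / 2 -
        (p + d : ℕ)) / M))) := by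
    rw [e1, Finset.prod_range_add _ (2 * p - 2) d]
    congr 1
    refine Finset.prod_congr rfl fun i _ => ?_
    have k1 : ((2 * p - 2 + i : ℕ) : ℂ) = 2 * p - 2 + i := by
      rw [Nat.cast_add, Nat.cast_sub (by omega : 2 ≤ 2 * p)]
      push_cast
      ring
    have k2 : ((2 * p - 2 + d + i : ℕ) : ℂ) = 2 * p - 2 + d + i := by
      rw [Nat.cast_add, Nat.cast_add, Nat.cast_sub (by omega : 2 ≤ 2 * p)]
      push_cast
      ring
    rw [k1, k2]
    push_cast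
    congr 5
    ring
  rw [s1]
  ring

/-- The product of the pairs. -/
theorem R_NodeS_pairs (n g M h : ℕ) (hg : 1 ≤ g) (hgn : g < n)
    (hh : (h = g ∧ 2 * g ≤ n) ∨ (h + g = n ∧ n < 2 * g)) (v : ℂ) :
    ∏ i ∈ Finset.range (n - 2), ((2 * cos (Real.pi * (v + ((i : ℂ) + 3 / 2 - g) / M))) *
      (2 * cos (Real.pi * (v - ((i : ℂ) + 3 / 2 - g) / M)))) =
    Wd M (2 * h - 2) v * Wd M (2 * (n - h) - 2) v := by
  have r : ∏ i ∈ Finset.range (n - 2), (2 * cos (Real.pi * (v - ((i : ℂ) + 3 / 2 - g) / M))) =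
      ∏ i ∈ Finset.range (n - 2),
        (2 * cos (Real.pi * (v + ((i : ℂ) + 3 / 2 - (n - g : ℕ)) / M))) := by
    rw [← Finset.prod_range_reflect]
    refine Finset.prod_congr rfl fun i hi => ?_
    have hi' := Finset.mem_range.1 hi
    have k1 : ((n - 2 - 1 - i : ℕ) : ℂ) = (n : ℂ) - 3 - i := by
      rw [show n - 2 - 1 - i = n - (3 + i) by omega, Nat.cast_sub (by omega)]
      push_cast
      ring
    have k2 : ((n - g : ℕ) : ℂ) = (n : ℂ) - g := Nat.cast_sub (by omega)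
    rw [k1, k2]
    congr 3
    ring
  rw [Finset.prod_mul_distrib, r]
  rcases hh with ⟨rfl, h2⟩ | ⟨h1, h2⟩
  · obtain ⟨d, rfl⟩ : ∃ d, n = 2 * h + d := ⟨n - 2 * h, by omega⟩
    have := R_NodeS_Wd M h d hg v
    rw [show 2 * h + d - h = h + d by omega]
    exact this
  · obtain ⟨d, rfl⟩ : ∃ d, g = h + d := ⟨g - h, by omega⟩
    obtain rfl : n = 2 * h + d := by omega
    have := R_NodeS_Wd M h d (by omega) v
    rw [show 2 * h + d - (h + d) = h by omega, show 2 * h + d - h = h + d by omega, mul_comm]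
    exact this

/-- The amplitude at `e = 0`. -/
theorem R_NodeS_T0 (b : ℤ) (n g M h : ℕ) (hM : 0 < M) (hg : 1 ≤ g) (hgn : g < n)
    (hh : (h = g ∧ 2 * g ≤ n) ∨ (h + g = n ∧ n < 2 * g)) (τ : ℂ) (s : ℕ) (A : Finset (Fin m))
    (t : Fin m → ℕ) (ht : ∀ j ∈ A, t j + n ≤ M + 1) (z : ℂ) :
    R_NodeS_T b n g M ((n : ℂ) - h - 1 / 2) τ A t (0, z) =
      -(exp (-(b * (Real.pi * I * M / 4))) * (∏ _j ∈ A, (M : ℂ)) *
        NT4 ((b : ℝ) / 2) n h M true s A (fun j => M + 1 - n - t j) (z / M - 1 / 2)) := by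
  have h0 := NodeL08_M M hM
  obtain ⟨v, hv⟩ : ∃ v, v = z / (M : ℂ) - 1 / 2 := ⟨_, rfl⟩
  have hz : z = M * (v + 1 / 2) := by
    rw [hv]
    field_simp
    ring
  rw [← hv]
  have h1 : sin (2 * Real.pi * (z * (1 + 0) / (M : ℂ))) = -sin (2 * Real.pi * v) := by
    rw [hz, show 2 * (Real.pi : ℂ) * (M * (v + 1 / 2) * (1 + 0) / (M : ℂ)) =
      2 * Real.pi * v + Real.pi by field_simp; ring, Complex.sin_add_pi]
  have h2 : exp ((b : ℂ) * (Real.pi * I * (1 + 0) / (M : ℂ) * z ^ 2 - Real.pi * I * z)) =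
      exp (-(b * (Real.pi * I * M / 4))) *
        exp (2 * Real.pi * I * (((b : ℝ) / 2 : ℝ) : ℂ) * M * v ^ 2) := by
    rw [← Complex.exp_add, hz]
    congr 1
    push_cast
    field_simp
    ring
  have h3 : ∀ (ρ y : ℂ), sin (Real.pi * (ρ * 0 + (y + z) * (1 + 0) / (M : ℂ))) =
      cos (Real.pi * (v + y / M)) := by
    intro ρ y
    rw [← Complex.sin_add_pi_div_two, hz]
    congr 1
    field_simp
    ring
  have h4 : ∀ (ρ y : ℂ), sin (Real.pi * (ρ * 0 + (y - z) * (1 + 0) / (M : ℂ))) =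
      -cos (Real.pi * (v - y / M)) := by
    intro ρ y
    rw [← Complex.sin_add_pi_div_two, ← Complex.sin_neg, hz]
    congr 1
    field_simp
    ring
  have h5 : ∀ i ∈ Finset.range (n - 2),
      (-((2 * sin (Real.pi * (0 + ((i : ℂ) + 3 / 2 - g + z) * (1 + 0) / (M : ℂ)))) *
        (2 * sin (Real.pi * (0 + ((i : ℂ) + 3 / 2 - g - z) * (1 + 0) / (M : ℂ)))))) =
      (2 * cos (Real.pi * (v + ((i : ℂ) + 3 / 2 - g) / M))) *
        (2 * cos (Real.pi * (v - ((i : ℂ) + 3 / 2 - g) / M))) := by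
    intro i _
    have k1 := h3 0 ((i : ℂ) + 3 / 2 - g)
    have k2 := h4 0 ((i : ℂ) + 3 / 2 - g)
    rw [zero_mul] at k1 k2
    rw [k1, k2]
    ring
  have h6 : ∀ j ∈ A, (∏ i ∈ Finset.range (t j),
      (-((2 * sin (Real.pi * (τ * 0 + ((n : ℂ) - h - 1 / 2 + i + z) * (1 + 0) / (M : ℂ)))) *
        (2 * sin (Real.pi * (τ * 0 + ((n : ℂ) - h - 1 / 2 + i - z) * (1 + 0) / (M : ℂ))))))) =
      (M : ℂ) * q4 M (dd n h true) (M + 1 - n - (M + 1 - n - t j)) v := by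
    intro j hj
    have e1 : M + 1 - n - (M + 1 - n - t j) = t j := by
      have := ht j hj
      omega
    have e2 : ((dd n h true : ℕ) : ℂ) = 2 * ((n : ℂ) - h) - 2 := by
      rw [dd, if_pos rfl, Nat.cast_sub (by omega), Nat.cast_mul, Nat.cast_sub (by omega)]
      push_cast
      ring
    rw [e1, q4, e2, ← mul_assoc, mul_one_div_cancel h0, one_mul]
    refine Finset.prod_congr rfl fun i _ => ?_
    rw [h3, h4]
    have e3 : (n : ℂ) - h - 1 / 2 + i = (i : ℂ) + (2 * ((n : ℂ) - h) - 2 + 1) / 2 := by ring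
    rw [e3]
    ring
  rw [R_NodeS_T, NT4, pre, if_pos rfl]
  simp only
  rw [h1, h2, Finset.prod_congr rfl h5, R_NodeS_pairs n g M h hg hgn hh v,
    Finset.prod_congr rfl h6, Finset.prod_mul_distrib]
  ring

theorem R_NodeS_NT_diff (r : ℝ) (n h M : ℕ) (s : ℕ) (A : Finset (Fin m)) (k : Fin m → ℕ) :
    Differentiable ℂ (NT4 r n h M true s A k) := by
  unfold NT4 pre Wd q4
  simp only [if_true]
  fun_prop

theorem R_NodeS_deriv (b : ℤ) (n g M h : ℕ) (hM : 0 < M) (hg : 1 ≤ g) (hgn : g < n)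
    (hh : (h = g ∧ 2 * g ≤ n) ∨ (h + g = n ∧ n < 2 * g)) (τ : ℂ) (s : ℕ) (A : Finset (Fin m))
    (t : Fin m → ℕ) (ht : ∀ j ∈ A, t j + n ≤ M + 1) (z : ℂ) :
    deriv (fun z => R_NodeS_T b n g M ((n : ℂ) - h - 1 / 2) τ A t (0, z)) z =
      -(exp (-(b * (Real.pi * I * M / 4))) * (∏ _j ∈ A, (M : ℂ)) *
        (deriv (NT4 ((b : ℝ) / 2) n h M true s A (fun j => M + 1 - n - t j)) (z / M - 1 / 2) *
          (1 / M))) := by
  have e : (fun z => R_NodeS_T b n g M ((n : ℂ) - h - 1 / 2) τ A t (0, z)) = fun z =>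
      -(exp (-(b * (Real.pi * I * M / 4))) * (∏ _j ∈ A, (M : ℂ)) *
        NT4 ((b : ℝ) / 2) n h M true s A (fun j => M + 1 - n - t j) (z / M - 1 / 2)) :=
    funext fun z => R_NodeS_T0 b n g M h hM hg hgn hh τ s A t ht z
  rw [e]
  have h1 : HasDerivAt (fun z : ℂ => z / (M : ℂ) - 1 / 2) (1 / M) z :=
    ((hasDerivAt_id z).div_const (M : ℂ)).sub_const (1 / 2)
  have h2 := (R_NodeS_NT_diff ((b : ℝ) / 2) n h M s A (fun j => M + 1 - n - t j)
    (z / M - 1 / 2)).hasDerivAt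
  have h3 := HasDerivAt.comp z h2 h1
  exact ((h3.const_mul (exp (-(b * (Real.pi * I * M / 4))) * (∏ _j ∈ A, (M : ℂ)))).neg).deriv

/-- The sum of the amplitudes. -/
noncomputable def R_NodeS_H (b : ℤ) (n g M : ℕ) (c τ : ℂ) (A : Finset (Fin m)) (t : Fin m → ℕ)
    (e : ℂ) : ℂ :=
  ∑ X ∈ Finset.range M, R_NodeS_T b n g M c τ A t (e, (X : ℂ) + 1 / 2)

theorem R_NodeS_vl (n' M X : ℕ) : ((vl (nn n' true) M X : ℝ) : ℂ) = ((X : ℂ) + 1 / 2) / M - 1 / 2 := by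
  rw [vl, nn, if_pos rfl, bt]
  push_cast
  ring

theorem R_NodeS_main (b : ℤ) (n g M h : ℕ) (hM : 0 < M) (hg : 1 ≤ g) (hgn : g < n)
    (hh : (h = g ∧ 2 * g ≤ n) ∨ (h + g = n ∧ n < 2 * g)) (τ : ℂ) (s : ℕ) (A : Finset (Fin m))
    (t : Fin m → ℕ) (ht : ∀ j ∈ A, t j + n ≤ M + 1) :
    R_NodeS_H b n g M ((n : ℂ) - h - 1 / 2) τ A t 0 = 0 ∧
    HasDerivAt (R_NodeS_H b n g M ((n : ℂ) - h - 1 / 2) τ A t)
      (-(1 / 2) * (exp (-(b * (Real.pi * I * M / 4))) * (∏ _j ∈ A, (M : ℂ)) *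
        DG4 ((b : ℝ) / 2) n h M true s A (fun j => M + 1 - n - t j))) 0 := by
  have h0 := NodeL08_M M hM
  have key := node_abs M hM (Finset.range M) (fun j => M - 1 - j)
    (fun i hi => by rw [Finset.mem_range] at hi ⊢; omega)
    (fun i hi => by rw [Finset.mem_range] at hi; show M - 1 - (M - 1 - i) = i; omega)
    (fun j => (j : ℂ) + 1 / 2)
    (fun i hi => by
      rw [Finset.mem_range] at hi
      show ((M - 1 - i : ℕ) : ℂ) + 1 / 2 = M - ((i : ℂ) + 1 / 2)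
      rw [show M - 1 - i = M - (1 + i) by omega, Nat.cast_sub (by omega)]
      push_cast
      ring)
    (R_NodeS_T b n g M ((n : ℂ) - h - 1 / 2) τ A t)
    (fun i _ => R_NodeS_T_diff b n g M ((n : ℂ) - h - 1 / 2) τ A t _)
    (by
      have : ∀ᶠ e in 𝓝 (0 : ℂ), 1 + e ≠ 0 := by
        have hc : ContinuousAt (fun e : ℂ => 1 + e) 0 := by fun_prop
        exact hc.eventually_ne (by norm_num)
      filter_upwards [this] with e he z
      exact R_NodeS_reflect b n g M hM _ τ A t e z he)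
    (fun _ _ => 1) (fun _ => 0) (fun i _ => hasDerivAt_const 0 1) (fun _ _ => rfl)
    (fun _ _ => rfl)
  simp only [one_mul] at key
  obtain ⟨k1, k2⟩ := key
  refine ⟨k1, k2.congr_deriv ?_⟩
  rw [DG4, Finset.mul_sum, Finset.mul_sum, Finset.mul_sum]
  have hr : M + 2 - nn n true = M := by rw [nn, if_pos rfl]; omega
  rw [hr]
  refine Finset.sum_congr rfl fun X _ => ?_
  rw [R_NodeS_deriv b n g M h hM hg hgn hh τ s A t ht, R_NodeS_vl n]
  field_simp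

/-- The factor for a generic `q`. -/
theorem R_NodeS_NF (b : ℤ) (n g N : ℕ) (hn : 2 ≤ n) (hg : 1 ≤ g) (hgn : g < n) {c τ : ℂ} {a : ℤ}
    (hτ : τ = 1 ∨ τ = -1) (hac : (a : ℂ) = τ * ((N + g : ℕ) : ℂ) + (c + 1 / 2)) (L s : ℕ)
    (A : Finset (Fin m)) (t : Fin m → ℕ) (q : ℂ) (hq : q ≠ 0) (hqM : br q ((N + g : ℕ) : ℤ) ≠ 0) :
    NF4 n N L a q true b s A t = R_NodeS_H b n g (N + g) c τ A t (NodeL08_E (N + g) q) /
      br q ((N + g : ℕ) : ℤ) *
      ((I * exp (b * (Real.pi * I / 2 - Real.pi * I * (1 + NodeL08_E (N + g) q) /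
        (4 * ((N + g : ℕ) : ℂ))))) *
        ((∏ i ∈ Finset.range (n - 1), br q ((i : ℤ) + 1)) *
          (∏ i ∈ Finset.range (n - 2), br q ((i : ℤ) + 1)) *
          (dimS n N q / br q ((N + g : ℕ) : ℤ)))⁻¹) := by
  have hM : 0 < N + g := by omega
  have hQ := NodeL08_QE (N + g) hM q hq
  have h1 : ∀ X ∈ Finset.range (N + 1), vw n q N true b X *
      ((if (true : Bool) then (1 : ℂ) else Ca n a q X ^ s) * ∏ j ∈ A, sl4 n a q true (t j) X) =
      R_NodeS_T b n g (N + g) c τ A t (NodeL08_E (N + g) q, (X : ℂ) + 1 / 2) *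
      ((I * exp (b * (Real.pi * I / 2 - Real.pi * I * (1 + NodeL08_E (N + g) q) /
        (4 * ((N + g : ℕ) : ℂ))))) *
        ((∏ i ∈ Finset.range (n - 1), br q ((i : ℤ) + 1)) *
          (∏ i ∈ Finset.range (n - 2), br q ((i : ℤ) + 1)) * dimS n N q)⁻¹) := by
    intro X _
    have k := R_NodeS_term b n g N hn hg hτ hac A t X (NodeL08_E (N + g) q)
    rw [hQ] at k
    simp only [vw, dimT, sl4, if_true]
    simp only [div_eq_mul_inv, mul_inv] at k ⊢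
    linear_combination ((∏ i ∈ Finset.range (n - 1), br q ((i : ℤ) + 1))⁻¹ *
      (∏ i ∈ Finset.range (n - 2), br q ((i : ℤ) + 1))⁻¹ * (dimS n N q)⁻¹) * k
  have h2 : R_NodeS_H b n g (N + g) c τ A t (NodeL08_E (N + g) q) =
      ∑ X ∈ Finset.range (N + 1),
        R_NodeS_T b n g (N + g) c τ A t (NodeL08_E (N + g) q, (X : ℂ) + 1 / 2) := by
    rw [R_NodeS_H]
    symm
    refine Finset.sum_subset (fun X hX => ?_) fun X hX hX' => ?_
    · rw [Finset.mem_range] at hX ⊢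
      omega
    · rw [Finset.mem_range] at hX hX'
      exact R_NodeS_zero b n g N hg hgn c τ A t X (by omega) hX _
  rw [NF4]
  simp only [if_true] at h1 ⊢
  rw [Finset.sum_congr rfl h1, ← Finset.sum_mul, ← h2]
  simp only [div_eq_mul_inv, mul_inv, inv_inv]
  field_simp

/-- The constants. -/
theorem R_NodeS_const (b : ℤ) (n g N : ℕ) (hn : 2 ≤ n) (hg : 1 ≤ g) (hgn : g < n) (hN : n ≤ N)
    (P D : ℂ) :
    (-(1 / 2) * (exp (-(b * (Real.pi * I * ((N + g : ℕ) : ℂ) / 4))) * P * D)) /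
        (-(2 * I * Real.pi)) *
      ((I * exp (b * (Real.pi * I / 2 - Real.pi * I * (1 + 0) / (4 * ((N + g : ℕ) : ℂ))))) *
        ((∏ i ∈ Finset.range (n - 1), (I * (sg (N + g) (i + 1) : ℂ))) *
        (∏ i ∈ Finset.range (n - 2), (I * (sg (N + g) (i + 1) : ℂ))) *
        (I * (-1) ^ (n + g) * (S (N + g) (n - g - 1) : ℂ) * (S (N + g) (g - 1) : ℂ) /
        (S (N + g) (n - 1) : ℂ)))⁻¹) =
    cst n g (N + g) true b * P * D := by
  have hpi : (Real.pi : ℂ) ≠ 0 := by exact_mod_cast Real.pi_ne_zero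
  have hI := Complex.I_ne_zero
  have h := NodeL08_M (N + g) (by omega)
  have hS : ∀ k : ℕ, (∏ i ∈ Finset.range k, (I * (sg (N + g) (i + 1) : ℂ))) =
      I ^ k * (S (N + g) k : ℂ) := by
    intro k
    rw [Finset.prod_mul_distrib, Finset.prod_const, Finset.card_range, S,
      Finset.prod_Ico_eq_prod_range, show k + 1 - 1 = k by omega]
    push_cast
    congr 1
    exact Finset.prod_congr rfl fun u _ => by rw [add_comm 1 u]
  have e1 : (S (N + g) (n - 2) : ℂ) ≠ 0 := by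
    exact_mod_cast (S_pos (by omega : n - 2 < N + g)).ne'
  have e2 : (S (N + g) (n - g - 1) : ℂ) ≠ 0 := by
    exact_mod_cast (S_pos (by omega : n - g - 1 < N + g)).ne'
  have e3 : (S (N + g) (g - 1) : ℂ) ≠ 0 := by
    exact_mod_cast (S_pos (by omega : g - 1 < N + g)).ne'
  have e4 : (S (N + g) (n - 1) : ℂ) ≠ 0 := by
    exact_mod_cast (S_pos (by omega : n - 1 < N + g)).ne'
  have hg2 : ((-1 : ℂ) ^ g) * (-1) ^ g = 1 := by
    rw [← mul_pow]
    norm_num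
  have hg0 : ((-1 : ℂ) ^ g) ≠ 0 := pow_ne_zero _ (by norm_num)
  have hprod : (∏ i ∈ Finset.range (n - 1), (I * (sg (N + g) (i + 1) : ℂ))) *
        (∏ i ∈ Finset.range (n - 2), (I * (sg (N + g) (i + 1) : ℂ))) *
        (I * (-1) ^ (n + g) * (S (N + g) (n - g - 1) : ℂ) * (S (N + g) (g - 1) : ℂ) /
        (S (N + g) (n - 1) : ℂ)) =
      -(-1) ^ g * ((S (N + g) (n - 2) : ℂ) * (S (N + g) (n - g - 1) : ℂ) *
        (S (N + g) (g - 1) : ℂ)) := by
    rw [hS, hS]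
    obtain ⟨k, rfl⟩ : ∃ k, n = k + 2 := ⟨n - 2, by omega⟩
    have k1 : I ^ (k + 2 - 1) * I ^ (k + 2 - 2) * I = (-1) ^ (k + 1) := by
      rw [show k + 2 - 1 = k + 1 by omega, show k + 2 - 2 = k by omega, ← pow_add, ← pow_succ,
        show k + 1 + k + 1 = 2 * (k + 1) by ring, pow_mul, Complex.I_sq]
    have k2 : ((-1 : ℂ) ^ (k + 1)) * (-1) ^ (k + 2 + g) = -(-1) ^ g := by
      rw [← pow_add, show k + 1 + (k + 2 + g) = 2 * (k + 1) + (g + 1) by ring, pow_add, pow_mul,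
        neg_one_sq, one_pow, one_mul, pow_succ]
      ring
    have k3 : (I ^ (k + 2 - 1) * (S (N + g) (k + 2 - 1) : ℂ)) *
        (I ^ (k + 2 - 2) * (S (N + g) (k + 2 - 2) : ℂ)) *
        (I * (-1) ^ (k + 2 + g) * (S (N + g) (k + 2 - g - 1) : ℂ) * (S (N + g) (g - 1) : ℂ) /
        (S (N + g) (k + 2 - 1) : ℂ)) =
        (I ^ (k + 2 - 1) * I ^ (k + 2 - 2) * I) * (-1) ^ (k + 2 + g) *
          ((S (N + g) (k + 2 - 2) : ℂ) * (S (N + g) (k + 2 - g - 1) : ℂ) *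
            (S (N + g) (g - 1) : ℂ)) := by
      field_simp
    rw [k3, k1, k2]
  have hexp : exp (-((b : ℂ) * (Real.pi * I * ((N + g : ℕ) : ℂ) / 4))) *
      exp (b * (Real.pi * I / 2 - Real.pi * I * (1 + 0) / (4 * ((N + g : ℕ) : ℂ)))) =
      exp (b * (Real.pi * I * (bt (nn n true) - ((N + g : ℕ) : ℂ) / 4 -
        (bt (nn n true) : ℂ) ^ 2 / ((N + g : ℕ) : ℂ)))) := by
    rw [← Complex.exp_add, nn, if_pos rfl, bt]
    congr 1
    push_cast
    push_cast at h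
    field_simp
    ring
  rw [hprod, cst, ← hexp, nn, if_pos rfl, Dg, pow_add]
  push_cast
  set x : ℂ := (S (N + g) (n - 2) : ℂ)
  set y : ℂ := (S (N + g) (n - g - 1) : ℂ)
  set w : ℂ := (S (N + g) (g - 1) : ℂ)
  field_simp
  linear_combination (4 * P * D) * hg2

theorem nodeS_lim (b : ℤ) (n g N : ℕ) (hn : 2 ≤ n) (hg : 1 ≤ g) (hgn : g < n) (hN : n ≤ N)
    {h : ℕ} {a : ℤ} (ha : IsH n N g h a) (L s : ℕ) (A : Finset (Fin m)) (t : Fin m → ℕ)
    (ht : ∀ j ∈ A, t j + n ≤ N + g + 1) :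
    Tendsto (fun q => NF4 n N L a q true b s A t) (𝓝[≠] (q0 (N + g)))
      (𝓝 (cst n g (N + g) true b * (∏ _j ∈ A, ((N + g : ℕ) : ℂ)) *
        DG4 ((b : ℝ) / 2) n h (N + g) true s A (fun j => N + g + 1 - n - t j))) := by
  have hM0 : 0 < N + g := by omega
  have hM := NodeL08_M (N + g) hM0
  have hpi : (Real.pi : ℂ) ≠ 0 := by exact_mod_cast Real.pi_ne_zero
  have hh : (h = g ∧ 2 * g ≤ n) ∨ (h + g = n ∧ n < 2 * g) := by
    rcases ha with ⟨h1, h2, -⟩ | ⟨h1, h2, -⟩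
    · exact Or.inl ⟨h1, h2⟩
    · exact Or.inr ⟨h1, h2⟩
  obtain ⟨τ, hτ, hac⟩ : ∃ τ : ℂ, (τ = 1 ∨ τ = -1) ∧
      (a : ℂ) = τ * ((N + g : ℕ) : ℂ) + (((n : ℂ) - h - 1 / 2) + 1 / 2) := by
    rcases ha with ⟨h1, h2, rfl⟩ | ⟨h1, h2, rfl⟩
    · refine ⟨1, Or.inl rfl, ?_⟩
      rw [h1]
      push_cast
      ring
    · refine ⟨-1, Or.inr rfl, ?_⟩
      rw [← h1]
      push_cast
      ring
  have hq0e : q0 (N + g) = exp (Real.pi * I / ((N + g : ℕ) : ℂ)) := rfl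
  rw [hq0e]
  set ξ : ℂ := exp (Real.pi * I / ((N + g : ℕ) : ℂ)) with hξ
  have hξ0 : ξ ≠ 0 := Complex.exp_ne_zero _
  have hq0 : ∀ᶠ q in 𝓝[≠] ξ, q ≠ 0 :=
    (eventually_ne_nhds hξ0).filter_mono nhdsWithin_le_nhds
  obtain ⟨m1, m2⟩ := R_NodeS_main b n g (N + g) h hM0 hg hgn hh τ s A t ht
  -- the numerator
  have h1 := hasDerivAt_iff_tendsto_slope.1 m2
  have h2 : HasDerivAt (fun e : ℂ => -(2 * I * sin (Real.pi * e))) (-(2 * I * Real.pi)) 0 := by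
    have := (((hasDerivAt_id (0 : ℂ)).const_mul (Real.pi : ℂ)).csin.const_mul (2 * I)).neg
    refine this.congr_deriv ?_
    simp
  have h3 := hasDerivAt_iff_tendsto_slope.1 h2
  have h4 := h1.div h3 (by simp [hpi, Complex.I_ne_zero])
  have h5 := h4.comp (NodeL08_Et (N + g) hM0)
  have h6 : Tendsto (fun q => R_NodeS_H b n g (N + g) ((n : ℂ) - h - 1 / 2) τ A t
      (NodeL08_E (N + g) q) / br q ((N + g : ℕ) : ℤ)) (𝓝[≠] ξ)
      (𝓝 ((-(1 / 2) * (exp (-(b * (Real.pi * I * ((N + g : ℕ) : ℂ) / 4))) *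
        (∏ _j ∈ A, ((N + g : ℕ) : ℂ)) *
        DG4 ((b : ℝ) / 2) n h (N + g) true s A (fun j => N + g + 1 - n - t j))) /
        (-(2 * I * Real.pi)))) := by
    refine h5.congr' ?_
    have h7 : ∀ᶠ q in 𝓝[≠] ξ, NodeL08_E (N + g) q ∈ ({0}ᶜ : Set ℂ) :=
      (NodeL08_Et (N + g) hM0).eventually self_mem_nhdsWithin
    filter_upwards [hq0, h7] with q hq hE
    have he' : NodeL08_E (N + g) q ≠ 0 := hE
    have hB := NodeL08_B (N + g) hM0 (NodeL08_E (N + g) q)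
    rw [NodeL08_QE (N + g) hM0 q hq] at hB
    simp only [Function.comp, Pi.div_apply, slope, vsub_eq_sub, smul_eq_mul, sub_zero,
      m1, mul_zero, Complex.sin_zero, neg_zero]
    rw [mul_div_mul_left _ _ (inv_ne_zero he'), hB]
  -- the prefactor
  have hbr : ∀ i : ℕ, Tendsto (fun q => br q ((i : ℤ) + 1)) (𝓝[≠] ξ)
      (𝓝 (I * (sg (N + g) (i + 1) : ℂ))) := by
    intro i
    have h8 : br ξ ((i : ℤ) + 1) = I * (sg (N + g) (i + 1) : ℂ) := by
      have := NodeL08_br_at (N + g) (i + 1)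
      rw [hξ, ← this]
      push_cast
      rfl
    have := NodeL08_br_cont ξ hξ0 ((i : ℤ) + 1)
    rwa [h8] at this
  have g1 : Tendsto (fun q => ∏ i ∈ Finset.range (n - 1), br q ((i : ℤ) + 1)) (𝓝[≠] ξ)
      (𝓝 (∏ i ∈ Finset.range (n - 1), (I * (sg (N + g) (i + 1) : ℂ)))) :=
    tendsto_finsetProd _ fun i _ => hbr i
  have g2 : Tendsto (fun q => ∏ i ∈ Finset.range (n - 2), br q ((i : ℤ) + 1)) (𝓝[≠] ξ)
      (𝓝 (∏ i ∈ Finset.range (n - 2), (I * (sg (N + g) (i + 1) : ℂ)))) :=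
    tendsto_finsetProd _ fun i _ => hbr i
  have g3 := dimS_lim n g N hn hg hgn hN
  have g3' : Tendsto (fun q => dimS n N q / br q ((N + g : ℕ) : ℤ)) (𝓝[≠] ξ)
      (𝓝 (I * (-1) ^ (n + g) * (S (N + g) (n - g - 1) : ℂ) * (S (N + g) (g - 1) : ℂ) /
        (S (N + g) (n - 1) : ℂ))) := by
    have h8 : ((N + g : ℕ) : ℤ) = (N : ℤ) + g := by push_cast; rfl
    rw [h8]
    exact g3
  have g0 : Tendsto (fun q => I * exp (b * (Real.pi * I / 2 -
      Real.pi * I * (1 + NodeL08_E (N + g) q) / (4 * ((N + g : ℕ) : ℂ))))) (𝓝[≠] ξ)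
      (𝓝 (I * exp (b * (Real.pi * I / 2 - Real.pi * I * (1 + 0) /
        (4 * ((N + g : ℕ) : ℂ)))))) := by
    have hc : ContinuousAt (fun e : ℂ => I * exp (b * (Real.pi * I / 2 -
      Real.pi * I * (1 + e) / (4 * ((N + g : ℕ) : ℂ))))) 0 := by fun_prop
    exact hc.tendsto.comp ((NodeL08_Et (N + g) hM0).mono_right nhdsWithin_le_nhds)
  have e1 : (S (N + g) (n - 1) : ℂ) ≠ 0 := by
    exact_mod_cast (S_pos (by omega : n - 1 < N + g)).ne'
  have e2 : (S (N + g) (n - g - 1) : ℂ) ≠ 0 := by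
    exact_mod_cast (S_pos (by omega : n - g - 1 < N + g)).ne'
  have e3 : (S (N + g) (g - 1) : ℂ) ≠ 0 := by
    exact_mod_cast (S_pos (by omega : g - 1 < N + g)).ne'
  have e5 : ∀ k : ℕ, k < N + g → (∏ i ∈ Finset.range k, (I * (sg (N + g) (i + 1) : ℂ))) ≠ 0 := by
    intro k hk
    refine Finset.prod_ne_zero_iff.2 fun u hu => ?_
    have hu' := Finset.mem_range.1 hu
    refine mul_ne_zero Complex.I_ne_zero ?_
    exact_mod_cast (sg_pos (by omega : 1 ≤ u + 1) (by omega : u + 1 < N + g)).ne'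
  have g4 := ((g1.mul g2).mul g3').inv₀ (by
    refine mul_ne_zero (mul_ne_zero (e5 _ (by omega)) (e5 _ (by omega))) ?_
    refine div_ne_zero ?_ e1
    exact mul_ne_zero (mul_ne_zero (mul_ne_zero Complex.I_ne_zero
      (pow_ne_zero _ (by norm_num))) e2) e3)
  have g5 := h6.mul (g0.mul g4)
  rw [R_NodeS_const b n g N hn hg hgn hN] at g5
  refine g5.congr' ?_
  filter_upwards [hq0, NodeL08_br_ne' (N + g) hM0 (N + g) (by omega) (by omega)]
    with q hq hq2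
  exact (R_NodeS_NF b n g N hn hg hgn hτ hac L s A t q hq hq2).symm

end Pool.Agent.S4
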