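import Pool.Agent.S4.Root
import Pool.Agent.H63.VC8.Swap8

/-! # The restricted state sum as a sum over the edges -/

namespace Pool.Agent.S4

open Pool.Agent.H63.VC hiding ext
open Pool.Agent.H63.VC3 Pool.Agent.H63.VC7 Pool.Agent.H63.VC8 Pool.Agent.H63.VC11
open Pool.Agent.H63.VC12 Complex Filter Topology

variable {m : ℕ}

theorem R_Swap_pa_zero (q : ℂ) (n t X : ℕ) (h : X < t) : pa q n t X = 0 := by
  unfold pa
  refine Finset.prod_eq_zero (Finset.mem_range.2 h) ?_
  simp [br]

/-- The factor of an end of an edge. -/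
noncomputable def R_Swap_g (n : ℕ) (a : ℤ) (q : ℂ) (P e : Bool) (t X : ℕ) : ℂ :=
  sl4 n a q P t X * (if P = false ∧ e = true then Ca n a q X else 1)

theorem R_Swap_cut (q : ℂ) (n N L X : ℕ) (hL : L ≤ N) (hX : X ≤ L) (f : ℕ → ℂ) :
    ∑ t ∈ Finset.range (N + 1), f t * pa q n t X =
      ∑ t ∈ Finset.range (L + 1), f t * pa q n t X := by
  symm
  refine Finset.sum_subset (Finset.range_subset_range.2 (by omega)) fun t _ ht => ?_
  have ht' : X < t := by
    rw [Finset.mem_range] at ht
    omega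
  rw [R_Swap_pa_zero q n t X ht', mul_zero]

theorem R_Swap_six (n : ℕ) (q : ℂ) (N : ℕ) (a : ℤ) (j l : ℕ) :
    six n q N a j l = ∑ t ∈ Finset.range (N + 1),
      E4 n N a q true t * (ps q a t j * Ca n a q l) * pa q n t l := by
  unfold six
  rw [Finset.mul_sum]
  refine Finset.sum_congr rfl fun t _ => ?_
  unfold E4 Ca
  simp only [if_true]
  ring

theorem R_Swap_sixn (n : ℕ) (q : ℂ) (N : ℕ) (a : ℤ) (k l : ℕ) :
    sixn n q N k l = ∑ t ∈ Finset.range (N + 1),
      E4 n N a q false t * pa q n t k * pa q n t l := by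
  rw [Swap8_sixn]
  refine Finset.sum_congr rfl fun t _ => ?_
  have h1 : E8 n N q t = E4 n N a q false t := by
    unfold E8 E4
    simp
  have h2 : ∀ X, pw8 n q t X = pa q n t X := fun X => rfl
  rw [h1, h2, h2]
  ring

theorem R_Swap_ker (n : ℕ) (q : ℂ) (N L : ℕ) (hL : L ≤ N) (a : ℤ) (p p' : Bool)
    (hp : ¬ (p = true ∧ p' = true)) (X Y : ℕ) (hX : p = false → X ≤ L)
    (hY : p' = false → Y ≤ L) :
    ker n q N a p p' X Y = ∑ t ∈ Finset.range (L + 1), E4 n N a q (p || p') t *
      (R_Swap_g n a q p (p || p') t X * R_Swap_g n a q p' (p || p') t Y) := by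
  cases p <;> cases p'
  · change sixn n q N X Y = _
    rw [R_Swap_sixn n q N a, R_Swap_cut q n N L Y hL (hY rfl)]
    refine Finset.sum_congr rfl fun t _ => ?_
    simp [R_Swap_g, sl4]
    ring
  · change six n q N a Y X = _
    rw [R_Swap_six, R_Swap_cut q n N L X hL (hX rfl)]
    refine Finset.sum_congr rfl fun t _ => ?_
    simp [R_Swap_g, sl4]
    ring
  · change six n q N a X Y = _
    rw [R_Swap_six, R_Swap_cut q n N L Y hL (hY rfl)]
    refine Finset.sum_congr rfl fun t _ => ?_
    simp [R_Swap_g, sl4]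
    ring
  · exact absurd ⟨rfl, rfl⟩ hp

theorem R_Swap_node (n : ℕ) (a : ℤ) (q : ℂ) (P : Fin (m + 1) → Bool) (i : Fin (m + 1))
    (t : Fin m → ℕ) (X : ℕ) :
    ∏ j ∈ ie i, R_Swap_g n a q (P i) (et P j) (t j) X =
      (if P i then 1 else Ca n a q X ^ sn P i) * ∏ j ∈ ie i, sl4 n a q (P i) (t j) X := by
  unfold R_Swap_g
  rw [Finset.prod_mul_distrib, mul_comm]
  congr 1
  cases h : P i
  · simp only [true_and]
    rw [Finset.prod_ite, Finset.prod_const, Finset.prod_const_one, mul_one]
    simp [sn]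
  · simp

theorem R_Swap_sum (n : ℕ) (q : ℂ) (N L : ℕ) (hL : L ≤ N) (P : Bool) (b : ℤ) (f : ℕ → ℂ) :
    ∑ X ∈ Finset.range (N + 1), vwc n q N L P b X * f X =
      ∑ X ∈ Finset.range ((if P then N else L) + 1), vw n q N P b X * f X := by
  cases P
  · simp only [Bool.false_eq_true, if_false]
    symm
    have h : ∑ X ∈ Finset.range (L + 1), vw n q N false b X * f X =
        ∑ X ∈ Finset.range (L + 1), vwc n q N L false b X * f X := by
      refine Finset.sum_congr rfl fun X hX => ?_
      rw [Finset.mem_range] at hX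
      unfold vwc
      rw [if_neg (by omega)]
    rw [h]
    refine Finset.sum_subset (Finset.range_subset_range.2 (by omega)) fun X _ hX => ?_
    rw [Finset.mem_range] at hX
    unfold vwc
    rw [if_pos ⟨rfl, by omega⟩, zero_mul]
  · simp only [if_true]
    refine Finset.sum_congr rfl fun X _ => ?_
    unfold vwc
    simp

theorem mixc_swap (n : ℕ) (q : ℂ) (N L : ℕ) (hL : L ≤ N) (a : ℤ) (P : Fin (m + 1) → Bool)
    (hP : ∀ j : Fin m, ¬ (P j.castSucc = true ∧ P j.succ = true)) (b : Fin (m + 1) → ℤ) :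
    mixc n q N L a P b = ∑ t ∈ Fintype.piFinset (fun _ : Fin m => Finset.range (L + 1)),
      (∏ j, E4 n N a q (et P j) (t j)) *
        ∏ i, NF4 n N L a q (P i) (b i) (sn P i) (ie i) t := by
  have hst : ∀ j : Fin m, Fin.castSucc (n := m) j ≠ Fin.succ j := fun j =>
    (Fin.castSucc_lt_succ (i := j)).ne
  have h1 : ∀ X : Fin (m + 1) → ℕ, (∏ i, vwc n q N L (P i) (b i) (X i)) *
      ∏ j : Fin m, ker n q N a (P j.castSucc) (P j.succ) (X j.castSucc) (X j.succ) =
      ∑ t ∈ Fintype.piFinset (fun _ : Fin m => Finset.range (L + 1)),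
        (∏ j, E4 n N a q (et P j) (t j)) * ∏ i, (vwc n q N L (P i) (b i) (X i) *
          ((if P i then 1 else Ca n a q (X i) ^ sn P i) *
            ∏ j ∈ ie i, sl4 n a q (P i) (t j) (X i))) := by
    intro X
    have h2 : ∀ t : Fin m → ℕ, ∏ i, (vwc n q N L (P i) (b i) (X i) *
          ((if P i then 1 else Ca n a q (X i) ^ sn P i) *
            ∏ j ∈ ie i, sl4 n a q (P i) (t j) (X i))) =
        (∏ i, vwc n q N L (P i) (b i) (X i)) * ∏ i, ∏ j ∈ ie i,
          R_Swap_g n a q (P i) (et P j) (t j) (X i) := by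
      intro t
      rw [Finset.prod_mul_distrib]
      congr 1
      exact Finset.prod_congr rfl fun i _ => (R_Swap_node n a q P i t (X i)).symm
    simp only [h2]
    by_cases h0 : ∀ i, P i = false → X i ≤ L
    · have h3 : ∏ j : Fin m, ker n q N a (P j.castSucc) (P j.succ) (X j.castSucc) (X j.succ) =
          ∑ t ∈ Fintype.piFinset (fun _ : Fin m => Finset.range (L + 1)),
            (∏ j, E4 n N a q (et P j) (t j)) * ∏ i, ∏ j ∈ ie i,
              R_Swap_g n a q (P i) (et P j) (t j) (X i) := by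
        have h4 : ∀ j : Fin m,
            ker n q N a (P j.castSucc) (P j.succ) (X j.castSucc) (X j.succ) =
            ∑ t ∈ Finset.range (L + 1), E4 n N a q (et P j) t *
              (R_Swap_g n a q (P j.castSucc) (et P j) t (X j.castSucc) *
                R_Swap_g n a q (P j.succ) (et P j) t (X j.succ)) := fun j =>
          R_Swap_ker n q N L hL a _ _ (hP j) _ _ (h0 _) (h0 _)
        rw [Finset.prod_congr rfl fun j _ => h4 j, Finset.prod_univ_sum]
        refine Finset.sum_congr rfl fun t _ => ?_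
        rw [Finset.prod_mul_distrib]
        congr 1
        exact (prod_inc (Fin.castSucc (n := m)) Fin.succ hst
          (fun i j => R_Swap_g n a q (P i) (et P j) (t j) (X i))).symm
      rw [h3, Finset.mul_sum]
      exact Finset.sum_congr rfl fun t _ => by ring
    · have h5 : ∏ i, vwc n q N L (P i) (b i) (X i) = 0 := by
        push Not at h0
        obtain ⟨i, hi, hi'⟩ := h0
        refine Finset.prod_eq_zero (Finset.mem_univ i) ?_
        unfold vwc
        rw [if_pos ⟨hi, hi'⟩]
      simp [h5]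
  unfold mixc
  simp only [h1]
  rw [Finset.sum_comm]
  refine Finset.sum_congr rfl fun t _ => ?_
  rw [← Finset.mul_sum]
  congr 1
  have h6 : ∀ i, NF4 n N L a q (P i) (b i) (sn P i) (ie i) t =
      ∑ X ∈ Finset.range (N + 1), vwc n q N L (P i) (b i) X *
        ((if P i then 1 else Ca n a q X ^ sn P i) * ∏ j ∈ ie i, sl4 n a q (P i) (t j) X) :=
    fun i => (R_Swap_sum n q N L hL (P i) (b i) _).symm
  rw [Finset.prod_congr rfl fun i _ => h6 i, Finset.prod_univ_sum]

end Pool.Agent.S4
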