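import Pool.Agent.S4.B.Mix
import Pool.Agent.S4.R.Hyb
import Pool.Agent.S4.R.NodeA
import Pool.Agent.S4.R.NodeS
import Pool.Agent.S4.R.Swap

/-! # The limit at the roots of unity -/

namespace Pool.Agent.S4

open Pool.Agent.H63.VC hiding ext
open Pool.Agent.H63.VC3 Pool.Agent.H63.VC7 Pool.Agent.H63.VC8 Pool.Agent.H63.VC11
open Pool.Agent.H63.VC12 Complex Filter Topology

variable {m p : ℕ}

/-- No two adjacent twist regions have parallel strands. -/
private theorem R_Fin_adj : ∀ (m : ℕ) (s : ℤ) (P : Fin (m + 1) → Bool) (b : Fin (m + 1) → ℤ)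
    (_ : OkL s (List.ofFn fun i => (P i, b i))) (j : Fin m),
    ¬ (P j.castSucc = true ∧ P j.succ = true)
  | 0, _, _, _, _, j => j.elim0
  | m + 1, s, P, b, h, j => by
    rw [List.ofFn_succ] at h
    have hrec : ∃ s', OkL s' (List.ofFn fun i : Fin (m + 1) => (P i.succ, b i.succ)) := by
      cases hP : P 0 with
      | false => rw [hP] at h; exact ⟨0, h.2⟩
      | true => rw [hP] at h; exact ⟨_, h.2.2⟩
    obtain ⟨s', h'⟩ := hrec
    refine Fin.cases ?_ (fun j' => ?_) j
    · rintro ⟨h1, h2⟩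
      rw [Fin.castSucc_zero] at h1
      rw [h1] at h
      refine h.2.1 (b 1) (List.ofFn fun i : Fin m => (P i.succ.succ, b i.succ.succ)) ?_
      rw [List.ofFn_succ]
      have h3 : P (Fin.succ 0) = true := h2
      rw [h3]
      rfl
    · have := R_Fin_adj m s' (fun i => P i.succ) (fun i => b i.succ) h' j'
      simpa only [Fin.castSucc_succ] using this

private theorem R_Fin_isA {n N g h : ℕ} {a : ℤ} (ha : IsH n N g h a) : IsA n N a := by
  rcases ha with ⟨_, _, h3⟩ | ⟨_, _, h3⟩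
  · exact Or.inl h3
  · exact Or.inr h3

/-- The contribution of a slot to the constant. -/
private noncomputable def R_Fin_hf (P : Fin (m + 1) → Bool) (n h M : ℕ) (t : Fin m → ℕ)
    (i : Fin (m + 1)) (j : Fin m) : ℂ :=
  if P i then (M : ℂ) else (-1) ^ (t j) * (M : ℂ) *
    (if et P j then (S M (h - 1) : ℂ) / (S M (n - h - 1) : ℂ) else 1)

private theorem R_Fin_node (P : Fin (m + 1) → Bool) (b : Fin (m + 1) → ℤ) (n g N : ℕ)
    (hn : 2 ≤ n) (hg : 1 ≤ g) (hgn : g < n) (hN : n ≤ N) {h : ℕ} {a : ℤ}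
    (ha : IsH n N g h a) (t : Fin m → ℕ) (ht : ∀ j, t j + n ≤ N + g + 1) (i : Fin (m + 1)) :
    Tendsto (fun q => NF4 n N (N + g + 1 - n) a q (P i) (b i) (sn P i) (ie i) t)
      (𝓝[≠] (q0 (N + g)))
      (𝓝 (cst n g (N + g) (P i) (b i) * (∏ j ∈ ie i, R_Fin_hf P n h (N + g) t i j) *
        DG4 ((b i : ℝ) / 2) n h (N + g) (P i) (sn P i) (ie i) (fun j => N + g + 1 - n - t j))) := by
  cases hP : P i with
  | true =>
    have h1 := nodeS_lim (b i) n g N hn hg hgn hN ha (N + g + 1 - n) (sn P i) (ie i) t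
      (fun j _ => ht j)
    have e : ∏ j ∈ ie i, R_Fin_hf P n h (N + g) t i j = ∏ _j ∈ ie i, ((N + g : ℕ) : ℂ) := by
      refine Finset.prod_congr rfl fun j _ => ?_
      simp [R_Fin_hf, hP]
    rw [e]
    exact h1
  | false =>
    have h1 := nodeA_lim (b i) n g N hn hg hgn hN ha (sn P i) (ie i) t (fun j _ => ht j)
    have e : ∏ j ∈ ie i, R_Fin_hf P n h (N + g) t i j =
        ((S (N + g) (h - 1) : ℂ) / (S (N + g) (n - h - 1) : ℂ)) ^ (sn P i) *
          ∏ j ∈ ie i, ((-1) ^ (t j) * ((N + g : ℕ) : ℂ)) := by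
      have e1 : ∏ j ∈ ie i, R_Fin_hf P n h (N + g) t i j =
          ∏ j ∈ ie i, (((-1) ^ (t j) * ((N + g : ℕ) : ℂ)) *
            (if et P j then (S (N + g) (h - 1) : ℂ) / (S (N + g) (n - h - 1) : ℂ) else 1)) := by
        refine Finset.prod_congr rfl fun j _ => ?_
        unfold R_Fin_hf
        rw [if_neg (by rw [hP]; exact Bool.false_ne_true)]
      rw [e1, Finset.prod_mul_distrib, Finset.prod_ite, Finset.prod_const, Finset.prod_const_one,
        mul_one, mul_comm]
      rfl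
    rw [e, ← mul_assoc]
    exact h1

/-- The limit of the weight of an edge. -/
private noncomputable def R_Fin_el (P : Fin (m + 1) → Bool) (n g h M : ℕ) (t : Fin m → ℕ)
    (j : Fin m) : ℂ :=
  if et P j then (-1) ^ (t j) * (S M (n - 2) : ℂ) * (S M (n - h - 1) : ℂ) ^ 2 / (M : ℂ) ^ 4 *
      (w4 n h true M (M + 1 - n - t j) : ℂ)
  else (Dg n g M : ℂ) / (M : ℂ) ^ 4 * (w4 n h false M (M + 1 - n - t j) : ℂ)

private theorem R_Fin_edge (P : Fin (m + 1) → Bool) (n g N : ℕ) (hn : 2 ≤ n) (hg : 1 ≤ g)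
    (hgn : g < n) (hN : n ≤ N) {h : ℕ} {a : ℤ} (ha : IsH n N g h a) (t : Fin m → ℕ)
    (ht : ∀ j, t j + n ≤ N + g + 1) (j : Fin m) :
    Tendsto (fun q => E4 n N a q (et P j) (t j)) (𝓝[≠] (q0 (N + g)))
      (𝓝 (R_Fin_el P n g h (N + g) t j)) := by
  unfold R_Fin_el
  cases he : et P j with
  | true =>
    rw [if_pos rfl]
    exact E4_true n g N (t j) hn hg hgn hN ha (ht j)
  | false =>
    rw [if_neg Bool.false_ne_true]
    exact E4_false n g N (t j) hn hg hgn hN ha (ht j)

private theorem R_Fin_const (P : Fin (m + 1) → Bool)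
    (hP : ∀ j : Fin m, ¬ (P j.castSucc = true ∧ P j.succ = true)) (n g N : ℕ)
    (hgn : g < n) (hg : 1 ≤ g) (hN : n ≤ N) {h : ℕ} {a : ℤ} (ha : IsH n N g h a) (t : Fin m → ℕ)
    (j : Fin m) :
    R_Fin_el P n g h (N + g) t j * (R_Fin_hf P n h (N + g) t j.castSucc j *
      R_Fin_hf P n h (N + g) t j.succ j) =
    (Dg n g (N + g) : ℂ) / ((N + g : ℕ) : ℂ) ^ 2 *
      (w4 n h (et P j) (N + g) (N + g + 1 - n - t j) : ℂ) := by
  have hM : ((N + g : ℕ) : ℂ) ≠ 0 := by exact_mod_cast (by omega : N + g ≠ 0)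
  have hS : (S (N + g) (n - h - 1) : ℂ) ≠ 0 := by
    have := S_pos (M := N + g) (k := n - h - 1) (by omega)
    exact_mod_cast this.ne'
  have hD : (Dg n g (N + g) : ℂ) = (S (N + g) (h - 1) : ℂ) * (S (N + g) (n - h - 1) : ℂ) *
      (S (N + g) (n - 2) : ℂ) := by
    unfold Dg
    rcases ha with ⟨h1, _, _⟩ | ⟨h1, _, _⟩
    · subst h1
      push_cast
      ring
    · have e1 : n - g - 1 = h - 1 := by omega
      have e2 : n - h - 1 = g - 1 := by omega
      rw [e1, e2]
      push_cast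
      ring
  have hs : ((-1 : ℂ) ^ (t j)) * (-1) ^ (t j) = 1 := by
    rw [← mul_pow]
    norm_num
  unfold R_Fin_el R_Fin_hf
  rw [hD]
  cases h1 : P j.castSucc with
  | true =>
    cases h2 : P j.succ with
    | true => exact absurd ⟨h1, h2⟩ (hP j)
    | false =>
      have he : et P j = true := by simp [et, h1]
      rw [he]
      simp only [if_true, Bool.false_eq_true, if_false]
      generalize (S (N + g) (n - h - 1) : ℂ) = A at hS ⊢
      generalize (S (N + g) (h - 1) : ℂ) = B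
      generalize (S (N + g) (n - 2) : ℂ) = C
      generalize ((w4 n h true (N + g) (N + g + 1 - n - t j) : ℝ) : ℂ) = w
      generalize ((N + g : ℕ) : ℂ) = M at hM ⊢
      field_simp
      linear_combination (B * C * w) * hs
  | false =>
    cases h2 : P j.succ with
    | true =>
      have he : et P j = true := by simp [et, h2]
      rw [he]
      simp only [if_true, Bool.false_eq_true, if_false]
      generalize (S (N + g) (n - h - 1) : ℂ) = A at hS ⊢
      generalize (S (N + g) (h - 1) : ℂ) = B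
      generalize (S (N + g) (n - 2) : ℂ) = C
      generalize ((w4 n h true (N + g) (N + g + 1 - n - t j) : ℝ) : ℂ) = w
      generalize ((N + g : ℕ) : ℂ) = M at hM ⊢
      field_simp
      linear_combination (B * C * w) * hs
    | false =>
      have he : et P j = false := by simp [et, h1, h2]
      rw [he]
      simp only [Bool.false_eq_true, if_false]
      generalize (S (N + g) (n - h - 1) : ℂ) = A at hS ⊢
      generalize (S (N + g) (h - 1) : ℂ) = B
      generalize (S (N + g) (n - 2) : ℂ) = C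
      generalize ((w4 n h false (N + g) (N + g + 1 - n - t j) : ℝ) : ℂ) = w
      generalize ((N + g : ℕ) : ℂ) = M at hM ⊢
      field_simp
      linear_combination (B * C * w) * hs

/-- Reindexing of the limit. -/
private theorem R_Fin_sum (P : Fin (m + 1) → Bool)
    (hP : ∀ j : Fin m, ¬ (P j.castSucc = true ∧ P j.succ = true)) (b : Fin (m + 1) → ℤ)
    (n g N : ℕ) (hgn : g < n) (hg : 1 ≤ g) (hN : n ≤ N) {h : ℕ} {a : ℤ}
    (ha : IsH n N g h a) :
    ∑ t ∈ Fintype.piFinset (fun _ : Fin m => Finset.range (N + g + 1 - n + 1)),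
      (∏ j, R_Fin_el P n g h (N + g) t j) *
        ∏ i, (cst n g (N + g) (P i) (b i) * (∏ j ∈ ie i, R_Fin_hf P n h (N + g) t i j) *
          DG4 ((b i : ℝ) / 2) n h (N + g) (P i) (sn P i) (ie i)
            (fun j => N + g + 1 - n - t j)) =
    (∏ i, cst n g (N + g) (P i) (b i)) *
        ((Dg n g (N + g) : ℂ) / ((N + g : ℕ) : ℂ) ^ 2) ^ m *
        JG4 P (fun i => (b i : ℝ) / 2) n h (N + g) := by
  unfold JG4
  rw [Finset.mul_sum]
  refine Finset.sum_bij' (fun k _ => fun j => N + g + 1 - n - k j)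
    (fun k _ => fun j => N + g + 1 - n - k j) ?_ ?_ ?_ ?_ ?_
  · intro k _
    rw [Fintype.mem_piFinset]
    intro j
    rw [Finset.mem_range]
    omega
  · intro k _
    rw [Fintype.mem_piFinset]
    intro j
    rw [Finset.mem_range]
    omega
  · intro k hk
    rw [Fintype.mem_piFinset] at hk
    funext j
    have := Finset.mem_range.1 (hk j)
    show N + g + 1 - n - (N + g + 1 - n - k j) = k j
    omega
  · intro k hk
    rw [Fintype.mem_piFinset] at hk
    funext j
    have := Finset.mem_range.1 (hk j)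
    show N + g + 1 - n - (N + g + 1 - n - k j) = k j
    omega
  · intro t _
    have hst : ∀ j : Fin m, Fin.castSucc j ≠ Fin.succ j := fun j => (Fin.castSucc_lt_succ).ne
    rw [Finset.prod_mul_distrib, Finset.prod_mul_distrib]
    have e0 : ∏ i, ∏ j ∈ ie i, R_Fin_hf P n h (N + g) t i j =
        ∏ j, (R_Fin_hf P n h (N + g) t (Fin.castSucc j) j *
          R_Fin_hf P n h (N + g) t (Fin.succ j) j) :=
      prod_inc Fin.castSucc Fin.succ hst (R_Fin_hf P n h (N + g) t)
    rw [e0]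
    have e1 : (∏ j, R_Fin_el P n g h (N + g) t j) *
        ∏ j, (R_Fin_hf P n h (N + g) t (Fin.castSucc j) j *
          R_Fin_hf P n h (N + g) t (Fin.succ j) j) =
        ((Dg n g (N + g) : ℂ) / ((N + g : ℕ) : ℂ) ^ 2) ^ m *
          ∏ j, (w4 n h (et P j) (N + g) (N + g + 1 - n - t j) : ℂ) := by
      have e3 : ((Dg n g (N + g) : ℂ) / ((N + g : ℕ) : ℂ) ^ 2) ^ m =
          ∏ _j : Fin m, ((Dg n g (N + g) : ℂ) / ((N + g : ℕ) : ℂ) ^ 2) := by
        rw [Finset.prod_const, Finset.card_univ, Fintype.card_fin]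
      rw [e3, ← Finset.prod_mul_distrib, ← Finset.prod_mul_distrib]
      exact Finset.prod_congr rfl fun j _ => R_Fin_const P hP n g N hgn hg hN ha t j
    calc _ = ((∏ j, R_Fin_el P n g h (N + g) t j) *
        ∏ j, (R_Fin_hf P n h (N + g) t (Fin.castSucc j) j *
          R_Fin_hf P n h (N + g) t (Fin.succ j) j)) *
          ((∏ i, cst n g (N + g) (P i) (b i)) *
            ∏ i, DG4 ((b i : ℝ) / 2) n h (N + g) (P i) (sn P i) (ie i)
              (fun j => N + g + 1 - n - t j)) := by ring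
      _ = _ := by
        rw [e1]
        ring

theorem root_lim4 (P : Fin (m + 1) → Bool) (b : Fin (m + 1) → ℤ)
    (hP : OkL 0 (List.ofFn fun i => (P i, b i))) (n g N : ℕ) (hn : 2 ≤ n) (hg : 1 ≤ g)
    (hgn : g < n) (hN : n ≤ N) {h : ℕ} {a : ℤ} (ha : IsH n N g h a) :
    Tendsto (fun q => mix n q N a P b) (𝓝[≠] (q0 (N + g)))
      (𝓝 ((∏ i, cst n g (N + g) (P i) (b i)) *
        ((Dg n g (N + g) : ℂ) / ((N + g : ℕ) : ℂ) ^ 2) ^ m *
        JG4 P (fun i => (b i : ℝ) / 2) n h (N + g))) := by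
  have hadj := R_Fin_adj m 0 P b hP
  have h1 := hybrid hn hg hgn hN (L := N + g + 1 - n) (by omega) (R_Fin_isA ha) P b hP
  have h2 : Tendsto (fun q => mixc n q N (N + g + 1 - n) a P b) (𝓝[≠] (q0 (N + g)))
      (𝓝 ((∏ i, cst n g (N + g) (P i) (b i)) *
        ((Dg n g (N + g) : ℂ) / ((N + g : ℕ) : ℂ) ^ 2) ^ m *
        JG4 P (fun i => (b i : ℝ) / 2) n h (N + g))) := by
    rw [← R_Fin_sum P hadj b n g N hgn hg hN ha]
    have e : (fun q => mixc n q N (N + g + 1 - n) a P b) = fun q =>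
        ∑ t ∈ Fintype.piFinset (fun _ : Fin m => Finset.range (N + g + 1 - n + 1)),
          (∏ j, E4 n N a q (et P j) (t j)) *
            ∏ i, NF4 n N (N + g + 1 - n) a q (P i) (b i) (sn P i) (ie i) t := by
      funext q
      exact mixc_swap n q N (N + g + 1 - n) (by omega) a P hadj b
    rw [e]
    refine tendsto_finsetSum _ fun t ht => ?_
    rw [Fintype.mem_piFinset] at ht
    have ht' : ∀ j, t j + n ≤ N + g + 1 := fun j => by
      have := Finset.mem_range.1 (ht j)
      omega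
    refine Tendsto.mul ?_ ?_
    · exact tendsto_finsetProd _ fun j _ => R_Fin_edge P n g N hn hg hgn hN ha t ht' j
    · exact tendsto_finsetProd _ fun i _ => R_Fin_node P b n g N hn hg hgn hN ha t ht' i
  have h3 := h1.add h2
  rw [zero_add] at h3
  refine h3.congr fun q => ?_
  ring

/-- The colored invariants at the roots of unity. -/
theorem coloredSU_lim (P : Fin (m + 1) → Bool) (b : Fin (m + 1) → ℤ)
    (hP : OkL 0 (List.ofFn fun i => (P i, b i))) (r : Fin (p + 1) → ℤ)
    (hr : List.ofFn r = exr 0 (List.ofFn fun i => (P i, b i))) (n g N : ℕ) (hn : 2 ≤ n)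
    (hg : 1 ≤ g) (hgn : g < n) (hN : n ≤ N) :
    Tendsto (fun q => coloredSU (diagram Fin.castSucc r) n N q)
      (𝓝[≠] (exp (Real.pi * I / (N + g))))
      (𝓝 (ka (q0 (N + g)) n N ^ (-∑ i, if P i then b i else 0) *
        ((∏ i, cst n g (N + g) (P i) (b i)) *
        ((Dg n g (N + g) : ℂ) / ((N + g : ℕ) : ℂ) ^ 2) ^ m *
        JG4 P (fun i => (b i : ℝ) / 2) n (min g (n - g)) (N + g)))) := by
  have e : exp (Real.pi * I / (N + g)) = q0 (N + g) := by
    unfold q0
    push_cast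
    rfl
  rw [e]
  obtain ⟨a, ha⟩ : ∃ a, IsH n N g (min g (n - g)) a := by
    rcases Nat.lt_or_ge n (2 * g) with h | h
    · exact ⟨-(N : ℤ), Or.inr ⟨by omega, h, rfl⟩⟩
    · exact ⟨(N : ℤ) + n, Or.inl ⟨by omega, h, rfl⟩⟩
  have h1 := root_lim4 P b hP n g N hn hg hgn hN ha
  have hq0 : q0 (N + g) ≠ 0 := exp_ne_zero _
  have h2 : Tendsto (fun q => ka q n N ^ (-∑ i, if P i then b i else 0)) (𝓝[≠] (q0 (N + g)))
      (𝓝 (ka (q0 (N + g)) n N ^ (-∑ i, if P i then b i else 0))) := by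
    have hka : ka (q0 (N + g)) n N ≠ 0 := by
      unfold ka
      exact mul_ne_zero (pow_ne_zero _ (by norm_num)) (zpow_ne_zero _ hq0)
    have hc : ContinuousAt (fun q => ka q n N) (q0 (N + g)) := by
      unfold ka
      exact continuousAt_const.mul (continuousAt_id.zpow₀ _ (Or.inl hq0))
    exact (hc.zpow₀ _ (Or.inl hka)).tendsto.mono_left nhdsWithin_le_nhds
  refine (h2.mul h1).congr' ?_
  filter_upwards [Ev11_gen _ n N] with q hq
  exact (coloredSU_mix hq hn (R_Fin_isA ha) P b hP r hr).symm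

end Pool.Agent.S4
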