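import Pool.Agent.H63.VC11.Ev11
import Pool.Agent.H63.VC12.Tb12
import Pool.Agent.S4.Root

/-! # Families of functions with bounded coefficients -/

namespace Pool.Agent.S4

open Pool.Agent.H63.VC hiding ext
open Pool.Agent.H63.VC3 Pool.Agent.H63.VC7 Pool.Agent.H63.VC8 Pool.Agent.H63.VC11
open Pool.Agent.H63.VC12 Complex Filter Topology

variable {n N g : ℕ}

theorem RA.congr {x : ℂ} {F G : ℂ → ℕ → ℂ} (h : RA n N x F)
    (hG : ∀ᶠ q in 𝓝[≠] x, ∀ X ≤ N, G q X = F q X) : RA n N x G := by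
  obtain ⟨c, hc, hF⟩ := h
  refine ⟨c, hc, ?_⟩
  filter_upwards [hF, hG] with q h1 h2 X hX
  rw [h2 X hX, h1 X hX]

theorem R_RA_pa_zero (q : ℂ) (n X : ℕ) : pa q n 0 X = 1 := by simp [pa]

theorem R_RA_pa_lt (q : ℂ) (n t X : ℕ) (h : X < t) : pa q n t X = 0 := by
  unfold pa
  refine Finset.prod_eq_zero (Finset.mem_range.2 h) ?_
  rw [sub_self, Pool.Agent.H63.VC10.br_zero, mul_zero]

/-- A single slot factor. -/
theorem R_RA_slot (x : ℂ) (t : ℕ) : RA n N x fun q X => pa q n t X := by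
  by_cases ht : t ≤ N
  · refine ⟨fun _ s => if s = t then 1 else 0, fun s => ?_, ?_⟩
    · by_cases hs : s = t
      · simp only [if_pos hs]
        exact Asymptotics.isBigO_refl _ _
      · simp only [if_neg hs]
        exact Asymptotics.isBigO_zero _ _
    · refine Eventually.of_forall fun q X _ => ?_
      show pa q n t X = ∑ s ∈ Finset.range (N + 1), (if s = t then 1 else 0) * pa q n s X
      rw [Finset.sum_eq_single t]
      · rw [if_pos rfl, one_mul]
      · intro s _ hs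
        rw [if_neg hs, zero_mul]
      · intro h
        exact absurd (Finset.mem_range.2 (by omega)) h
  · refine ⟨fun _ _ => 0, fun s => Asymptotics.isBigO_zero _ _, ?_⟩
    refine Eventually.of_forall fun q X hX => ?_
    simp only [zero_mul, Finset.sum_const_zero]
    exact R_RA_pa_lt q n t X (by omega)

theorem RA.one (x : ℂ) : RA n N x fun _ _ => 1 := by
  refine (R_RA_slot x 0).congr (Eventually.of_forall fun q X _ => ?_)
  exact (R_RA_pa_zero q n X).symm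

theorem R_RA_zero (x : ℂ) : RA n N x fun _ _ => 0 := by
  refine ⟨fun _ _ => 0, fun s => Asymptotics.isBigO_zero _ _, ?_⟩
  refine Eventually.of_forall fun q X hX => ?_
  simp only [zero_mul, Finset.sum_const_zero]

theorem R_RA_add {x : ℂ} {F G : ℂ → ℕ → ℂ} (h : RA n N x F) (h' : RA n N x G) :
    RA n N x fun q X => F q X + G q X := by
  obtain ⟨c, hc, hF⟩ := h
  obtain ⟨d, hd, hG⟩ := h'
  refine ⟨fun q t => c q t + d q t, fun t => (hc t).add (hd t), ?_⟩
  filter_upwards [hF, hG] with q h1 h2 X hX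
  rw [h1 X hX, h2 X hX, ← Finset.sum_add_distrib]
  exact Finset.sum_congr rfl fun t _ => (add_mul _ _ _).symm

theorem R_RA_bmul {x : ℂ} {a b : ℂ → ℂ} (ha : a =O[𝓝[≠] x] (fun _ => (1 : ℂ)))
    (hb : b =O[𝓝[≠] x] (fun _ => (1 : ℂ))) :
    (fun q => a q * b q) =O[𝓝[≠] x] (fun _ => (1 : ℂ)) := by
  have := ha.mul hb
  simpa using this

theorem R_RA_smul {x : ℂ} {F : ℂ → ℕ → ℂ} {a : ℂ → ℂ}
    (ha : a =O[𝓝[≠] x] (fun _ => (1 : ℂ))) (h : RA n N x F) :
    RA n N x fun q X => a q * F q X := by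
  obtain ⟨c, hc, hF⟩ := h
  refine ⟨fun q t => a q * c q t, fun t => R_RA_bmul ha (hc t), ?_⟩
  filter_upwards [hF] with q h1 X hX
  rw [h1 X hX, Finset.mul_sum]
  exact Finset.sum_congr rfl fun t _ => (mul_assoc _ _ _).symm

theorem RA.sum {x : ℂ} {ι : Type*} (s : Finset ι) (c : ι → ℂ → ℂ) (F : ι → ℂ → ℕ → ℂ)
    (hc : ∀ i ∈ s, (fun q => c i q) =O[𝓝[≠] x] (fun _ => (1 : ℂ)))
    (hF : ∀ i ∈ s, RA n N x (F i)) : RA n N x fun q X => ∑ i ∈ s, c i q * F i q X := by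
  classical
  induction s using Finset.induction_on with
  | empty =>
    simp only [Finset.sum_empty]
    exact R_RA_zero x
  | insert i s hi ih =>
    have ih' := ih (fun j hj => hc j (Finset.mem_insert_of_mem hj))
      (fun j hj => hF j (Finset.mem_insert_of_mem hj))
    refine (R_RA_add (R_RA_smul (hc i (Finset.mem_insert_self i s))
      (hF i (Finset.mem_insert_self i s))) ih').congr (Eventually.of_forall fun q X _ => ?_)
    exact Finset.sum_insert hi

theorem R_RA_br_cont (x : ℂ) (hx : x ≠ 0) (a : ℤ) : ContinuousAt (fun q => br q a) x := by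
  unfold br
  exact (continuousAt_zpow₀ x a (Or.inl hx)).sub (continuousAt_zpow₀ x (-a) (Or.inl hx))

theorem R_RA_pa_cont (x : ℂ) (hx : x ≠ 0) (n t X : ℕ) :
    ContinuousAt (fun q => pa q n t X) x := by
  unfold pa
  refine tendsto_finsetProd _ fun i _ => ?_
  exact (R_RA_br_cont x hx _).mul (R_RA_br_cont x hx _)

theorem R_RA_cb {x : ℂ} {f : ℂ → ℂ} (hf : ContinuousAt f x) :
    f =O[𝓝[≠] x] (fun _ => (1 : ℂ)) :=
  (hf.tendsto.mono_left nhdsWithin_le_nhds).isBigO_one ℂ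

/-- The values are bounded. -/
theorem RA.bdd {x : ℂ} (hx : x ≠ 0) {F : ℂ → ℕ → ℂ} (h : RA n N x F) {X : ℕ} (hX : X ≤ N) :
    (fun q => F q X) =O[𝓝[≠] x] (fun _ => (1 : ℂ)) := by
  obtain ⟨c, hc, hF⟩ := h
  have h1 : (fun q => ∑ t ∈ Finset.range (N + 1), c q t * pa q n t X) =O[𝓝[≠] x]
      (fun _ => (1 : ℂ)) := by
    refine Asymptotics.IsBigO.fun_sum fun t _ => ?_
    exact R_RA_bmul (hc t) (R_RA_cb (R_RA_pa_cont x hx n t X))
  refine h1.congr' ?_ EventuallyEq.rfl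
  filter_upwards [hF] with q h2
  exact (h2 X hX).symm

/-- The function with which the slot factors are multiplied. -/
noncomputable def R_RA_Z (n : ℕ) (q : ℂ) (X : ℕ) : ℂ := br q X * br q ((X : ℤ) + n - 1)

theorem R_RA_brbr (q : ℂ) (hq : q ≠ 0) (a b : ℤ) :
    br q a * br q b = q ^ (a + b) + q ^ (-(a + b)) - q ^ (a - b) - q ^ (-(a - b)) := by
  have e1 : q ^ (a + b) = q ^ a * q ^ b := zpow_add₀ hq a b
  have e2 : q ^ (-(a + b)) = q ^ (-a) * q ^ (-b) := by
    rw [← zpow_add₀ hq]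
    congr 1
    ring
  have e3 : q ^ (a - b) = q ^ a * q ^ (-b) := by
    rw [← zpow_add₀ hq]
    congr 1
  have e4 : q ^ (-(a - b)) = q ^ (-a) * q ^ b := by
    rw [← zpow_add₀ hq]
    congr 1
    ring
  rw [e1, e2, e3, e4]
  unfold br
  ring

theorem R_RA_step (q : ℂ) (hq : q ≠ 0) (n t X : ℕ) :
    pa q n (t + 1) X = pa q n t X * (R_RA_Z n q X - R_RA_Z n q t) := by
  unfold pa
  rw [Finset.prod_range_succ]
  congr 1
  unfold R_RA_Z
  rw [R_RA_brbr q hq, R_RA_brbr q hq, R_RA_brbr q hq,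
    show (n : ℤ) + X + t - 1 + (X - t) = X + (X + n - 1) by ring,
    show (n : ℤ) + X + t - 1 - (X - t) = t + (t + n - 1) by ring,
    show (X : ℤ) - (X + n - 1) = 1 - n by ring, show (t : ℤ) - (t + n - 1) = 1 - n by ring]
  ring

theorem R_RA_Z_cont (x : ℂ) (hx : x ≠ 0) (n t : ℕ) :
    ContinuousAt (fun q => R_RA_Z n q t) x :=
  (R_RA_br_cont x hx _).mul (R_RA_br_cont x hx _)

theorem R_RA_ne {x : ℂ} (hx : x ≠ 0) : ∀ᶠ q in 𝓝[≠] x, q ≠ 0 :=
  (eventually_ne_nhds hx).filter_mono nhdsWithin_le_nhds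

theorem R_RA_mulZ {x : ℂ} (hx : x ≠ 0) {F : ℂ → ℕ → ℂ} (h : RA n N x F) :
    RA n N x fun q X => R_RA_Z n q X * F q X := by
  obtain ⟨c, hc, hF⟩ := h
  have h1 : ∀ t, RA n N x fun q X => R_RA_Z n q X * pa q n t X := by
    intro t
    refine (R_RA_add (R_RA_slot x (t + 1)) (R_RA_smul (R_RA_cb (R_RA_Z_cont x hx n t))
      (R_RA_slot x t))).congr ?_
    filter_upwards [R_RA_ne hx] with q hq X _
    rw [R_RA_step q hq]
    ring
  refine (RA.sum (Finset.range (N + 1)) (fun t q => c q t)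
    (fun t q X => R_RA_Z n q X * pa q n t X) (fun t _ => hc t) (fun t _ => h1 t)).congr ?_
  filter_upwards [hF] with q h2 X hX
  rw [h2 X hX, Finset.mul_sum]
  exact Finset.sum_congr rfl fun t _ => by ring

theorem R_RA_mulpa {x : ℂ} (hx : x ≠ 0) {F : ℂ → ℕ → ℂ} (h : RA n N x F) (s : ℕ) :
    RA n N x fun q X => pa q n s X * F q X := by
  induction s with
  | zero =>
    refine h.congr (Eventually.of_forall fun q X _ => ?_)
    rw [R_RA_pa_zero, one_mul]
  | succ s ih =>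
    have hb : (fun q => -R_RA_Z n q s) =O[𝓝[≠] x] (fun _ => (1 : ℂ)) :=
      R_RA_cb (R_RA_Z_cont x hx n s).neg
    refine (R_RA_add (R_RA_mulZ hx ih) (R_RA_smul hb ih)).congr ?_
    filter_upwards [R_RA_ne hx] with q hq X _
    rw [R_RA_step q hq]
    ring

/-- Products. -/
theorem RA.mul {x : ℂ} (hx : x ≠ 0) {F G : ℂ → ℕ → ℂ} (h : RA n N x F) (h' : RA n N x G) :
    RA n N x fun q X => F q X * G q X := by
  obtain ⟨c, hc, hF⟩ := h
  refine (RA.sum (Finset.range (N + 1)) (fun t q => c q t)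
    (fun t q X => pa q n t X * G q X) (fun t _ => hc t) (fun t _ => R_RA_mulpa hx h' t)).congr ?_
  filter_upwards [hF] with q h2 X hX
  rw [h2 X hX, Finset.sum_mul]
  exact Finset.sum_congr rfl fun t _ => by ring

/-! ### The full twist -/

/-- The coefficients of the full twist. -/
noncomputable def R_RA_cf (n : ℕ) (q : ℂ) (j : ℕ) : ℂ :=
  q ^ ((n : ℤ) * j + (j.choose 2 : ℕ)) / ∏ i ∈ Finset.range j, br q ((i : ℤ) + 1)

theorem R_RA_qf (q : ℂ) (h1 : br q 1 ≠ 0) (j : ℕ) :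
    qf q j * br q 1 ^ j = ∏ i ∈ Finset.range j, br q ((i : ℤ) + 1) := by
  induction j with
  | zero => simp [qf_zero]
  | succ j ih =>
    rw [Finset.prod_range_succ, ← ih, qf_succ, pow_succ]
    unfold Pool.Agent.H63.VC11.qn
    field_simp

theorem R_RA_om (q : ℂ) (h1 : br q 1 ≠ 0) (n j X : ℕ) :
    Pool.Agent.H63.VC11.om q n j X * (br q 1 ^ j * br q 1 ^ j) = pa q n j X := by
  induction j with
  | zero => simp [pa, Ker11_om_zero]
  | succ j ih =>
    unfold pa at ih ⊢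
    rw [Finset.prod_range_succ, ← ih, Ker11_om_succ, pow_succ]
    unfold Pool.Agent.H63.VC11.qn
    have e : (n : ℤ) + X + j - 1 = n + X + j - 1 := rfl
    field_simp

theorem R_RA_tt_sum (q : ℂ) (n N : ℕ) (hg : Gen q n N) (hn : 1 ≤ n) (X : ℕ) (hX : X ≤ N) :
    tt q n X = ∑ j ∈ Finset.range (N + 1), R_RA_cf n q j * pa q n j X := by
  have h1 := hg.br_one hn
  have h := tw_bb q n N hg hn 0 X hX
  rw [Fin.val_zero, bb_zero_left, mul_one] at h
  rw [h, ← Fin.sum_univ_eq_sum_range (fun j => R_RA_cf n q j * pa q n j X) (N + 1)]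
  refine Finset.sum_congr rfl fun j _ => ?_
  have e1 : Pool.Agent.H63.VC4.Bmat N (q ^ n) q j 0 = 1 := by
    unfold Pool.Agent.H63.VC4.Bmat
    rw [Fin.val_zero, Bailey_qbin_zero, zero_mul, pow_zero, pow_zero, one_mul, one_mul]
  have h2 : qf q j ≠ 0 := hg.qf_ne hn (by have := j.2; omega)
  rw [e1, one_mul]
  unfold bb bet R_RA_cf
  rw [← R_RA_qf q h1, ← R_RA_om q h1]
  field_simp

theorem R_RA_br_inv (q : ℂ) (a : ℤ) : br q⁻¹ a = -br q a := by
  unfold br
  rw [inv_zpow', inv_zpow', neg_neg]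
  ring

theorem R_RA_pa_inv (q : ℂ) (n t X : ℕ) : pa q⁻¹ n t X = pa q n t X := by
  unfold pa
  refine Finset.prod_congr rfl fun i _ => ?_
  rw [R_RA_br_inv, R_RA_br_inv, neg_mul_neg]

theorem R_RA_tt_inv (q : ℂ) (n X : ℕ) : tt q⁻¹ n X = (tt q n X)⁻¹ := by
  unfold tt
  rw [inv_zpow]

theorem R_RA_gen_inv {q : ℂ} {n N : ℕ} (hg : Gen q n N) : Gen q⁻¹ n N := by
  refine ⟨inv_ne_zero hg.1, fun k h1 h2 => ?_⟩
  rw [R_RA_br_inv, neg_ne_zero]
  exact hg.2 k h1 h2

theorem R_RA_br_q0 (M : ℕ) (a : ℕ) (h0 : 0 < a) (h1 : a < M) : br (q0 M) (a : ℤ) ≠ 0 := by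
  have hM : (0 : ℝ) < M := by exact_mod_cast (by omega : 0 < M)
  have e : br (q0 M) (a : ℤ) = 2 * I * sin ((Real.pi * a / M : ℝ) : ℂ) := by
    unfold br q0
    rw [← exp_int_mul, ← exp_int_mul, Complex.sin]
    have e1 : ((a : ℤ) : ℂ) * (Real.pi * I / (M : ℂ)) = ((Real.pi * a / M : ℝ) : ℂ) * I := by
      push_cast
      ring
    have e2 : ((-(a : ℤ) : ℤ) : ℂ) * (Real.pi * I / (M : ℂ)) =
        -((Real.pi * a / M : ℝ) : ℂ) * I := by
      push_cast
      ring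
    rw [e1, e2]
    linear_combination (exp (((Real.pi * a / M : ℝ) : ℂ) * I) -
      exp (-((Real.pi * a / M : ℝ) : ℂ) * I)) * I_sq
  rw [e]
  have h2 : 0 < Real.sin (Real.pi * a / M) := by
    apply Real.sin_pos_of_pos_of_lt_pi
    · have : (0 : ℝ) < a := by exact_mod_cast h0
      positivity
    · rw [div_lt_iff₀ hM]
      have : (a : ℝ) < M := by exact_mod_cast h1
      have := Real.pi_pos
      nlinarith
  rw [← ofReal_sin]
  exact mul_ne_zero (mul_ne_zero two_ne_zero I_ne_zero) (by exact_mod_cast h2.ne')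

theorem R_RA_cf_cont (x : ℂ) (hx : x ≠ 0) (n j : ℕ)
    (h : ∏ i ∈ Finset.range j, br x ((i : ℤ) + 1) ≠ 0) :
    ContinuousAt (fun q => R_RA_cf n q j) x := by
  unfold R_RA_cf
  refine (continuousAt_zpow₀ x _ (Or.inl hx)).div ?_ h
  exact tendsto_finsetProd _ fun i _ => R_RA_br_cont x hx _

theorem R_RA_q0_ne (M : ℕ) : q0 M ≠ 0 := exp_ne_zero _

theorem R_RA_prod_ne (hg : 1 ≤ g) {t : ℕ} (ht : t ≤ N) :
    ∏ i ∈ Finset.range t, br (q0 (N + g)) ((i : ℤ) + 1) ≠ 0 := by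
  rw [Finset.prod_ne_zero_iff]
  intro i hi
  have := Finset.mem_range.1 hi
  have h := R_RA_br_q0 (N + g) (i + 1) (by omega) (by omega)
  push_cast at h
  exact h

theorem R_RA_tt1 (hn : 2 ≤ n) (hg : 1 ≤ g) : RA n N (q0 (N + g)) fun q X => tt q n X := by
  have hx := R_RA_q0_ne (N + g)
  refine ⟨fun q t => if t ≤ N then R_RA_cf n q t else 0, fun t => ?_, ?_⟩
  · by_cases ht : t ≤ N
    · simp only [if_pos ht]
      exact R_RA_cb (R_RA_cf_cont _ hx n t (R_RA_prod_ne hg ht))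
    · simp only [if_neg ht]
      exact Asymptotics.isBigO_zero _ _
  · filter_upwards [Ev11_gen (q0 (N + g)) n N] with q hq X hX
    rw [R_RA_tt_sum q n N hq (by omega) X hX]
    refine Finset.sum_congr rfl fun t ht => ?_
    have := Finset.mem_range.1 ht
    rw [if_pos (by omega : t ≤ N)]

theorem R_RA_tt2 (hn : 2 ≤ n) (hg : 1 ≤ g) :
    RA n N (q0 (N + g)) fun q X => (tt q n X)⁻¹ := by
  have hx := R_RA_q0_ne (N + g)
  refine ⟨fun q t => if t ≤ N then R_RA_cf n q⁻¹ t else 0, fun t => ?_, ?_⟩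
  · by_cases ht : t ≤ N
    · simp only [if_pos ht]
      refine R_RA_cb ?_
      have h1 : ∏ i ∈ Finset.range t, br (q0 (N + g))⁻¹ ((i : ℤ) + 1) ≠ 0 := by
        rw [Finset.prod_ne_zero_iff]
        intro i hi
        rw [R_RA_br_inv, neg_ne_zero]
        exact (Finset.prod_ne_zero_iff.1 (R_RA_prod_ne hg ht)) i hi
      exact ContinuousAt.comp (f := fun q : ℂ => q⁻¹) (g := fun q => R_RA_cf n q t)
        (R_RA_cf_cont _ (inv_ne_zero hx) n t h1) (continuousAt_inv₀ hx)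
    · simp only [if_neg ht]
      exact Asymptotics.isBigO_zero _ _
  · filter_upwards [Ev11_gen (q0 (N + g)) n N] with q hq X hX
    rw [← R_RA_tt_inv, R_RA_tt_sum q⁻¹ n N (R_RA_gen_inv hq) (by omega) X hX]
    refine Finset.sum_congr rfl fun t ht => ?_
    have := Finset.mem_range.1 ht
    rw [if_pos (by omega : t ≤ N), R_RA_pa_inv]

theorem R_RA_pow {x : ℂ} (hx : x ≠ 0) {F : ℂ → ℕ → ℂ} (h : RA n N x F) (k : ℕ) :
    RA n N x fun q X => F q X ^ k := by
  induction k with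
  | zero =>
    simp only [pow_zero]
    exact RA.one x
  | succ k ih =>
    refine (RA.mul hx ih h).congr (Eventually.of_forall fun q X _ => ?_)
    exact pow_succ _ _

/-- Full twists. -/
theorem RA.tt (hn : 2 ≤ n) (hg : 1 ≤ g) {F : ℂ → ℕ → ℂ} (h : RA n N (q0 (N + g)) F) (e : ℤ) :
    RA n N (q0 (N + g)) fun q X => tt q n X ^ e * F q X := by
  have hx := R_RA_q0_ne (N + g)
  refine RA.mul hx ?_ h
  obtain ⟨k, rfl | rfl⟩ := Int.eq_nat_or_neg e
  · simp only [zpow_natCast]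
    exact R_RA_pow hx (R_RA_tt1 hn hg) k
  · refine (R_RA_pow hx (R_RA_tt2 hn hg) k).congr (Eventually.of_forall fun q X _ => ?_)
    rw [zpow_neg, zpow_natCast, inv_pow]

end Pool.Agent.S4
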