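import Pool.Agent.H63.VC11.PhEq11
import Pool.Agent.H63.VC8.EdgeLim8
import Pool.Agent.H63.VC8.NodeL18
import Pool.Agent.H63.VC8.Swap8
import Pool.Agent.S4.R.RA

/-! # The transform restricted to the main channels -/

namespace Pool.Agent.S4

open Pool.Agent.H63.VC hiding ext
open Pool.Agent.H63.VC3 Pool.Agent.H63.VC7 Pool.Agent.H63.VC8 Pool.Agent.H63.VC11
open Pool.Agent.H63.VC12 Complex Filter Topology

variable {n N g : ℕ}

/-- A differentiable function which vanishes at the root of unity. -/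
private theorem R_RL_small {M : ℕ} (hM : 1 ≤ M) {f : ℂ → ℂ}
    (hf : DifferentiableAt ℂ f (q0 M)) (h0 : f (q0 M) = 0) :
    f =O[𝓝[≠] (q0 M)] fun q => br q (M : ℤ) := by
  obtain ⟨B, hB, hd⟩ := NodeL18_br_deriv M hM
  have hz : br (q0 M) (M : ℤ) = 0 := NodeL18_br_root M hM
  have hd' : HasDerivAt (fun q => br q (M : ℤ)) B (q0 M) := hd
  have h1 : (fun q => f q - f (q0 M)) =O[𝓝 (q0 M)] fun q => q - q0 M := hf.isBigO_sub
  have ht : Tendsto (fun q : ℂ => (q, q0 M)) (𝓝 (q0 M)) (𝓝 (q0 M) ×ˢ pure (q0 M)) :=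
    tendsto_id.prodMk tendsto_const_pure
  have h2 : (fun q => q - q0 M) =O[𝓝 (q0 M)] fun q => br q (M : ℤ) - br (q0 M) (M : ℤ) :=
    (HasDerivAtFilter.isTheta_sub hd' hB).2.comp_tendsto ht
  have h3 := (h1.trans h2).mono (nhdsWithin_le_nhds (s := {q0 M}ᶜ))
  simpa only [h0, hz, sub_zero] using h3

/-- The quantum dimension of a channel. -/
private noncomputable def R_RL_D (n : ℕ) (q : ℂ) (X : ℕ) : ℂ :=
  br q ((n : ℤ) + 2 * X - 1) / br q ((n : ℤ) - 1) *
    ∏ u ∈ Finset.range (n - 2), (br q ((X : ℤ) + u + 1) / br q ((u : ℤ) + 1)) ^ 2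

private theorem R_RL_D_diff (hn : 2 ≤ n) (hg : 1 ≤ g) (hN : n ≤ N) (X : ℕ) :
    DifferentiableAt ℂ (fun q => R_RL_D n q X) (q0 (N + g)) := by
  have h0 : q0 (N + g) ≠ 0 := exp_ne_zero _
  unfold R_RL_D
  refine DifferentiableAt.fun_mul ?_ ?_
  · exact (NodeL18_br_diff _ h0 _).fun_div (NodeL18_br_diff _ h0 _)
      (NodeL18_br_ne _ _ (by omega) (by omega) (by omega))
  · refine DifferentiableAt.fun_finsetProd fun u hu => ?_
    rw [Finset.mem_range] at hu
    exact ((NodeL18_br_diff _ h0 _).fun_div (NodeL18_br_diff _ h0 _)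
      (NodeL18_br_ne _ _ (by omega) (by omega) (by omega))).fun_pow 2

private theorem R_RL_D_refl (hn : 2 ≤ n) (hg : 1 ≤ g) {L X : ℕ} (hL : N + g + 1 = n + L)
    (hX : X ≤ L) :
    R_RL_D n (q0 (N + g)) X + R_RL_D n (q0 (N + g)) (L - X) = 0 := by
  have h1 : br (q0 (N + g)) ((n : ℤ) + 2 * ((L - X : ℕ) : ℤ) - 1) =
      -br (q0 (N + g)) ((n : ℤ) + 2 * X - 1) :=
    NodeL18_br_refl (N + g) (by omega) _ _ 1 (by omega)
  have h2 : ∏ u ∈ Finset.range (n - 2), (br (q0 (N + g)) (((L - X : ℕ) : ℤ) + u + 1) /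
      br (q0 (N + g)) ((u : ℤ) + 1)) ^ 2 = ∏ u ∈ Finset.range (n - 2),
        (br (q0 (N + g)) ((X : ℤ) + u + 1) / br (q0 (N + g)) ((u : ℤ) + 1)) ^ 2 := by
    simp only [div_pow]
    rw [Finset.prod_div_distrib, Finset.prod_div_distrib]
    congr 1
    rw [← Finset.prod_range_reflect]
    refine Finset.prod_congr rfl fun u hu => ?_
    rw [Finset.mem_range] at hu
    congr 1
    have h3 : br (q0 (N + g)) (((N + g : ℕ) : ℤ) - ((X : ℤ) + u + 1)) =
      br (q0 (N + g)) ((X : ℤ) + u + 1) := EdgeLim8_refl (N + g) (by omega) _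
    rw [← h3]
    congr 1
    omega
  unfold R_RL_D
  rw [h1, h2]
  ring

private theorem R_RL_pa_diff {x : ℂ} (hx : x ≠ 0) (n s X : ℕ) :
    DifferentiableAt ℂ (fun q => pa q n s X) x := by
  unfold pa
  refine DifferentiableAt.fun_finsetProd fun i _ => ?_
  exact (NodeL18_br_diff x hx _).fun_mul (NodeL18_br_diff x hx _)

private theorem R_RL_pa_refl (hg : 1 ≤ g) {L X : ℕ} (hL : N + g + 1 = n + L)
    (hX : X ≤ L) (s : ℕ) : pa (q0 (N + g)) n s (L - X) = pa (q0 (N + g)) n s X := by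
  unfold pa
  refine Finset.prod_congr rfl fun i _ => ?_
  have h1 : br (q0 (N + g)) (((N + g : ℕ) : ℤ) - ((X : ℤ) - i)) =
    br (q0 (N + g)) ((X : ℤ) - i) := EdgeLim8_refl (N + g) (by omega) _
  have h2 : br (q0 (N + g)) (((N + g : ℕ) : ℤ) - ((n : ℤ) + X + i - 1)) =
    br (q0 (N + g)) ((n : ℤ) + X + i - 1) := EdgeLim8_refl (N + g) (by omega) _
  rw [← h1, ← h2, mul_comm]
  congr 2 <;> omega

private theorem R_RL_pa_lt (q : ℂ) (n t X : ℕ) (h : X < t) : pa q n t X = 0 :=
  NodeL18_pw_zero n q t X h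

/-- A slot factor has bounded coefficients. -/
private theorem R_RL_RA_pa (x : ℂ) {t : ℕ} (ht : t ≤ N) : RA n N x fun q X => pa q n t X := by
  refine ⟨fun _ s => if s = t then 1 else 0, fun s => ?_, ?_⟩
  · exact Asymptotics.isBigO_const_const _ one_ne_zero _
  · refine Filter.Eventually.of_forall fun q X _ => ?_
    change pa q n t X = ∑ s ∈ Finset.range (N + 1), (if s = t then (1 : ℂ) else 0) * pa q n s X
    rw [Finset.sum_eq_single t]
    · rw [if_pos rfl, one_mul]
    · intro s _ hs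
      rw [if_neg hs, zero_mul]
    · intro h
      exact absurd (Finset.mem_range.2 (by omega)) h

/-- The zero of the sums over the main channels. -/
private theorem R_RL_main (hn : 2 ≤ n) (hg : 1 ≤ g) (hgn : g < n) (hN : n ≤ N) {F : ℂ → ℕ → ℂ}
    (h : RA n N (q0 (N + g)) F) {L : ℕ} (hL : N + g + 1 = n + L) {t : ℕ} (ht : t ≤ L) :
    (fun q => ∑ Y ∈ Finset.range (L + 1), dimA n q Y * (pa q n t Y * F q Y))
      =O[𝓝[≠] (q0 (N + g))] fun q => br q ((N + g : ℕ) : ℤ) := by
  have hx : q0 (N + g) ≠ 0 := exp_ne_zero _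
  have hH : RA n N (q0 (N + g)) fun q Y => pa q n t Y * F q Y :=
    RA.mul hx (R_RL_RA_pa _ (by omega)) h
  obtain ⟨c, hc1, hc2⟩ := id hH
  have hb : ∀ Y, (fun q => R_RL_D n q Y) =O[𝓝[≠] (q0 (N + g))] (fun _ => (1 : ℂ)) := by
    intro Y
    exact ((R_RL_D_diff hn hg hN Y).continuousAt.tendsto.isBigO_one ℂ).mono nhdsWithin_le_nhds
  have key : (fun q => ∑ Y ∈ Finset.range (L + 1),
      ((R_RL_D n q Y + R_RL_D n q (L - Y)) * (pa q n t Y * F q Y) +
        R_RL_D n q (L - Y) * ∑ s ∈ Finset.range (N + 1),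
          c q s * (pa q n s (L - Y) - pa q n s Y)))
      =O[𝓝[≠] (q0 (N + g))] fun q => br q ((N + g : ℕ) : ℤ) := by
    refine Asymptotics.IsBigO.fun_sum fun Y hY => ?_
    have hY' : Y ≤ L := by
      have := Finset.mem_range.1 hY
      omega
    refine Asymptotics.IsBigO.add ?_ ?_
    · have h1 := (R_RL_small (M := N + g) (by omega)
        ((R_RL_D_diff hn hg hN Y).fun_add (R_RL_D_diff hn hg hN (L - Y)))
        (R_RL_D_refl hn hg hL hY')).mul (RA.bdd hx hH (X := Y) (by omega))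
      simpa only [mul_one] using h1
    · have h2 : (fun q => ∑ s ∈ Finset.range (N + 1), c q s * (pa q n s (L - Y) - pa q n s Y))
          =O[𝓝[≠] (q0 (N + g))] fun q => br q ((N + g : ℕ) : ℤ) := by
        refine Asymptotics.IsBigO.fun_sum fun s _ => ?_
        have h3 := (hc1 s).mul (R_RL_small (M := N + g) (by omega)
          ((R_RL_pa_diff hx n s (L - Y)).fun_sub (R_RL_pa_diff hx n s Y))
          (by rw [R_RL_pa_refl hg hL hY', sub_self]))
        simpa only [one_mul] using h3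
      simpa only [one_mul] using (hb (L - Y)).mul h2
  have key2 := key.const_mul_left (1 / 2 : ℂ)
  refine key2.congr' ?_ Filter.EventuallyEq.rfl
  filter_upwards [hc2, Ev11_gen (q0 (N + g)) n N] with q hq hgen
  have hD : ∀ Y ≤ L, dimA n q Y = R_RL_D n q Y := fun Y hY =>
    dimA_eq n hn q Y fun i h1 h2 => hgen.2 i h1 (by omega)
  have e1 : ∑ Y ∈ Finset.range (L + 1), dimA n q Y * (pa q n t Y * F q Y) =
      ∑ Y ∈ Finset.range (L + 1), R_RL_D n q (L - Y) *
        ∑ s ∈ Finset.range (N + 1), c q s * pa q n s (L - Y) := by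
    rw [← Finset.sum_range_reflect]
    refine Finset.sum_congr rfl fun Y hY => ?_
    have hY' := Finset.mem_range.1 hY
    rw [show L + 1 - 1 - Y = L - Y by omega, hD (L - Y) (by omega), hq (L - Y) (by omega)]
  have e2 : ∑ Y ∈ Finset.range (L + 1),
      ((R_RL_D n q Y + R_RL_D n q (L - Y)) * (pa q n t Y * F q Y) +
        R_RL_D n q (L - Y) * ∑ s ∈ Finset.range (N + 1),
          c q s * (pa q n s (L - Y) - pa q n s Y)) =
      ∑ Y ∈ Finset.range (L + 1), dimA n q Y * (pa q n t Y * F q Y) +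
      ∑ Y ∈ Finset.range (L + 1), R_RL_D n q (L - Y) *
        ∑ s ∈ Finset.range (N + 1), c q s * pa q n s (L - Y) := by
    rw [← Finset.sum_add_distrib]
    refine Finset.sum_congr rfl fun Y hY => ?_
    have hY' := Finset.mem_range.1 hY
    have e3 : ∑ s ∈ Finset.range (N + 1), c q s * (pa q n s (L - Y) - pa q n s Y) =
        ∑ s ∈ Finset.range (N + 1), c q s * pa q n s (L - Y) - pa q n t Y * F q Y := by
      rw [hq Y (by omega), ← Finset.sum_sub_distrib]
      exact Finset.sum_congr rfl fun s _ => by ring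
    rw [e3, hD Y (by omega)]
    ring
  rw [e2, ← e1]
  ring

theorem RA.PhL (hn : 2 ≤ n) (hg : 1 ≤ g) (hgn : g < n) (hN : n ≤ N) {F : ℂ → ℕ → ℂ}
    (h : RA n N (q0 (N + g)) F) :
    RA n N (q0 (N + g)) fun q X => Ph q n N (fun Y => if N + g + 1 < n + Y then 0 else F q Y) X := by
  obtain ⟨L, hL⟩ : ∃ L, N + g + 1 = n + L := ⟨N + g + 1 - n, by omega⟩
  have hS : (fun q => br q ((N + g : ℕ) : ℤ) * (dimS n N q)⁻¹)
      =O[𝓝[≠] (q0 (N + g))] (fun _ => (1 : ℂ)) := by
    have hl : (I * (-1) ^ (n + g) * (S (N + g) (n - g - 1) : ℂ) * (S (N + g) (g - 1) : ℂ) /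
        (S (N + g) (n - 1) : ℂ)) ≠ 0 := by
      have p1 : (S (N + g) (n - g - 1) : ℂ) ≠ 0 := by
        exact_mod_cast (S_pos (M := N + g) (k := n - g - 1) (by omega)).ne'
      have p2 : (S (N + g) (g - 1) : ℂ) ≠ 0 := by
        exact_mod_cast (S_pos (M := N + g) (k := g - 1) (by omega)).ne'
      have p3 : (S (N + g) (n - 1) : ℂ) ≠ 0 := by
        exact_mod_cast (S_pos (M := N + g) (k := n - 1) (by omega)).ne'
      exact div_ne_zero (mul_ne_zero (mul_ne_zero (mul_ne_zero I_ne_zero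
        (pow_ne_zero _ (by norm_num))) p1) p2) p3
    have h1 := ((dimS_lim n g N hn hg hgn hN).inv₀ hl).isBigO_one ℂ
    refine h1.congr' ?_ Filter.EventuallyEq.rfl
    refine Filter.Eventually.of_forall fun q => ?_
    have e : ((N : ℤ) + g) = ((N + g : ℕ) : ℤ) := by push_cast; rfl
    simp only [e, inv_div]
    rw [div_eq_mul_inv]
  refine ⟨fun q t => if t ≤ L then E8 n N q t * ((∑ Y ∈ Finset.range (L + 1),
    dimA n q Y * (pa q n t Y * F q Y)) * (dimS n N q)⁻¹) else 0, ?_, ?_⟩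
  · intro t
    by_cases ht : t ≤ L
    · simp only [if_pos ht]
      have h1 : (fun q => E8 n N q t) =O[𝓝[≠] (q0 (N + g))] (fun _ => (1 : ℂ)) :=
        (edge_lim n g N t hn hg hgn hN (by omega)).isBigO_one ℂ
      have h3 := ((R_RL_main hn hg hgn hN h hL ht).mul
        (Asymptotics.isBigO_refl (fun q => (dimS n N q)⁻¹) _)).trans hS
      simpa only [one_mul] using h1.mul h3
    · simp only [if_neg ht]
      exact Asymptotics.isBigO_zero _ _
  · filter_upwards [Ev11_gen (q0 (N + g)) n N] with q hq X hX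
    rw [Ph_eq q n N hq hn]
    have e1 : ∀ Y ∈ Finset.range (N + 1), dimA n q Y / dimS n N q * sixn n q N X Y *
        (if N + g + 1 < n + Y then 0 else F q Y) = ∑ t ∈ Finset.range (N + 1),
          dimA n q Y / dimS n N q * (E8 n N q t * (pa q n t X * pa q n t Y)) *
            (if N + g + 1 < n + Y then 0 else F q Y) := by
      intro Y _
      rw [Swap8_sixn, Finset.mul_sum, Finset.sum_mul]
      rfl
    rw [Finset.sum_congr rfl e1, Finset.sum_comm]
    refine Finset.sum_congr rfl fun t _ => ?_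
    have hsub : Finset.range (L + 1) ⊆ Finset.range (N + 1) := by
      intro Y hY
      rw [Finset.mem_range] at hY ⊢
      omega
    rw [← Finset.sum_subset hsub]
    · by_cases ht : t ≤ L
      · rw [if_pos ht, Finset.sum_mul, Finset.mul_sum, Finset.sum_mul]
        refine Finset.sum_congr rfl fun Y hY => ?_
        have hY' := Finset.mem_range.1 hY
        rw [if_neg (by omega)]
        ring
      · rw [if_neg ht, zero_mul]
        refine Finset.sum_eq_zero fun Y hY => ?_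
        have hY' := Finset.mem_range.1 hY
        rw [R_RL_pa_lt q n t Y (by omega)]
        ring
    · intro Y _ hY
      rw [Finset.mem_range] at hY
      rw [if_pos (by omega), mul_zero]

end Pool.Agent.S4
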