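import Pool.Agent.H63.VC12.PhPh12
import Pool.Agent.S4.R.RA

/-! # The transform of families with bounded coefficients -/

namespace Pool.Agent.S4

open Pool.Agent.H63.VC hiding ext
open Pool.Agent.H63.VC3 Pool.Agent.H63.VC7 Pool.Agent.H63.VC8 Pool.Agent.H63.VC11
open Pool.Agent.H63.VC12 Complex Filter Topology

variable {n N g : ℕ}

theorem R_RP_diff (q : ℂ) (hq : q ≠ 0) (n N j X : ℕ) (hj : j ≤ N) :
    br q (((N - j : ℕ) : ℤ) - X) * br q (((N - j : ℕ) : ℤ) + X + n - 1) =
      R_RA_Z n q (N - j) - R_RA_Z n q X := by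
  unfold R_RA_Z
  rw [R_RA_brbr q hq, R_RA_brbr q hq, R_RA_brbr q hq,
    show (((N - j : ℕ) : ℤ) - X) + (((N - j : ℕ) : ℤ) + X + n - 1) =
      ((N - j : ℕ) : ℤ) + (((N - j : ℕ) : ℤ) + n - 1) by ring,
    show (((N - j : ℕ) : ℤ) - X) - (((N - j : ℕ) : ℤ) + X + n - 1) =
      -((X : ℤ) + (X + n - 1)) by ring,
    show ((N - j : ℕ) : ℤ) - (((N - j : ℕ) : ℤ) + n - 1) = 1 - n by ring,
    show (X : ℤ) - (X + n - 1) = 1 - n by ring]
  rw [neg_neg]
  ring

theorem R_RP_EE_succ (q : ℂ) (hg : Gen q n N) (hn : 2 ≤ n) (j X : ℕ) (hj : j ≤ N) :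
    br q ((j : ℤ) + 1) ^ 2 * EE q n N (j + 1) X =
      EE q n N j X * (R_RA_Z n q (N - j) - R_RA_Z n q X) := by
  have h1 : br q 1 ≠ 0 := hg.br_one (by omega)
  have h2 : br q ((j : ℤ) + 1) ≠ 0 := by
    have h3 := hg.2 (j + 1) (by omega) (by omega)
    push_cast at h3
    exact h3
  rw [← R_RP_diff q hg.1 n N j X hj]
  unfold EE
  rw [Finset.prod_range_succ]
  unfold E1 Pool.Agent.H63.VC11.qn
  field_simp

theorem R_RP_EE_last (q : ℂ) (hg : Gen q n N) (hn : 2 ≤ n) (X : ℕ) (hX : X ≤ N) :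
    EE q n N N X * (R_RA_Z n q (N - N) - R_RA_Z n q X) = 0 := by
  rcases Nat.eq_zero_or_pos X with rfl | h
  · rw [Nat.sub_self, sub_self, mul_zero]
  · have h1 : EE q n N N X = 0 := by
      unfold EE
      refine Finset.prod_eq_zero (Finset.mem_range.2 (by omega : N - X < N)) ?_
      unfold E1
      rw [Nat.sub_sub_self hX, sub_self]
      unfold Pool.Agent.H63.VC11.qn
      rw [Pool.Agent.H63.VC10.br_zero, zero_div, zero_mul, zero_div]
    rw [h1, zero_mul]

/-- The slot factors as combinations of the `EE`. -/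
theorem R_RP_pa {x : ℂ} (hx : x ≠ 0) (hn : 2 ≤ n) (t : ℕ) :
    ∃ c : ℂ → ℕ → ℂ, (∀ j, (fun q => c q j) =O[𝓝[≠] x] (fun _ => (1 : ℂ))) ∧
      ∀ᶠ q in 𝓝[≠] x, ∀ X ≤ N, pa q n t X = ∑ j ∈ Finset.range (N + 1), c q j * EE q n N j X := by
  induction t with
  | zero =>
    refine ⟨fun _ j => if j = 0 then 1 else 0, fun j => ?_, Eventually.of_forall fun q X _ => ?_⟩
    · by_cases hj : j = 0
      · simp only [if_pos hj]
        exact Asymptotics.isBigO_refl _ _
      · simp only [if_neg hj]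
        exact Asymptotics.isBigO_zero _ _
    · rw [R_RA_pa_zero, Finset.sum_eq_single 0]
      · simp [EE]
      · intro j _ hj
        simp [hj]
      · intro h
        exact absurd (Finset.mem_range.2 (by omega)) h
  | succ t ih =>
    obtain ⟨c, hc, hF⟩ := ih
    refine ⟨fun q j => c q j * (R_RA_Z n q (N - j) - R_RA_Z n q t) -
      (if j = 0 then 0 else br q (j : ℤ) ^ 2 * c q (j - 1)), fun j => ?_, ?_⟩
    · have h1 : (fun q => c q j * (R_RA_Z n q (N - j) - R_RA_Z n q t)) =O[𝓝[≠] x]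
          (fun _ => (1 : ℂ)) :=
        R_RA_bmul (hc j) (R_RA_cb ((R_RA_Z_cont x hx n (N - j)).sub (R_RA_Z_cont x hx n t)))
      by_cases hj : j = 0
      · simp only [if_pos hj, sub_zero]
        exact h1
      · simp only [if_neg hj]
        exact h1.sub (R_RA_bmul (R_RA_cb ((R_RA_br_cont x hx j).pow 2)) (hc (j - 1)))
    · filter_upwards [hF, Ev11_gen x n N] with q h1 hg X hX
      rw [R_RA_step q hg.1, h1 X hX, Finset.sum_mul]
      have h2 : ∀ j ∈ Finset.range (N + 1), c q j * EE q n N j X *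
          (R_RA_Z n q X - R_RA_Z n q t) =
          c q j * (R_RA_Z n q (N - j) - R_RA_Z n q t) * EE q n N j X -
            c q j * (EE q n N j X * (R_RA_Z n q (N - j) - R_RA_Z n q X)) := by
        intro j _
        ring
      rw [Finset.sum_congr rfl h2, Finset.sum_sub_distrib]
      have h3 : ∑ j ∈ Finset.range (N + 1),
          c q j * (EE q n N j X * (R_RA_Z n q (N - j) - R_RA_Z n q X)) =
          ∑ j ∈ Finset.range (N + 1),
            (if j = 0 then 0 else br q (j : ℤ) ^ 2 * c q (j - 1)) * EE q n N j X := by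
        rw [Finset.sum_range_succ, R_RP_EE_last q hg hn X hX, mul_zero, add_zero,
          Finset.sum_range_succ' _ N]
        rw [if_pos rfl, zero_mul, add_zero]
        refine Finset.sum_congr rfl fun j hj => ?_
        have hj' := Finset.mem_range.1 hj
        rw [← R_RP_EE_succ q hg hn j X (by omega), if_neg (Nat.succ_ne_zero j),
          Nat.add_sub_cancel]
        push_cast
        ring
      rw [h3, ← Finset.sum_sub_distrib]
      refine Finset.sum_congr rfl fun j _ => ?_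
      rw [← sub_mul]

theorem R_RP_br_inv (hg : 1 ≤ g) {j : ℕ} (hj : j < N) :
    (fun q => (br q ((j : ℤ) + 1) ^ 2)⁻¹) =O[𝓝[≠] (q0 (N + g))] (fun _ => (1 : ℂ)) := by
  have h := R_RA_br_q0 (N + g) (j + 1) (by omega) (by omega)
  push_cast at h
  exact R_RA_cb (((R_RA_br_cont _ (R_RA_q0_ne _) _).pow 2).inv₀ (pow_ne_zero 2 h))

/-- The `EE` are combinations of the slot factors. -/
theorem R_RP_EE (hn : 2 ≤ n) (hg : 1 ≤ g) (j : ℕ) (hj : j ≤ N) :
    RA n N (q0 (N + g)) fun q X => EE q n N j X := by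
  have hx := R_RA_q0_ne (N + g)
  induction j with
  | zero =>
    refine (RA.one _).congr (Eventually.of_forall fun q X _ => ?_)
    simp [EE]
  | succ j ih =>
    have ih' := ih (by omega)
    have h1 : RA n N (q0 (N + g)) fun q X => R_RA_Z n q (N - j) * EE q n N j X :=
      R_RA_smul (R_RA_cb (R_RA_Z_cont _ hx n (N - j))) ih'
    have h2 : RA n N (q0 (N + g)) fun q X => (-1 : ℂ) * (R_RA_Z n q X * EE q n N j X) :=
      R_RA_smul (R_RA_cb continuousAt_const) (R_RA_mulZ hx ih')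
    refine (R_RA_smul (R_RP_br_inv hg (by omega : j < N)) (R_RA_add h1 h2)).congr ?_
    filter_upwards [Ev11_gen (q0 (N + g)) n N] with q hq X _
    have h3 := R_RP_EE_succ q hq hn j X (by omega)
    have h4 : br q ((j : ℤ) + 1) ≠ 0 := by
      have h5 := hq.2 (j + 1) (by omega) (by omega)
      push_cast at h5
      exact h5
    rw [eq_comm, inv_mul_eq_iff_eq_mul₀ (pow_ne_zero 2 h4), h3]
    ring

theorem RA.Ph (hn : 2 ≤ n) (hg : 1 ≤ g) {F : ℂ → ℕ → ℂ} (h : RA n N (q0 (N + g)) F) :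
    RA n N (q0 (N + g)) fun q X => Ph q n N (F q) X := by
  have hx := R_RA_q0_ne (N + g)
  obtain ⟨c, hc, hF⟩ := h
  choose d hd hP using fun t => R_RP_pa (n := n) (N := N) hx hn t
  have h1 : RA n N (q0 (N + g)) fun q X => ∑ j ∈ Finset.range (N + 1),
      (∑ t ∈ Finset.range (N + 1), c q t * d t q j) * EE q n N (N - j) X := by
    refine RA.sum (Finset.range (N + 1)) (fun j q => ∑ t ∈ Finset.range (N + 1), c q t * d t q j)
      (fun j q X => EE q n N (N - j) X) (fun j _ => ?_) (fun j _ => ?_)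
    · exact Asymptotics.IsBigO.fun_sum fun t _ => R_RA_bmul (hc t) (hd t j)
    · exact R_RP_EE hn hg (N - j) (Nat.sub_le _ _)
  refine h1.congr ?_
  have hP' : ∀ᶠ q in 𝓝[≠] (q0 (N + g)), ∀ t ∈ Finset.range (N + 1), ∀ X ≤ N,
      pa q n t X = ∑ j ∈ Finset.range (N + 1), d t q j * EE q n N j X := by
    rw [Filter.eventually_all_finset]
    exact fun t _ => hP t
  filter_upwards [hF, hP', Ev11_gen (q0 (N + g)) n N] with q h2 h3 hq X _
  have h4 : ∀ Y ≤ N, F q Y = ∑ j ∈ Finset.range (N + 1),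
      (∑ t ∈ Finset.range (N + 1), c q t * d t q j) * EE q n N j Y := by
    intro Y hY
    rw [h2 Y hY]
    simp only [Finset.sum_mul]
    rw [Finset.sum_comm]
    refine Finset.sum_congr rfl fun t ht => ?_
    rw [h3 t ht Y hY, Finset.mul_sum]
    exact Finset.sum_congr rfl fun j _ => by ring
  rw [Ph_congr q n N hq hn _ _ h4, Ph_sum q n N hq hn]
  refine Finset.sum_congr rfl fun j hj => ?_
  have hj' := Finset.mem_range.1 hj
  rw [Ph_eq q n N hq hn, sixn_EE q n N j X hq hn (by omega)]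

end Pool.Agent.S4
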