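import Pool.Agent.S4.R.RP
import Pool.Agent.S4.R.RL
import Pool.Agent.S4.B.Mf

/-! # Chain functions are bounded -/

namespace Pool.Agent.S4

open Pool.Agent.H63.VC hiding ext
open Pool.Agent.H63.VC3 Pool.Agent.H63.VC7 Pool.Agent.H63.VC8 Pool.Agent.H63.VC11
open Pool.Agent.H63.VC12 Complex Filter Topology

variable {n N g : ℕ}

private theorem R_Bd_twA_ne {q : ℂ} (hq : q ≠ 0) (n X : ℕ) : twA q n X ≠ 0 :=
  mul_ne_zero (pow_ne_zero _ (by norm_num)) (zpow_ne_zero _ hq)

private theorem R_Bd_ka_ne {q : ℂ} (hq : q ≠ 0) (n N : ℕ) : ka q n N ≠ 0 :=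
  mul_ne_zero (pow_ne_zero _ (by norm_num)) (zpow_ne_zero _ hq)

private theorem R_Bd_tt {q : ℂ} (hq : q ≠ 0) (n X : ℕ) (r : ℤ) :
    twA q n X ^ (2 * r) = tt q n X ^ r := by
  rw [zpow_mul]
  congr 1
  unfold twA tt
  rw [mul_zpow, ← zpow_mul, zpow_ofNat, ← pow_mul, mul_comm X 2, pow_mul]
  norm_num
  congr 1
  ring

private theorem R_Bd_step {q : ℂ} (hq : q ≠ 0) (n X : ℕ) {b e k : ℤ} (hd : (2 : ℤ) ∣ b - e - k)
    (m : ℂ) : twA q n X ^ (-e) * (twA q n X ^ b * m) =
      tt q n X ^ ((b - e - k) / 2) * (twA q n X ^ k * m) := by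
  have h1 : twA q n X ^ (-e) * twA q n X ^ b = tt q n X ^ ((b - e - k) / 2) * twA q n X ^ k := by
    rw [← R_Bd_tt hq, ← zpow_add₀ (R_Bd_twA_ne hq n X), ← zpow_add₀ (R_Bd_twA_ne hq n X)]
    congr 1
    omega
  rw [← mul_assoc, h1, mul_assoc]

/-- The function at the left of an antiparallel twist region. -/
private noncomputable def R_Bd_T (n : ℕ) (q : ℂ) (N L : ℕ) (a b : ℤ) (l : List (Bool × ℤ))
    (Y : ℕ) : ℂ :=
  (if L < Y then 0 else twA q n Y ^ b) * mfc n q N L a l false Y

private theorem R_Bd_key (hn : 2 ≤ n) (hg : 1 ≤ g) (hgn : g < n) (hN : n ≤ N) {L : ℕ}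
    (hL : L = N ∨ L + n = N + g + 1) {a : ℤ} {l : List (Bool × ℤ)} {b e : ℤ}
    (hd : (2 : ℤ) ∣ b - e - hs l)
    (h : RA n N (q0 (N + g)) fun q X => twA q n X ^ hs l * mfc n q N L a l false X) :
    RA n N (q0 (N + g)) fun q X =>
      Ph q n N (fun Y => twA q n Y ^ (-e) * R_Bd_T n q N L a b l Y) X := by
  have h1 := RA.tt hn hg h ((b - e - hs l) / 2)
  rcases hL with rfl | hL
  · refine (RA.Ph hn hg h1).congr ?_
    filter_upwards [Ev11_gen (q0 (L + g)) n L] with q hq X _
    refine Ph_congr q n L hq hn _ _ (fun Y hY => ?_) X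
    unfold R_Bd_T
    rw [if_neg (by omega)]
    exact R_Bd_step hq.1 n Y hd _
  · refine (RA.PhL hn hg hgn hN h1).congr ?_
    filter_upwards [Ev11_gen (q0 (N + g)) n N] with q hq X _
    refine Ph_congr q n N hq hn _ _ (fun Y hY => ?_) X
    unfold R_Bd_T
    by_cases hY1 : L < Y
    · rw [if_pos hY1, if_pos (by omega), zero_mul, mul_zero]
    · rw [if_neg hY1, if_neg (by omega)]
      exact R_Bd_step hq.1 n Y hd _

private theorem R_Bd_hfg (hn : 2 ≤ n) (hg : 1 ≤ g) (l : List ℤ) {F : ℂ → ℕ → ℂ}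
    (h : RA n N (q0 (N + g)) F) : RA n N (q0 (N + g)) fun q X => hfg q n N l (F q) X := by
  induction l with
  | nil => exact h
  | cons a l ih =>
    refine (RA.Ph hn hg (RA.tt hn hg ih a)).congr (Eventually.of_forall fun q X _ => ?_)
    rfl

private theorem R_Bd_cont (n N : ℕ) (x : ℂ) (hx : x ≠ 0) (c : ℤ) :
    ContinuousAt (fun q => ka q n N ^ c) x := by
  refine ContinuousAt.zpow₀ ?_ c (Or.inl (R_Bd_ka_ne hx n N))
  unfold ka
  exact continuousAt_const.mul (continuousAt_id.zpow₀ _ (Or.inl hx))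

private theorem R_Bd_contA (n X : ℕ) (x : ℂ) (hx : x ≠ 0) (c : ℤ) :
    ContinuousAt (fun q => twA q n X ^ c) x := by
  refine ContinuousAt.zpow₀ ?_ c (Or.inl (R_Bd_twA_ne hx n X))
  unfold twA
  exact continuousAt_const.mul (continuousAt_id.zpow₀ _ (Or.inl hx))

private theorem R_Bd_par (hn : 2 ≤ n) (hg : 1 ≤ g) {L : ℕ} {a : ℤ} (ha : IsA n N a)
    {l : List (Bool × ℤ)} {c : ℤ} (hc : c ≠ 0) {F : ℂ → ℕ → ℂ}
    (hF : ∀ᶠ q in 𝓝[≠] (q0 (N + g)), ∀ j, mfc n q N L a l true j = Rt n q N a (F q) j)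
    (hR : RA n N (q0 (N + g)) fun q X =>
      Ph q n N (fun Y => twA q n Y ^ (-c.sign) * F q Y) X) :
    RA n N (q0 (N + g)) fun q X => twA q n X ^ c.sign * mfc n q N L a ((true, c) :: l) false X := by
  have hε : c.sign = 1 ∨ c.sign = -1 := by
    rcases lt_trichotomy c 0 with h | h | h
    · exact Or.inr (Int.sign_eq_neg_one_of_neg h)
    · exact absurd h hc
    · exact Or.inl (Int.sign_eq_one_of_pos h)
  have hd : 1 ≤ c.natAbs := by omega
  have hcd : c.sign * (c.natAbs : ℤ) = c := Int.sign_mul_natAbs c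
  have hx := R_RA_q0_ne (N + g)
  have h1 := R_RA_smul (a := fun q => ka q n N ^ c) (R_RA_cb (R_Bd_cont n N _ hx c))
    (R_Bd_hfg hn hg (List.replicate (c.natAbs - 1) (-c.sign)) hR)
  refine h1.congr ?_
  filter_upwards [Ev11_gen (q0 (N + g)) n N, hF] with q hq h5 X hX
  have e1 : mfc n q N L a ((true, c) :: l) false X =
      Ro n q N a (fun j => twS q j ^ (c.sign * (c.natAbs : ℤ)) * Rt n q N a (F q) j) X := by
    show ∑ Y ∈ Finset.range (N + 1), six n q N a Y X *
      (vwc n q N L true c Y * mfc n q N L a l true Y) = _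
    unfold Ro
    refine Finset.sum_congr rfl fun Y _ => ?_
    rw [h5 Y, hcd]
    have e2 : vwc n q N L true c Y = dimT n N q Y / dimS n N q * twS q Y ^ c := by
      unfold vwc
      rw [if_neg (by simp)]
      rfl
    rw [e2]
    ring
  rw [e1, stP hq hn ha hε hd _ hX, hcd]
  have e3 : twA q n X ^ c.sign * twA q n X ^ (-c.sign) = 1 := by
    rw [← zpow_add₀ (R_Bd_twA_ne hq.1 n X), add_neg_cancel, zpow_zero]
  calc _ = ka q n N ^ c * ((twA q n X ^ c.sign * twA q n X ^ (-c.sign)) *
        hfg q n N (List.replicate (c.natAbs - 1) (-c.sign))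
          (Ph q n N fun Y => twA q n Y ^ (-c.sign) * F q Y) X) := by ring
    _ = _ := by rw [e3, one_mul]

private theorem R_Bd_dimA {q : ℂ} (hq : Gen q n N) (hn : 2 ≤ n) : dimA n q 0 = 1 := by
  unfold dimA
  rw [Finset.prod_range_zero, mul_one]
  have e7 : ((n : ℤ) + 2 * ((0 : ℕ) : ℤ) - 1) = (n : ℤ) - 1 := by simp
  rw [e7]
  exact div_self (hq.br_ne (by omega) (by omega))

private theorem R_Bd_sixn_zero (q : ℂ) (n N X : ℕ) : sixn n q N X 0 = 1 := by
  unfold sixn
  rw [Finset.sum_range_succ', Finset.sum_eq_zero]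
  · simp
  · intro t _
    rw [Finset.prod_eq_zero (Finset.mem_range.2 (Nat.succ_pos t)), mul_zero]
    have : br q (((0 : ℕ) : ℤ) - ((0 : ℕ) : ℤ)) = 0 := by
      simp [br]
    rw [this]
    simp

/-- The functions of the chains, with all channels or with the main channels. -/
theorem mfc_RA (hn : 2 ≤ n) (hg : 1 ≤ g) (hgn : g < n) (hN : n ≤ N) {L : ℕ}
    (hL : L = N ∨ L + n = N + g + 1) {a : ℤ} (ha : IsA n N a) (l : List (Bool × ℤ))
    (hl : OkL 0 l) : RA n N (q0 (N + g)) fun q X => twA q n X ^ hs l * mfc n q N L a l false X := by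
  induction hk : l.length using Nat.strong_induction_on generalizing l with
  | _ k ih =>
    subst hk
    rcases l with _ | ⟨⟨P, c⟩, l⟩
    · refine (RA.one _).congr (Eventually.of_forall fun q X _ => ?_)
      show twA q n X ^ (0 : ℤ) * (1 : ℂ) = 1
      simp
    · cases P with
      | false =>
        obtain ⟨h1, h2⟩ : ((2 : ℤ) ∣ c - 0 - hs l) ∧ OkL 0 l := hl
        have h3 := ih l.length (by simp) l h2 rfl
        refine (R_Bd_key hn hg hgn hN hL h1 h3).congr ?_
        filter_upwards [Ev11_gen (q0 (N + g)) n N] with q hq X hX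
        rw [Ph_eq q n N hq hn]
        show twA q n X ^ (0 : ℤ) * ∑ Y ∈ Finset.range (N + 1), sixn n q N X Y *
          (vwc n q N L false c Y * mfc n q N L a l false Y) = _
        rw [zpow_zero, one_mul]
        refine Finset.sum_congr rfl fun Y _ => ?_
        unfold R_Bd_T vwc
        rw [neg_zero, zpow_zero, one_mul]
        by_cases hY : L < Y
        · rw [if_pos ⟨rfl, hY⟩, if_pos hY]
          ring
        · rw [if_neg (fun h => hY h.2), if_neg hY]
          show sixn n q N X Y * (dimA n q Y / dimS n N q * twA q n Y ^ c *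
            mfc n q N L a l false Y) = _
          ring
      | true =>
        obtain ⟨hc, hne, h2⟩ : c ≠ 0 ∧ (∀ c' l', l ≠ (true, c') :: l') ∧ OkL c.sign l := hl
        show RA n N (q0 (N + g)) fun q X =>
          twA q n X ^ c.sign * mfc n q N L a ((true, c) :: l) false X
        rcases l with _ | ⟨⟨P', b⟩, l'⟩
        · refine R_Bd_par hn hg ha hc (F := fun q Y => if Y = 0 then dimS n N q else 0) ?_ ?_
          · filter_upwards [Ev11_gen (q0 (N + g)) n N] with q hq j
            have hS := dimS_ne q n N hq hn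
            show (1 : ℂ) = _
            unfold Rt
            rw [Finset.sum_eq_single_of_mem 0 (Finset.mem_range.2 (Nat.succ_pos N))]
            · simp only [if_true]
              rw [six_zero, R_Bd_dimA hq hn]
              field_simp
            · intro b _ hb
              simp only [if_neg hb, mul_zero]
          · refine (RA.one _).congr ?_
            filter_upwards [Ev11_gen (q0 (N + g)) n N] with q hq X _
            have hS := dimS_ne q n N hq hn
            rw [Ph_eq q n N hq hn]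
            rw [Finset.sum_eq_single_of_mem 0 (Finset.mem_range.2 (Nat.succ_pos N))]
            · simp only [if_true]
              rw [R_Bd_sixn_zero, R_Bd_dimA hq hn]
              have e7 : twA q n 0 = 1 := by simp [twA]
              rw [e7, one_zpow]
              field_simp
            · intro b _ hb
              simp only [if_neg hb, mul_zero]
        · cases P' with
          | true => exact absurd rfl (hne b l')
          | false =>
            obtain ⟨h3, h4⟩ : ((2 : ℤ) ∣ b - c.sign - hs l') ∧ OkL 0 l' := h2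
            have h5 := ih l'.length (by simp only [List.length_cons]; omega) l' h4 rfl
            refine R_Bd_par hn hg ha hc (F := fun q => R_Bd_T n q N L a b l') ?_
              (R_Bd_key hn hg hgn hN hL h3 h5)
            refine Eventually.of_forall fun q j => ?_
            show ∑ Y ∈ Finset.range (N + 1), six n q N a j Y *
              (vwc n q N L false b Y * mfc n q N L a l' false Y) = _
            unfold Rt
            refine Finset.sum_congr rfl fun Y _ => ?_
            unfold R_Bd_T vwc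
            by_cases hY : L < Y
            · rw [if_pos ⟨rfl, hY⟩, if_pos hY]
              ring
            · rw [if_neg (fun h => hY h.2), if_neg hY]
              show six n q N a j Y * (dimA n q Y / dimS n N q * twA q n Y ^ b *
                mfc n q N L a l' false Y) = _
              ring

theorem mfc_bdd (hn : 2 ≤ n) (hg : 1 ≤ g) (hgn : g < n) (hN : n ≤ N) {L : ℕ}
    (hL : L = N ∨ L + n = N + g + 1) {a : ℤ} (ha : IsA n N a) (l : List (Bool × ℤ))
    (hl : OkL 0 l) {X : ℕ} (hX : X ≤ N) :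
    (fun q => mfc n q N L a l false X) =O[𝓝[≠] (q0 (N + g))] (fun _ => (1 : ℂ)) := by
  have hx := R_RA_q0_ne (N + g)
  have h1 := RA.bdd hx (mfc_RA hn hg hgn hN hL ha l hl) hX
  have h2 := R_RA_bmul (R_RA_cb (R_Bd_contA n X _ hx (-hs l))) h1
  refine h2.congr' ?_ EventuallyEq.rfl
  filter_upwards [R_RA_ne hx] with q hq
  rw [← mul_assoc, ← zpow_add₀ (R_Bd_twA_ne hq n X), neg_add_cancel, zpow_zero, one_mul]

end Pool.Agent.S4
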